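import Pool.Agent.Q43.Cyc.Main

set_option autoImplicit false

namespace Pool.Agent.Q43.Cyc

open Finset Filter Topology

theorem tendsto_loglog : Tendsto (fun n : ℕ => Real.log (Real.log (n : ℝ))) atTop atTop :=
  Real.tendsto_log_atTop.comp (Real.tendsto_log_atTop.comp tendsto_natCast_atTop_atTop)

/-- the comparison function -/
noncomputable def ff (g n : ℕ) : ℝ := 3 * (n : ℝ) ^ 2 * V {0, g} ⌊Real.log (Real.log n)⌋₊

theorem real_facts (C : ℝ) : ∀ᶠ L : ℝ in atTop, 8 ≤ Real.log L ∧ C ≤ Real.log L ∧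
    3 * Real.log (Real.log L) + 1 ≤ Real.log L / 2 ∧ 4 * L ^ 4 ≤ Real.exp L ∧ 1 ≤ L ∧
    Real.log L ≤ L ∧ 2 * (Real.log L) ^ 3 ≤ L ∧ 8 * (6 * Real.log (Real.log L) + C) ≤ Real.log L := by
  have hlog : Tendsto Real.log atTop atTop := Real.tendsto_log_atTop
  have h1 := hlog.eventually_ge_atTop 8
  have h2 := hlog.eventually_ge_atTop C
  have h3 : ∀ᶠ u : ℝ in atTop, 3 * Real.log u + 1 ≤ u / 2 := by
    have h := Real.isLittleO_log_id_atTop.bound (show (0 : ℝ) < 1 / 12 by norm_num)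
    filter_upwards [h, eventually_ge_atTop 4] with u hu hu3
    rw [Real.norm_eq_abs, abs_of_nonneg (Real.log_nonneg (by linarith)), id, Real.norm_eq_abs,
      abs_of_nonneg (by linarith)] at hu
    linarith
  have h3' := hlog.eventually h3
  have h4 : ∀ᶠ L : ℝ in atTop, 4 * L ^ 4 ≤ Real.exp L := by
    have h := (isLittleO_pow_exp_pos_mul_atTop (k := 4) one_pos).bound
      (show (0 : ℝ) < 1 / 4 by norm_num)
    filter_upwards [h, eventually_ge_atTop 0] with L hL hL0
    rw [one_mul, Real.norm_eq_abs, abs_of_nonneg (by positivity), Real.norm_eq_abs, Real.abs_exp] at hL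
    linarith
  have h6 : ∀ᶠ L : ℝ in atTop, Real.log L ≤ L := by
    filter_upwards [eventually_gt_atTop 0] with L hL
    have := Real.log_le_sub_one_of_pos hL
    linarith
  have h7 : ∀ᶠ L : ℝ in atTop, 2 * (Real.log L) ^ 3 ≤ L := by
    have h := (isLittleO_log_rpow_rpow_atTop (3 : ℝ) (show (0 : ℝ) < 1 by norm_num)).bound
      (show (0 : ℝ) < 1 / 2 by norm_num)
    filter_upwards [h, eventually_ge_atTop 1] with L hL hL0
    have hl0 : 0 ≤ Real.log L := Real.log_nonneg hL0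
    rw [Real.norm_eq_abs, abs_of_nonneg (Real.rpow_nonneg hl0 _), Real.norm_eq_abs,
      abs_of_nonneg (Real.rpow_nonneg (by linarith) _), Real.rpow_one] at hL
    have e : Real.log L ^ (3 : ℝ) = Real.log L ^ 3 := by
      rw [← Real.rpow_natCast]; norm_num
    rw [e] at hL
    linarith
  have h8 : ∀ᶠ u : ℝ in atTop, 8 * (6 * Real.log u + C) ≤ u := by
    have h := Real.isLittleO_log_id_atTop.bound (show (0 : ℝ) < 1 / 96 by norm_num)
    filter_upwards [h, eventually_ge_atTop 1, eventually_ge_atTop (16 * C)] with u hu hu3 hu4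
    rw [Real.norm_eq_abs, abs_of_nonneg (Real.log_nonneg hu3), id, Real.norm_eq_abs,
      abs_of_nonneg (by linarith)] at hu
    linarith
  have h8' := hlog.eventually h8
  filter_upwards [h1, h2, h3', h4, eventually_ge_atTop 1, h6, h7, h8'] with L a1 a2 a3 a4 a5 a6 a7 a8
  exact ⟨a1, a2, a3, a4, a5, a6, a7, a8⟩

theorem main_est (g : ℕ) (hg : g = 2 ∨ g = 4 ∨ g = 6) : ∃ K : ℝ, 0 < K ∧ ∀ᶠ n : ℕ in atTop,
    |(#(Tset' g n) : ℝ) / ff g n - 1| ≤
      K * ((1 + Real.log (Real.log (Real.log (Real.log n)))) / Real.log (Real.log (Real.log n))) := by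
  classical
  have hg2 : 2 ∣ g := by rcases hg with rfl | rfl | rfl <;> norm_num
  have hg6 : g ≤ 6 := by omega
  have hG2 : #({0, g} : Finset ℕ) ≤ 2 := card_le_two
  obtain ⟨C1, hC1, hrare⟩ := rare
  obtain ⟨C2, hC2, hrough⟩ := rough
  obtain ⟨c, hc, hVl⟩ := V_lower {0, g} hG2 (by
    intro g' hg'
    rw [mem_insert, mem_singleton] at hg'
    rcases hg' with rfl | rfl
    · exact dvd_zero 2
    · exact hg2)
  have hV3 : ∀ e : ℕ, 0 < e → e < g → ∃ C : ℝ, 0 < C ∧ ∀ y : ℕ, 3 ≤ y →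
      V {0, e, g} y ≤ C / (Real.log y) ^ 3 := by
    intro e he heg
    apply V_upper
    · rw [card_insert_of_notMem, card_insert_of_notMem, card_singleton]
      · rw [mem_singleton]; omega
      · rw [mem_insert, mem_singleton]; omega
    · intro g' hg'
      rw [mem_insert, mem_insert, mem_singleton] at hg'
      omega
  obtain ⟨C3, hC3, hV3'⟩ : ∃ C3 : ℝ, 0 < C3 ∧ ∀ e : ℕ, (e = 2 ∨ e = 4) → e < g → ∀ y : ℕ, 3 ≤ y →
      V {0, e, g} y ≤ C3 / (Real.log y) ^ 3 := by
    have h2 : ∃ C : ℝ, 0 < C ∧ (2 < g → ∀ y : ℕ, 3 ≤ y → V {0, 2, g} y ≤ C / (Real.log y) ^ 3) := by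
      by_cases h : 2 < g
      · obtain ⟨C, hC, h'⟩ := hV3 2 (by norm_num) h
        exact ⟨C, hC, fun _ => h'⟩
      · exact ⟨1, one_pos, fun h' => absurd h' h⟩
    have h4 : ∃ C : ℝ, 0 < C ∧ (4 < g → ∀ y : ℕ, 3 ≤ y → V {0, 4, g} y ≤ C / (Real.log y) ^ 3) := by
      by_cases h : 4 < g
      · obtain ⟨C, hC, h'⟩ := hV3 4 (by norm_num) h
        exact ⟨C, hC, fun _ => h'⟩
      · exact ⟨1, one_pos, fun h' => absurd h' h⟩
    obtain ⟨Ca, hCa, ha⟩ := h2
    obtain ⟨Cb, hCb, hb⟩ := h4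
    refine ⟨max Ca Cb, lt_max_of_lt_left hCa, ?_⟩
    rintro e (rfl | rfl) heg y hy
    · refine (ha heg y hy).trans ?_
      apply div_le_div_of_nonneg_right (le_max_left _ _)
      have : 0 ≤ Real.log y := Real.log_natCast_nonneg y
      positivity
    · refine (hb heg y hy).trans ?_
      apply div_le_div_of_nonneg_right (le_max_right _ _)
      have : 0 ≤ Real.log y := Real.log_natCast_nonneg y
      positivity
  obtain ⟨C4, hC4, hshort⟩ := short_sum
  set K1 : ℝ := (9 + 4 * C2 + 6 * C1 + 96 * C3) / (3 * c) with hK1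
  have hK10 : 0 < K1 := by positivity
  refine ⟨8 * (8 + C4) + K1, by positivity, ?_⟩
  have hreal := tendsto_loglog.eventually (real_facts (2 + C4))
  filter_upwards [hreal, hrare, hrough, eventually_ge_atTop 2, ev_log 1] with n hr hra hro hn2 hln1
  set L := Real.log (Real.log (n : ℝ)) with hL
  set l := Real.log L with hl
  obtain ⟨r1, r2, r3, r4, r5, r6, r7, r8⟩ := hr
  have hl0 : 0 < l := by linarith
  have hL0 : 0 < L := by linarith
  have hn0 : (0 : ℝ) < n := by exact_mod_cast (by omega : 0 < n)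
  have hn1 : (2 : ℝ) ≤ n := by exact_mod_cast hn2
  have hlogn : Real.exp L = Real.log n := Real.exp_log (by linarith)
  have hlogl : 0 ≤ Real.log l := Real.log_nonneg (by linarith)
  have hl3 : l ^ 3 = Real.exp (3 * Real.log l) := by
    rw [show (3 : ℝ) * Real.log l = Real.log l + Real.log l + Real.log l by ring, Real.exp_add,
      Real.exp_add, Real.exp_log hl0]; ring
  set y1 := ⌊L / l ^ 3⌋₊ with hy1
  set yL := ⌊L⌋₊ with hyL
  set y2 := ⌈L * l ^ 3⌉₊ with hy2
  have hl31 : 1 ≤ l ^ 3 := one_le_pow₀ (by linarith)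
  have hy1le : (y1 : ℝ) ≤ L / l ^ 3 := Nat.floor_le (by positivity)
  have hy1ge : L / (2 * l ^ 3) ≤ y1 := by
    have h1 : L / l ^ 3 - 1 < y1 := Nat.sub_one_lt_floor _
    have h2 : 2 ≤ L / l ^ 3 := by rw [le_div_iff₀ (by positivity)]; linarith
    have h3 : L / (2 * l ^ 3) = (L / l ^ 3) / 2 := by field_simp
    rw [h3]; linarith
  have hLl3 : L / l ^ 3 ≤ L := div_le_self hL0.le hl31
  have hyLle : (yL : ℝ) ≤ L := Nat.floor_le hL0.le
  have hy2ge : L * l ^ 3 ≤ y2 := Nat.le_ceil _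
  have hy2le : (y2 : ℝ) ≤ 2 * (L * l ^ 3) := by
    have h1 : (y2 : ℝ) < L * l ^ 3 + 1 := Nat.ceil_lt_add_one (by positivity)
    have h2 : 1 ≤ L * l ^ 3 := by nlinarith
    linarith
  have hy1L : y1 ≤ yL := Nat.floor_le_floor hLl3
  have hyL2 : yL ≤ y2 := by
    have h1 : (yL : ℝ) ≤ y2 := by
      refine hyLle.trans (le_trans ?_ hy2ge)
      nlinarith
    exact_mod_cast h1
  -- logs of y1, y2
  have hlog2 : Real.log 2 ≤ 1 := by have := Real.log_two_lt_d9; linarith
  have hlogy1 : l - 3 * Real.log l - 1 ≤ Real.log y1 := by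
    have h1 : Real.log (L / (2 * l ^ 3)) ≤ Real.log y1 := Real.log_le_log (by positivity) hy1ge
    have h2 : Real.log (L / (2 * l ^ 3)) = l - (Real.log 2 + 3 * Real.log l) := by
      rw [Real.log_div hL0.ne' (by positivity), Real.log_mul (by norm_num) (by positivity),
        Real.log_pow]
      push_cast; ring
    linarith
  have hlogy1' : l / 2 ≤ Real.log y1 := by linarith
  have hlogy10 : 0 < Real.log y1 := by linarith
  have hy13 : 3 ≤ y1 := by
    by_contra hlt
    have h1 : y1 ≤ 2 := by omega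
    have h2 : Real.log y1 ≤ Real.log 2 := by
      rcases Nat.eq_zero_or_pos y1 with h0 | h0
      · rw [h0]; simp; exact Real.log_nonneg (by norm_num)
      · exact Real.log_le_log (by exact_mod_cast h0) (by exact_mod_cast h1)
    linarith
  have hlogy2 : Real.log y2 ≤ l + 3 * Real.log l + 1 := by
    have hy20 : (0 : ℝ) < y2 := by
      have : 0 < L * l ^ 3 := by positivity
      linarith
    have h1 := Real.log_le_log hy20 hy2le
    rw [Real.log_mul (by norm_num) (by positivity), Real.log_mul hL0.ne' (by positivity),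
      Real.log_pow] at h1
    push_cast at h1
    linarith
  have hlogyL : Real.log yL ≤ l := by
    apply Real.log_le_log _ hyLle
    exact_mod_cast (by omega : 0 < yL)
  -- 4^y2 ≤ n
  have h4y2 : (4 : ℝ) ^ y2 ≤ n := by
    have h1 : (y2 : ℝ) * Real.log 4 ≤ Real.log n := by
      have h2 : Real.log 4 ≤ 2 := by
        rw [show (4 : ℝ) = 2 ^ 2 by norm_num, Real.log_pow]; push_cast; linarith
      have h3 : l ^ 3 ≤ L ^ 3 := pow_le_pow_left₀ hl0.le r6 3
      calc (y2 : ℝ) * Real.log 4 ≤ (2 * (L * l ^ 3)) * 2 :=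
            mul_le_mul hy2le h2 (Real.log_nonneg (by norm_num)) (by positivity)
        _ ≤ (2 * (L * L ^ 3)) * 2 := by
            apply mul_le_mul_of_nonneg_right _ (by norm_num)
            apply mul_le_mul_of_nonneg_left _ (by norm_num)
            exact mul_le_mul_of_nonneg_left h3 hL0.le
        _ = 4 * L ^ 4 := by ring
        _ ≤ Real.log n := by rw [← hlogn]; exact r4
    calc (4 : ℝ) ^ y2 = Real.exp (y2 * Real.log 4) := by
          rw [mul_comm, Real.exp_mul, Real.exp_log (by norm_num), Real.rpow_natCast]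
      _ ≤ Real.exp (Real.log n) := Real.exp_le_exp.2 h1
      _ = n := Real.exp_log hn0
  have h4y1 : (4 : ℝ) ^ y1 ≤ n :=
    (pow_le_pow_right₀ (by norm_num) (hy1L.trans hyL2)).trans h4y2
  -- l^3 ≤ log n ≤ n
  have hl3n : l ^ 3 ≤ Real.log n := by
    have h3 : l ^ 3 ≤ L ^ 3 := pow_le_pow_left₀ hl0.le r6 3
    have h5 : L ^ 3 ≤ 4 * L ^ 4 := by
      have h6 : 0 ≤ L ^ 3 := by positivity
      nlinarith
    rw [← hlogn]
    linarith
  have hlognn : Real.log n ≤ n := by
    have := Real.log_le_sub_one_of_pos hn0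
    linarith
  -- errors in terms of n^2 / l^3
  set E : ℝ := (n : ℝ) ^ 2 / l ^ 3 with hE
  have hE0 : 0 ≤ E := by positivity
  have hnE : (n : ℝ) ≤ E := by
    rw [hE, le_div_iff₀ (by positivity), sq]
    exact mul_le_mul_of_nonneg_left (hl3n.trans hlognn) hn0.le
  have hR : (#(RareSet n y1) : ℝ) ≤ C1 * E := by
    have h1 := hra y1 (hy1le.trans hLl3)
    refine h1.trans ?_
    rw [hE, mul_assoc]
    apply mul_le_mul_of_nonneg_left _ hC1.le
    rw [div_eq_mul_one_div ((n : ℝ) ^ 2)]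
    apply mul_le_mul_of_nonneg_left _ (by positivity)
    rw [div_le_div_iff₀ hL0 (by positivity)]
    have := mul_le_mul_of_nonneg_right hy1le (show 0 ≤ l ^ 3 by positivity)
    rw [div_mul_cancel₀ _ (by positivity)] at this
    linarith
  have hRo : (#(RoughSet n y2) : ℝ) ≤ 2 * C2 * E := by
    have hy21 : 1 ≤ y2 := by omega
    have hy20 : (0 : ℝ) < y2 := by exact_mod_cast (by omega : 0 < y2)
    have h1 := hro y2 hy21
    refine h1.trans ?_
    have h2 : L / y2 ≤ 1 / l ^ 3 := by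
      rw [div_le_div_iff₀ hy20 (by positivity)]
      linarith
    have h3 : 1 / Real.log n ≤ 1 / l ^ 3 := one_div_le_one_div_of_le (by positivity) hl3n
    calc C2 * (n : ℝ) ^ 2 * (L / y2 + 1 / Real.log n) ≤ C2 * (n : ℝ) ^ 2 * (1 / l ^ 3 + 1 / l ^ 3) :=
          mul_le_mul_of_nonneg_left (add_le_add h2 h3) (by positivity)
      _ = _ := by rw [hE]; ring
  -- sieve counts
  set Vv := V {0, g} yL with hVv
  have hVpos : 0 < Vv := V_pos g hg2 yL
  have hVlow : c / l ^ 2 ≤ Vv := by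
    have h1 := hVl yL (by omega)
    refine le_trans ?_ h1
    have h2 : 0 < Real.log yL := Real.log_pos (by exact_mod_cast (by omega : 1 < yL))
    apply div_le_div_of_nonneg_left hc.le (by positivity)
    exact pow_le_pow_left₀ h2.le hlogyL 2
  set s := ∑ p ∈ Pr y2 \ Pr y1, (1 : ℝ) / p with hs
  have hs0 : 0 ≤ s := sum_nonneg fun p _ => by positivity
  have hsle : s ≤ 2 * (6 * Real.log l + (2 + C4)) / l := by
    have h1 := hshort y1 y2 (by omega) (hy1L.trans hyL2)
    refine h1.trans ?_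
    rw [div_le_div_iff₀ hlogy10 hl0]
    have h2 : Real.log y2 - Real.log y1 + C4 ≤ 6 * Real.log l + (2 + C4) := by linarith
    have h3 : 0 ≤ 6 * Real.log l + (2 + C4) := by positivity
    calc (Real.log y2 - Real.log y1 + C4) * l ≤ (6 * Real.log l + (2 + C4)) * l :=
          mul_le_mul_of_nonneg_right h2 hl0.le
      _ = 2 * (6 * Real.log l + (2 + C4)) * (l / 2) := by ring
      _ ≤ 2 * (6 * Real.log l + (2 + C4)) * Real.log y1 :=
          mul_le_mul_of_nonneg_left hlogy1' (by positivity)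
  have hs4 : s ≤ 1 / 4 := by
    refine hsle.trans ?_
    rw [div_le_div_iff₀ hl0 (by norm_num)]
    linarith
  have hsub1 : ∑ p ∈ Pr yL \ Pr y1, (1 : ℝ) / p ≤ s := by
    apply sum_le_sum_of_subset_of_nonneg
    · exact sdiff_subset_sdiff (Pr_mono hyL2) (Subset.refl _)
    · intro p _ _; positivity
  have hsub2 : ∑ p ∈ Pr y2 \ Pr yL, (1 : ℝ) / p ≤ s := by
    apply sum_le_sum_of_subset_of_nonneg
    · exact sdiff_subset_sdiff (Subset.refl _) (Pr_mono hy1L)
    · intro p _ _; positivity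
  have hV1 : V {0, g} y1 ≤ Vv * (1 + 4 * s) := by
    have h1 := V_ratio {0, g} hG2 hy1L (by omega)
    have h2 := V_nonneg {0, g} y1
    have h3 : V {0, g} y1 * (1 - 2 * s) ≤ Vv := by
      refine le_trans ?_ h1
      apply mul_le_mul_of_nonneg_left _ h2
      linarith
    have h4 : 1 ≤ (1 - 2 * s) * (1 + 4 * s) := by nlinarith
    calc V {0, g} y1 = V {0, g} y1 * 1 := by ring
      _ ≤ V {0, g} y1 * ((1 - 2 * s) * (1 + 4 * s)) := mul_le_mul_of_nonneg_left h4 h2
      _ = (V {0, g} y1 * (1 - 2 * s)) * (1 + 4 * s) := by ring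
      _ ≤ Vv * (1 + 4 * s) := mul_le_mul_of_nonneg_right h3 (by linarith)
  have hV2 : Vv * (1 - 2 * s) ≤ V {0, g} y2 := by
    have h1 := V_ratio {0, g} hG2 hyL2 (by omega)
    refine le_trans ?_ h1
    apply mul_le_mul_of_nonneg_left _ hVpos.le
    linarith
  have hHH : (HH n : ℝ) = 3 * (n : ℝ) ^ 2 + 3 * n := by unfold HH; push_cast; ring
  have hff : ff g n = 3 * (n : ℝ) ^ 2 * Vv := rfl
  have hf0 : 0 < ff g n := by rw [hff]; positivity
  have hEf : E ≤ ff g n * (1 / (3 * c * l)) := by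
    rw [hE, hff]
    have h1 : c ≤ Vv * l ^ 2 := by
      rw [div_le_iff₀ (by positivity)] at hVlow
      exact hVlow
    have e : 3 * (n : ℝ) ^ 2 * Vv * (1 / (3 * c * l)) = (n : ℝ) ^ 2 * Vv / (c * l) := by
      field_simp
    rw [e, div_le_div_iff₀ (by positivity) (by positivity)]
    have h2 := mul_le_mul_of_nonneg_left h1 (show 0 ≤ (n : ℝ) ^ 2 * l by positivity)
    calc (n : ℝ) ^ 2 * (c * l) = (n : ℝ) ^ 2 * l * c := by ring
      _ ≤ (n : ℝ) ^ 2 * l * (Vv * l ^ 2) := h2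
      _ = (n : ℝ) ^ 2 * Vv * l ^ 3 := by ring
  -- upper bound
  have hup : (#(Tset' g n) : ℝ) ≤ ff g n * (1 + 4 * s + K1 / l) := by
    have h1 : (#(Tset' g n) : ℝ) ≤ #(Sv {0, g} y1 n) + 2 * #(RareSet n y1) := by
      exact_mod_cast T_upper g y1 n
    have h2 := (abs_le.1 (Sv_count {0, g} y1 n)).2
    have h3 : (HH n : ℝ) * V {0, g} y1 ≤ ff g n * (1 + 4 * s) + 3 * n := by
      rw [hHH, hff]
      have h4 := mul_le_mul_of_nonneg_left hV1 (show 0 ≤ 3 * (n : ℝ) ^ 2 by positivity)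
      have h5 := mul_le_mul_of_nonneg_left (V_le_one {0, g} y1) (show 0 ≤ 3 * (n : ℝ) by positivity)
      rw [add_mul]
      linarith
    have h6 : (#(Tset' g n) : ℝ) ≤ ff g n * (1 + 4 * s) + (4 + 2 * C1) * E := by linarith
    have h7 : (4 + 2 * C1) * E ≤ ff g n * (K1 / l) := by
      have h8 : (4 + 2 * C1) * E ≤ (9 + 4 * C2 + 6 * C1 + 96 * C3) * E :=
        mul_le_mul_of_nonneg_right (by linarith) hE0
      have h9 := mul_le_mul_of_nonneg_left hEf
        (show 0 ≤ (9 + 4 * C2 + 6 * C1 + 96 * C3) by positivity)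
      refine h8.trans (h9.trans (le_of_eq ?_))
      rw [hK1]; field_simp
    calc (#(Tset' g n) : ℝ) ≤ ff g n * (1 + 4 * s) + (4 + 2 * C1) * E := h6
      _ ≤ ff g n * (1 + 4 * s) + ff g n * (K1 / l) := by linarith
      _ = _ := by ring
  -- lower bound
  have hlow : ff g n * (1 - 2 * s - K1 / l) ≤ (#(Tset' g n) : ℝ) := by
    have h1 := T_lower g y2 y1 n hg hn2
    have h2 := (abs_le.1 (Sv_count {0, g} y2 n)).1
    have htrip : ∀ e : ℕ, (e = 2 ∨ e = 4) →
        (((if e < g then #(Sv {0, e, g} y1 n) else 0 : ℕ)) : ℝ) ≤ 48 * C3 * E + n := by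
      intro e he
      split_ifs with heg
      · have h3 := (abs_le.1 (Sv_count {0, e, g} y1 n)).2
        have h4 := hV3' e he heg y1 hy13
        have h5 : V {0, e, g} y1 ≤ 8 * C3 / l ^ 3 := by
          refine h4.trans ?_
          rw [div_le_div_iff₀ (by positivity) (by positivity)]
          have h6 : (l / 2) ^ 3 ≤ Real.log y1 ^ 3 := pow_le_pow_left₀ (by positivity) hlogy1' 3
          have h7 := mul_le_mul_of_nonneg_left h6 (show 0 ≤ 8 * C3 by positivity)
          calc C3 * l ^ 3 = 8 * C3 * (l / 2) ^ 3 := by ring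
            _ ≤ _ := h7
        have h6 : (HH n : ℝ) ≤ 6 * (n : ℝ) ^ 2 := by rw [hHH]; nlinarith
        have h7 : (HH n : ℝ) * V {0, e, g} y1 ≤ 48 * C3 * E := by
          calc (HH n : ℝ) * V {0, e, g} y1 ≤ (6 * (n : ℝ) ^ 2) * (8 * C3 / l ^ 3) :=
                mul_le_mul h6 h5 (V_nonneg _ _) (by positivity)
            _ = 48 * C3 * E := by rw [hE]; ring
        linarith
      · have : 0 ≤ 48 * C3 * E + n := by positivity
        simpa using this
    have t2 := htrip 2 (Or.inl rfl)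
    have t4 := htrip 4 (Or.inr rfl)
    have h3 : (#(Sv {0, g} y2 n) : ℝ) ≤ #(Tset' g n) + g + 2 * #(RoughSet n y2) +
        6 * #(RareSet n y1) + ((if 2 < g then #(Sv {0, 2, g} y1 n) else 0 : ℕ) : ℝ) +
        ((if 4 < g then #(Sv {0, 4, g} y1 n) else 0 : ℕ) : ℝ) := by exact_mod_cast h1
    have h4 : ff g n * (1 - 2 * s) ≤ (HH n : ℝ) * V {0, g} y2 := by
      rw [hHH, hff]
      have h5 := mul_le_mul_of_nonneg_left hV2 (show 0 ≤ 3 * (n : ℝ) ^ 2 by positivity)
      have h6 : 0 ≤ 3 * (n : ℝ) * V {0, g} y2 := mul_nonneg (by positivity) (V_nonneg _ _)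
      rw [add_mul]
      linarith
    have hgR : (g : ℝ) ≤ 6 := by exact_mod_cast hg6
    have h5 : ff g n * (1 - 2 * s) - (9 + 4 * C2 + 6 * C1 + 96 * C3) * E ≤ (#(Tset' g n) : ℝ) := by
      linarith
    have h9 := mul_le_mul_of_nonneg_left hEf
        (show 0 ≤ (9 + 4 * C2 + 6 * C1 + 96 * C3) by positivity)
    have h10 : (9 + 4 * C2 + 6 * C1 + 96 * C3) * (ff g n * (1 / (3 * c * l))) = ff g n * (K1 / l) := by
      rw [hK1]; field_simp
    rw [h10] at h9
    calc ff g n * (1 - 2 * s - K1 / l) = ff g n * (1 - 2 * s) - ff g n * (K1 / l) := by ring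
      _ ≤ _ := by linarith
  -- conclusion
  have hgoal : 4 * s + K1 / l ≤ (8 * (8 + C4) + K1) * ((1 + Real.log l) / l) := by
    have h1 : 4 * s ≤ 8 * (8 + C4) * ((1 + Real.log l) / l) := by
      have h2 : 6 * Real.log l + (2 + C4) ≤ (8 + C4) * (1 + Real.log l) := by
        have : 0 ≤ C4 * Real.log l := mul_nonneg hC4 hlogl
        nlinarith
      calc 4 * s ≤ 4 * (2 * (6 * Real.log l + (2 + C4)) / l) := by linarith
        _ = 8 * ((6 * Real.log l + (2 + C4)) / l) := by ring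
        _ ≤ 8 * (((8 + C4) * (1 + Real.log l)) / l) := by
            apply mul_le_mul_of_nonneg_left _ (by norm_num)
            exact div_le_div_of_nonneg_right h2 hl0.le
        _ = _ := by ring
    have h3 : K1 / l ≤ K1 * ((1 + Real.log l) / l) := by
      rw [div_eq_mul_one_div]
      apply mul_le_mul_of_nonneg_left _ hK10.le
      exact div_le_div_of_nonneg_right (by linarith) hl0.le
    linarith
  rw [abs_le]
  have hKl : 0 ≤ K1 / l := by positivity
  constructor
  · have h1 : 1 - 2 * s - K1 / l ≤ (#(Tset' g n) : ℝ) / ff g n := by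
      rw [le_div_iff₀ hf0, mul_comm]
      exact hlow
    linarith
  · have h1 : (#(Tset' g n) : ℝ) / ff g n ≤ 1 + 4 * s + K1 / l := by
      rw [div_le_iff₀ hf0, mul_comm]
      exact hup
    linarith

end Pool.Agent.Q43.Cyc
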