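import Mathlib

set_option autoImplicit false

namespace Pool.Agent.Q43.Cyc

open Finset

/-- Cyclic numbers. -/
def IsCyc (m : ℕ) : Prop := 0 < m ∧ Nat.Coprime m (Nat.totient m)

theorem even_not_cyc {m : ℕ} (hm : 2 < m) (he : 2 ∣ m) : ¬ IsCyc m := by
  rintro ⟨_, h⟩
  have h1 : 2 ∣ Nat.totient m := (Nat.totient_even hm).two_dvd
  have h2 := Nat.dvd_gcd he h1
  rw [h.gcd_eq_one] at h2
  omega

theorem not_cyc_of_mod {m p q : ℕ} (hp : p.Prime) (hq : q.Prime) (hpm : p ∣ m) (hqm : q ∣ m)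
    (h : p ∣ q - 1) : ¬ IsCyc m := by
  rintro ⟨_, hc⟩
  have h1 : q - 1 ∣ Nat.totient m := by
    rw [← Nat.totient_prime hq]
    exact Nat.totient_dvd_of_dvd hqm
  have h2 := Nat.dvd_gcd hpm (h.trans h1)
  rw [hc.gcd_eq_one] at h2
  exact hp.one_lt.ne' (Nat.dvd_one.1 h2)

theorem exists_of_not_cyc {m : ℕ} (hm : 0 < m) (h : ¬ IsCyc m) :
    (∃ p : ℕ, p.Prime ∧ p ^ 2 ∣ m) ∨
    (∃ p q : ℕ, p.Prime ∧ q.Prime ∧ p ∣ m ∧ q ∣ m ∧ p ∣ q - 1) := by
  by_cases hsq : Squarefree m
  · right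
    have h1 : ¬ Nat.Coprime m (Nat.totient m) := fun h2 => h ⟨hm, h2⟩
    obtain ⟨p, hp, hpm, hpt⟩ := Nat.Prime.not_coprime_iff_dvd.1 h1
    have h3 : Nat.totient m = ∏ q ∈ m.primeFactors, (q - 1) := by
      rw [Nat.totient_eq_div_primeFactors_mul, Nat.prod_primeFactors_of_squarefree hsq,
        Nat.div_self hm, one_mul]
    rw [h3] at hpt
    obtain ⟨q, hq, hpq⟩ := (Prime.dvd_finsetProd_iff hp.prime _).1 hpt
    exact ⟨p, q, hp, (Nat.mem_primeFactors.1 hq).1, hpm, (Nat.mem_primeFactors.1 hq).2.1, hpq⟩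
  · left
    rw [Nat.squarefree_iff_prime_squarefree] at hsq
    push Not at hsq
    obtain ⟨p, hp, hpp⟩ := hsq
    exact ⟨p, hp, by rwa [sq]⟩

/-- Counting predicates on residues by the Chinese remainder theorem. -/
theorem crt_count (S : Finset ℕ) (hS : ∀ p ∈ S, p.Prime) (good : ℕ → ℕ → Prop)
    [∀ p, DecidablePred (good p)]
    (hper : ∀ p ∈ S, ∀ t, good p (t % p) ↔ good p t) :
    #{t ∈ range (∏ p ∈ S, p) | ∀ p ∈ S, good p t} = ∏ p ∈ S, #{t ∈ range p | good p t} := by
  classical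
  induction S using Finset.induction_on with
  | empty => simp
  | insert q S hq ih =>
    have hS' : ∀ p ∈ S, p.Prime := fun p hp => hS p (mem_insert_of_mem hp)
    have hqp : q.Prime := hS q (mem_insert_self _ _)
    have ih' := ih hS' fun p hp => hper p (mem_insert_of_mem hp)
    rw [prod_insert hq, prod_insert hq, ← ih']
    set P := ∏ p ∈ S, p with hP
    have hP0 : 0 < P := prod_pos fun p hp => (hS' p hp).pos
    have hcop : Nat.Coprime q P := by
      rw [hP]
      apply Nat.Coprime.prod_right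
      intro p hp
      exact (Nat.coprime_primes hqp (hS' p hp)).2 (by rintro rfl; exact hq hp)
    have hdvd : ∀ p ∈ S, p ∣ P := fun p hp => dvd_prod_of_mem _ hp
    have hgP : ∀ p ∈ S, ∀ t, good p (t % P) ↔ good p t := by
      intro p hp t
      rw [← hper p (mem_insert_of_mem hp) (t % P), Nat.mod_mod_of_dvd _ (hdvd p hp),
        hper p (mem_insert_of_mem hp)]
    rw [← card_product]
    refine card_bij (fun t _ => (t % q, t % P)) ?_ ?_ ?_
    · intro t ht
      rw [mem_filter, mem_range] at ht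
      rw [mem_product, mem_filter, mem_filter, mem_range, mem_range]
      refine ⟨⟨Nat.mod_lt _ hqp.pos, ?_⟩, Nat.mod_lt _ hP0, ?_⟩
      · exact (hper q (mem_insert_self _ _) t).2 (ht.2 q (mem_insert_self _ _))
      · intro p hp
        exact (hgP p hp t).2 (ht.2 p (mem_insert_of_mem hp))
    · intro t ht u hu htu
      rw [mem_filter, mem_range] at ht hu
      simp only [Prod.mk.injEq] at htu
      have h1 : t ≡ u [MOD q * P] := (Nat.modEq_and_modEq_iff_modEq_mul hcop).1 ⟨htu.1, htu.2⟩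
      rw [Nat.ModEq, Nat.mod_eq_of_lt ht.1, Nat.mod_eq_of_lt hu.1] at h1
      exact h1
    · rintro ⟨u, v⟩ huv
      rw [mem_product, mem_filter, mem_filter, mem_range, mem_range] at huv
      obtain ⟨⟨hu1, hu2⟩, hv1, hv2⟩ := huv
      simp only at hu1 hu2 hv1 hv2
      obtain ⟨t, ht1, ht2⟩ := Nat.chineseRemainder hcop u v
      have e1 : t % (q * P) % q = u := by
        rw [Nat.mod_mod_of_dvd _ (Dvd.intro _ rfl), ht1, Nat.mod_eq_of_lt hu1]
      have e2 : t % (q * P) % P = v := by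
        rw [Nat.mod_mod_of_dvd _ (Dvd.intro_left _ rfl), ht2, Nat.mod_eq_of_lt hv1]
      refine ⟨t % (q * P), ?_, ?_⟩
      · rw [mem_filter, mem_range]
        refine ⟨Nat.mod_lt _ (Nat.mul_pos hqp.pos hP0), ?_⟩
        intro p hp
        rcases mem_insert.1 hp with rfl | hp'
        · rw [← hper p hp, e1]; exact hu2
        · rw [← hgP p hp', e2]; exact hv2 p hp'
      · rw [e1, e2]

/-- Periodic predicates on intervals. -/
theorem periodic_blocks (P : ℕ) (pr : ℕ → Prop) [DecidablePred pr] (hper : Function.Periodic pr P)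
    (a k : ℕ) : #{t ∈ Ico a (a + k * P) | pr t} = k * #{t ∈ range P | pr t} := by
  induction k with
  | zero => simp
  | succ k ih =>
    have h1 : Ico a (a + (k + 1) * P) = Ico a (a + k * P) ∪ Ico (a + k * P) (a + k * P + P) := by
      rw [Ico_union_Ico_eq_Ico (by omega) (by omega)]
      congr 1; ring
    have hd : Disjoint (Ico a (a + k * P)) (Ico (a + k * P) (a + k * P + P)) :=
      Ico_disjoint_Ico_consecutive _ _ _
    rw [h1, filter_union, card_union_of_disjoint (disjoint_filter_filter hd), ih,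
      Nat.filter_Ico_card_eq_of_periodic _ _ _ hper, Nat.count_eq_card_filter_range]
    ring

theorem periodic_interval (P : ℕ) (hP : 0 < P) (pr : ℕ → Prop) [DecidablePred pr]
    (hper : Function.Periodic pr P) (a H : ℕ) :
    |(#{t ∈ Ico a (a + H) | pr t} : ℝ) - H * ((#{t ∈ range P | pr t} : ℝ) / P)| ≤ P := by
  set c := #{t ∈ range P | pr t} with hc
  have hcP : c ≤ P := by
    rw [hc]
    exact (card_filter_le _ _).trans (by rw [card_range])
  set k := H / P with hk
  have hk1 : k * P ≤ H := Nat.div_mul_le_self H P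
  have hk2 : H < (k + 1) * P := by
    rw [mul_comm]; exact Nat.lt_mul_div_succ H hP
  have hlow : k * c ≤ #{t ∈ Ico a (a + H) | pr t} := by
    rw [hc, ← periodic_blocks P pr hper a k]
    apply card_le_card
    apply filter_subset_filter
    exact Ico_subset_Ico_right (by omega)
  have hup : #{t ∈ Ico a (a + H) | pr t} ≤ (k + 1) * c := by
    rw [hc, ← periodic_blocks P pr hper a (k + 1)]
    apply card_le_card
    apply filter_subset_filter
    exact Ico_subset_Ico_right (by omega)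
  have hPR : (0 : ℝ) < P := by exact_mod_cast hP
  have h1 : ((k : ℝ)) * c ≤ #{t ∈ Ico a (a + H) | pr t} := by exact_mod_cast hlow
  have h2 : (#{t ∈ Ico a (a + H) | pr t} : ℝ) ≤ (k + 1) * c := by exact_mod_cast hup
  have h3 : (k : ℝ) * P ≤ H := by exact_mod_cast hk1
  have h4 : (H : ℝ) ≤ (k + 1) * P := by exact_mod_cast hk2.le
  have h5 : (c : ℝ) ≤ P := by exact_mod_cast hcP
  have hc0 : (0 : ℝ) ≤ c := Nat.cast_nonneg _
  have h6 : (H : ℝ) * (c / P) ≤ (k + 1) * c := by
    calc (H : ℝ) * (c / P) ≤ ((k + 1) * P) * (c / P) := mul_le_mul_of_nonneg_right h4 (by positivity)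
      _ = (k + 1) * c := by field_simp
  have h7 : (k : ℝ) * c ≤ (H : ℝ) * (c / P) := by
    calc (k : ℝ) * c = (k * P) * (c / P) := by field_simp
      _ ≤ _ := mul_le_mul_of_nonneg_right h3 (by positivity)
  rw [abs_le]
  constructor <;> nlinarith

/-- primes up to `y` -/
noncomputable def Pr (y : ℕ) : Finset ℕ := Nat.primesLE y

theorem mem_Pr {y p : ℕ} : p ∈ Pr y ↔ p ≤ y ∧ p.Prime := by
  unfold Pr
  exact Nat.mem_primesLE

/-- number of residues `t` mod `p` such that `p` divides no `t + g`, `g ∈ G` -/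
def cnt (G : Finset ℕ) (p : ℕ) : ℕ := #{t ∈ range p | ∀ g ∈ G, ¬ p ∣ t + g}

/-- the sieve product -/
noncomputable def V (G : Finset ℕ) (y : ℕ) : ℝ := ∏ p ∈ Pr y, ((cnt G p : ℝ) / p)

theorem prod_Pr (y : ℕ) : (∏ p ∈ Pr y, p) ≤ 4 ^ y := by
  refine le_trans (le_of_eq ?_) (primorial_le_four_pow y)
  unfold primorial
  apply prod_congr _ (fun _ _ => rfl)
  ext p
  rw [mem_Pr, mem_filter, mem_range]
  exact ⟨fun h => ⟨by omega, h.2⟩, fun h => ⟨by omega, h.2⟩⟩

/-- sieve count in intervals -/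
theorem sieve_interval (G : Finset ℕ) (y a H : ℕ) :
    |(#{t ∈ Ico a (a + H) | ∀ p ∈ Pr y, ∀ g ∈ G, ¬ p ∣ t + g} : ℝ) - H * V G y| ≤ 4 ^ y := by
  classical
  have hprime : ∀ p ∈ Pr y, p.Prime := fun p hp => (mem_Pr.1 hp).2
  have hP0 : 0 < ∏ p ∈ Pr y, p := prod_pos fun p hp => (hprime p hp).pos
  have hper : Function.Periodic (fun t => ∀ p ∈ Pr y, ∀ g ∈ G, ¬ p ∣ t + g) (∏ p ∈ Pr y, p) := by
    intro t
    simp only [eq_iff_iff]
    apply forall_congr'
    intro p
    apply forall_congr'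
    intro hp
    apply forall_congr'
    intro g
    apply forall_congr'
    intro _
    have h1 : p ∣ ∏ p ∈ Pr y, p := dvd_prod_of_mem _ hp
    have h2 : t + (∏ p ∈ Pr y, p) + g = (t + g) + ∏ p ∈ Pr y, p := by ring
    rw [h2, Nat.dvd_add_left h1]
  have h1 := periodic_interval _ hP0 _ hper a H
  have h2 := crt_count (Pr y) hprime (fun p t => ∀ g ∈ G, ¬ p ∣ t + g) (by
    intro p _ t
    apply forall_congr'
    intro g
    apply forall_congr'
    intro _
    rw [Nat.dvd_iff_mod_eq_zero, Nat.dvd_iff_mod_eq_zero, Nat.mod_add_mod])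
  rw [h2] at h1
  have h3 : ((∏ p ∈ Pr y, #{t ∈ range p | ∀ g ∈ G, ¬ p ∣ t + g} : ℕ) : ℝ) /
      ((∏ p ∈ Pr y, p : ℕ) : ℝ) = V G y := by
    unfold V cnt
    push_cast
    rw [prod_div_distrib]
  rw [h3] at h1
  refine h1.trans ?_
  exact_mod_cast prod_Pr y

end Pool.Agent.Q43.Cyc
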