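import Pool.Agent.Q43.Cyc.RoughC
import Pool.Agent.H387R2.U3

set_option autoImplicit false

namespace Pool.Agent.Q43.Cyc

open Finset Filter

/-- primes `q ≤ z`, `q ≡ 1 mod p` -/
noncomputable def QQ (p z : ℕ) : Finset ℕ := {q ∈ Icc 1 z | q.Prime ∧ q ≡ 1 [MOD p]}

/-- counting function lower bound -/
theorem count_ap : ∃ x0 : ℕ, ∀ x : ℕ, x0 ≤ x → ∀ p : ℕ, p.Prime → (p : ℝ) ≤ Real.log x →
    (x : ℝ) / (4 * p * Real.log x) ≤ #(QQ p x) := by
  obtain ⟨x1, h1⟩ := Pool.Agent.H387R2.Uni.siegel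
  obtain ⟨x2, h2⟩ := eventually_atTop.1 (Pool.Agent.H387R2.Uni.pi1_lower (η := 1 / 2) (by norm_num))
  obtain ⟨x3, h3⟩ := eventually_atTop.1 (ev_log 2)
  refine ⟨max x1 (max x2 (max x3 1)), fun x hx p hp hpl => ?_⟩
  have hx1 : x1 ≤ x := (le_max_left _ _).trans hx
  have hx2 : x2 ≤ x := ((le_max_left _ _).trans (le_max_right _ _)).trans hx
  have hx3 : x3 ≤ x := ((le_max_left _ _).trans ((le_max_right _ _).trans (le_max_right _ _))).trans hx
  have hx4 : 1 ≤ x := ((le_max_right _ _).trans ((le_max_right _ _).trans (le_max_right _ _))).trans hx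
  have hl : 2 ≤ Real.log x := h3 x hx3
  have hl0 : 0 < Real.log x := by linarith
  have hx0 : (0 : ℝ) < x := by exact_mod_cast (by omega : 0 < x)
  have hp2 : (2 : ℝ) ≤ p := by exact_mod_cast hp.two_le
  have hp0 : (0 : ℝ) < p := by linarith
  have hpl2 : (p : ℝ) ≤ Real.log x ^ 2 := by nlinarith
  have h4 := (abs_le.1 (h1 x hx1 p hp.one_lt.le hpl2 1 hp.one_lt (Nat.coprime_one_left p))).1
  have h5 := h2 x hx2
  have h6 : H343E.piAP x p 1 = #(QQ p x) := by
    unfold H343E.piAP QQ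
    rfl
  rw [h6] at h4
  have hφ : (Nat.totient p : ℝ) = p - 1 := by
    rw [Nat.totient_prime hp, Nat.cast_sub hp.one_lt.le]; simp
  have hφ0 : (0 : ℝ) < Nat.totient p := by rw [hφ]; linarith
  have h7 : (x : ℝ) / (2 * p * Real.log x) ≤ H343E.pi1 x / (Nat.totient p : ℝ) := by
    rw [le_div_iff₀ hφ0]
    have h8 : (x : ℝ) / (2 * p * Real.log x) * (Nat.totient p : ℝ) ≤ (x : ℝ) / (2 * p * Real.log x) * p := by
      apply mul_le_mul_of_nonneg_left _ (by positivity)
      rw [hφ]; linarith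
    have h9 : (x : ℝ) / (2 * p * Real.log x) * p = (1 - 1 / 2) * (x / Real.log x) := by
      field_simp; norm_num
    linarith
  have h10 : (x : ℝ) / Real.log x ^ 6 ≤ x / (4 * p * Real.log x) := by
    apply div_le_div_of_nonneg_left hx0.le (by positivity)
    have h11 : (4 : ℝ) ≤ Real.log x ^ 2 := by nlinarith
    have h12 : (16 : ℝ) ≤ Real.log x ^ 4 := by nlinarith
    calc 4 * p * Real.log x ≤ 4 * Real.log x * Real.log x := by
          apply mul_le_mul_of_nonneg_right _ hl0.le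
          linarith
      _ = 4 * Real.log x ^ 2 := by ring
      _ ≤ Real.log x ^ 4 * Real.log x ^ 2 := by
          apply mul_le_mul_of_nonneg_right _ (by positivity)
          linarith
      _ = Real.log x ^ 6 := by ring
  have h13 : (x : ℝ) / (2 * p * Real.log x) = 2 * (x / (4 * p * Real.log x)) := by
    field_simp; norm_num
  linarith

/-- partial summation lower bound -/
theorem partial_sum (Q : Finset ℕ) (hQ : ∀ q ∈ Q, 0 < q) (T0 z : ℕ) :
    ∑ t ∈ Ico T0 z, (#{q ∈ Q | q ≤ t} : ℝ) * (1 / t - 1 / ((t + 1 : ℕ) : ℝ)) ≤ ∑ q ∈ Q, (1 : ℝ) / q := by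
  have h1 : ∀ t ∈ Ico T0 z, (#{q ∈ Q | q ≤ t} : ℝ) * (1 / t - 1 / ((t + 1 : ℕ) : ℝ)) =
      ∑ q ∈ Q, if q ≤ t then ((1 : ℝ) / t - 1 / ((t + 1 : ℕ) : ℝ)) else 0 := by
    intro t _
    rw [← sum_filter, sum_const, nsmul_eq_mul]
  rw [sum_congr rfl h1, sum_comm]
  apply sum_le_sum
  intro q hq
  have hq0 := hQ q hq
  rw [← sum_filter]
  have hsub : {t ∈ Ico T0 z | q ≤ t} ⊆ Ico q (max q z) := by
    intro t ht
    rw [mem_filter, mem_Ico] at ht
    rw [mem_Ico]
    exact ⟨ht.2, lt_of_lt_of_le ht.1.2 (le_max_right _ _)⟩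
  calc ∑ t ∈ Ico T0 z with q ≤ t, ((1 : ℝ) / t - 1 / ((t + 1 : ℕ) : ℝ))
      ≤ ∑ t ∈ Ico q (max q z), ((1 : ℝ) / t - 1 / ((t + 1 : ℕ) : ℝ)) := by
        apply sum_le_sum_of_subset_of_nonneg hsub
        intro t ht _
        have ht0 : 0 < t := by
          have := (mem_Ico.1 ht).1
          omega
        have h2 : (0 : ℝ) < t := by exact_mod_cast ht0
        rw [sub_nonneg]
        apply one_div_le_one_div_of_le h2
        push_cast; linarith
    _ = (1 : ℝ) / q - 1 / ((max q z : ℕ) : ℝ) := by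
        have h3 := sum_Ico_sub (fun t : ℕ => -((1 : ℝ) / t)) (le_max_left q z)
        have h4 : ∀ t ∈ Ico q (max q z), ((1 : ℝ) / t - 1 / ((t + 1 : ℕ) : ℝ)) =
            -((1 : ℝ) / ((t + 1 : ℕ) : ℝ)) - -((1 : ℝ) / t) := by
          intro t _; ring
        rw [sum_congr rfl h4, h3]; ring
    _ ≤ 1 / q := by
        have : (0 : ℝ) ≤ 1 / ((max q z : ℕ) : ℝ) := by positivity
        linarith

theorem loglog_step {t : ℕ} (ht : 2 ≤ t) :
    Real.log (Real.log ((t + 1 : ℕ) : ℝ)) - Real.log (Real.log t) ≤ 1 / (t * Real.log t) := by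
  have ht0 : (0 : ℝ) < t := by exact_mod_cast (by omega : 0 < t)
  have hl : 0 < Real.log t := Real.log_pos (by exact_mod_cast (by omega : 1 < t))
  have hl2 : 0 < Real.log ((t + 1 : ℕ) : ℝ) := Real.log_pos (by exact_mod_cast (by omega : 1 < t + 1))
  have h1 : Real.log ((t + 1 : ℕ) : ℝ) ≤ Real.log t + 1 / t := by
    have h2 := Real.log_le_sub_one_of_pos (show (0 : ℝ) < ((t + 1 : ℕ) : ℝ) / t by positivity)
    rw [Real.log_div (by positivity) ht0.ne'] at h2
    have h3 : ((t + 1 : ℕ) : ℝ) / t - 1 = 1 / t := by push_cast; field_simp; ring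
    rw [h3] at h2
    linarith
  have h4 := Real.log_le_sub_one_of_pos (show (0 : ℝ) < Real.log ((t + 1 : ℕ) : ℝ) / Real.log t by positivity)
  rw [Real.log_div hl2.ne' hl.ne'] at h4
  refine h4.trans ?_
  rw [div_sub_one hl.ne', div_le_div_iff₀ hl (by positivity)]
  have h5 : (Real.log ((t + 1 : ℕ) : ℝ) - Real.log t) * (t * Real.log t) ≤ (1 / t) * (t * Real.log t) :=
    mul_le_mul_of_nonneg_right (by linarith) (by positivity)
  have h6 : (1 / (t : ℝ)) * (t * Real.log t) = 1 * Real.log t := by field_simp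
  linarith

/-- lower bound for the sum of reciprocals -/
theorem M_lower : ∀ᶠ n : ℕ in atTop, ∀ p : ℕ, p.Prime → (p : ℝ) ≤ Real.log (Real.log n) →
    (1 / 16) * (Real.log (Real.log n) / p) ≤ ∑ q ∈ QQ p (Nat.sqrt (Nat.sqrt n)), (1 : ℝ) / q := by
  obtain ⟨x0, hx0⟩ := count_ap
  have hll2 : ∀ᶠ n : ℕ in atTop, Real.log 16 + Real.log (2 * Real.log (Real.log n)) ≤
      Real.log (Real.log n) / 2 := by
    have ht : Tendsto (fun n : ℕ => Real.log (Real.log (n : ℝ))) atTop atTop :=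
      Real.tendsto_log_atTop.comp (Real.tendsto_log_atTop.comp tendsto_natCast_atTop_atTop)
    have h1 : ∀ᶠ u : ℝ in atTop, Real.log 16 + Real.log (2 * u) ≤ u / 2 := by
      have h2 := Real.isLittleO_log_id_atTop.bound (show (0 : ℝ) < 1 / 4 by norm_num)
      filter_upwards [h2, eventually_ge_atTop (4 * (Real.log 16 + Real.log 2)), eventually_ge_atTop 1]
        with u hu1 hu2 hu3
      rw [Real.norm_eq_abs, abs_of_nonneg (Real.log_nonneg hu3), id, Real.norm_eq_abs,
        abs_of_nonneg (by linarith)] at hu1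
      rw [Real.log_mul (by norm_num) (by linarith)]
      linarith
    exact ht.eventually h1
  filter_upwards [hll2, ev_loglog 1, ev_log (x0 + 4), ev_logpow 4 (2 ^ 4) (by norm_num),
    eventually_ge_atTop (2 ^ 16)] with n hn1 hn2 hn3 hn4 hn5 p hp hpL
  set L := Real.log (Real.log (n : ℝ)) with hL
  have hln : (4 : ℝ) ≤ Real.log n := by
    have : (0 : ℝ) ≤ x0 := Nat.cast_nonneg _
    linarith
  have hn0 : (0 : ℝ) < n := by exact_mod_cast (by omega : 0 < n)
  set z := Nat.sqrt (Nat.sqrt n) with hz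
  set T0 := ⌈Real.log (n : ℝ)⌉₊ with hT0
  have hT0ge : Real.log (n : ℝ) ≤ T0 := Nat.le_ceil _
  have hT0le : (T0 : ℝ) ≤ 2 * Real.log n := by
    have := Nat.ceil_lt_add_one (show 0 ≤ Real.log (n : ℝ) by linarith)
    linarith
  have hT04 : 4 ≤ T0 := by
    have : (4 : ℝ) ≤ T0 := by linarith
    exact_mod_cast this
  -- size of z
  have hzlow : (n : ℝ) ≤ ((z + 1 : ℕ) : ℝ) ^ 4 := by
    have h1 : n < (Nat.sqrt n + 1) ^ 2 := Nat.lt_succ_sqrt' n
    have h2 : Nat.sqrt n < (z + 1) ^ 2 := Nat.lt_succ_sqrt' _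
    have h3 : n ≤ (z + 1) ^ 4 := by
      calc n ≤ (Nat.sqrt n + 1) ^ 2 := h1.le
        _ ≤ ((z + 1) ^ 2) ^ 2 := Nat.pow_le_pow_left h2 2
        _ = (z + 1) ^ 4 := by ring
    exact_mod_cast h3
  have hz15 : 15 ≤ z := by
    rw [hz, Nat.le_sqrt', Nat.le_sqrt']
    norm_num
    norm_num at hn5
    omega
  have hz0 : (0 : ℝ) < z := by exact_mod_cast (by omega : 0 < z)
  have hzlog : Real.log n / 8 ≤ Real.log z := by
    have h1 := Real.log_le_log hn0 hzlow
    rw [Real.log_pow] at h1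
    have h2 : Real.log ((z + 1 : ℕ) : ℝ) ≤ 2 * Real.log z := by
      have h3 : ((z + 1 : ℕ) : ℝ) ≤ (z : ℝ) ^ 2 := by
        have : z + 1 ≤ z ^ 2 := by nlinarith
        exact_mod_cast this
      have h4 := Real.log_le_log (by positivity) h3
      rw [Real.log_pow] at h4
      exact_mod_cast h4
    push_cast at h1 h2
    linarith
  have hT0z : T0 ≤ z := by
    have h1 : (T0 : ℝ) ^ 4 ≤ (z : ℝ) ^ 4 := by
      have h2 : (T0 : ℝ) ^ 4 ≤ Real.sqrt n := by
        calc (T0 : ℝ) ^ 4 ≤ (2 * Real.log n) ^ 4 := pow_le_pow_left₀ (by positivity) hT0le 4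
          _ = 2 ^ 4 * (Real.log n) ^ 4 := by ring
          _ ≤ Real.sqrt n := hn4
      have h3 : Real.sqrt n ≤ ((z + 1 : ℕ) : ℝ) ^ 2 := by
        rw [Real.sqrt_le_left (by positivity)]
        calc (n : ℝ) ≤ ((z + 1 : ℕ) : ℝ) ^ 4 := hzlow
          _ = _ := by ring
      have h4 : ((z + 1 : ℕ) : ℝ) ^ 2 ≤ (z : ℝ) ^ 4 := by
        have : (z + 1) ^ 2 ≤ z ^ 4 := by
          calc (z + 1) ^ 2 ≤ (z ^ 2) ^ 2 := Nat.pow_le_pow_left (by nlinarith) 2
            _ = z ^ 4 := by ring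
        exact_mod_cast this
      linarith
    have h5 := le_of_pow_le_pow_left₀ (by norm_num) hz0.le h1
    exact_mod_cast h5
  have hlogT0 : Real.log T0 ≤ 2 * L := by
    have h1 := Real.log_le_log (by positivity) hT0le
    rw [Real.log_mul (by norm_num) (by linarith)] at h1
    have h2 : Real.log 2 ≤ 1 := by have := Real.log_two_lt_d9; linarith
    linarith
  have hlogT00 : 0 < Real.log T0 := Real.log_pos (by exact_mod_cast (by omega : 1 < T0))
  have hLT0 : ∀ t : ℕ, T0 ≤ t → L ≤ Real.log t := by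
    intro t ht
    apply Real.log_le_log (by linarith)
    have : (T0 : ℝ) ≤ t := by exact_mod_cast ht
    linarith
  have hp0 : (0 : ℝ) < p := by exact_mod_cast hp.pos
  -- main chain
  have hQpos : ∀ q ∈ QQ p z, 0 < q := by
    intro q hq
    unfold QQ at hq
    rw [mem_filter, mem_Icc] at hq
    omega
  refine le_trans ?_ (partial_sum (QQ p z) hQpos T0 z)
  have hterm : ∀ t ∈ Ico T0 z, (1 / (8 * p)) * (Real.log (Real.log ((t + 1 : ℕ) : ℝ)) -
      Real.log (Real.log t)) ≤ (#{q ∈ QQ p z | q ≤ t} : ℝ) * (1 / t - 1 / ((t + 1 : ℕ) : ℝ)) := by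
    intro t ht
    rw [mem_Ico] at ht
    have ht0 : (0 : ℝ) < t := by exact_mod_cast (by omega : 0 < t)
    have ht1 : (1 : ℝ) ≤ t := by exact_mod_cast (by omega : 1 ≤ t)
    have hx0t : x0 ≤ t := by
      have h1 : (x0 : ℝ) ≤ t := by
        have : (T0 : ℝ) ≤ t := by exact_mod_cast ht.1
        linarith
      exact_mod_cast h1
    have hlt : 0 < Real.log t := Real.log_pos (by exact_mod_cast (by omega : 1 < t))
    have h1 := hx0 t hx0t p hp (hpL.trans (hLT0 t ht.1))
    have h2 : QQ p t ⊆ {q ∈ QQ p z | q ≤ t} := by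
      intro q hq
      unfold QQ at hq ⊢
      rw [mem_filter, mem_Icc] at hq
      rw [mem_filter, mem_filter, mem_Icc]
      exact ⟨⟨⟨hq.1.1, by omega⟩, hq.2⟩, hq.1.2⟩
    have h3 : (t : ℝ) / (4 * p * Real.log t) ≤ #{q ∈ QQ p z | q ≤ t} :=
      h1.trans (by exact_mod_cast card_le_card h2)
    have h4 : (0 : ℝ) ≤ 1 / t - 1 / ((t + 1 : ℕ) : ℝ) := by
      rw [sub_nonneg]
      apply one_div_le_one_div_of_le ht0
      push_cast; linarith
    have h5 := loglog_step (t := t) (by omega)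
    calc (1 / (8 * p)) * (Real.log (Real.log ((t + 1 : ℕ) : ℝ)) - Real.log (Real.log t))
        ≤ (1 / (8 * (p : ℝ))) * (1 / (t * Real.log t)) := mul_le_mul_of_nonneg_left h5 (by positivity)
      _ = (t : ℝ) / (4 * p * Real.log t) * (1 / (2 * t * t)) := by field_simp; norm_num
      _ ≤ (t : ℝ) / (4 * p * Real.log t) * (1 / t - 1 / ((t + 1 : ℕ) : ℝ)) := by
          apply mul_le_mul_of_nonneg_left _ (by positivity)
          have h6 : (1 : ℝ) / t - 1 / ((t + 1 : ℕ) : ℝ) = 1 / (t * (t + 1)) := by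
            push_cast; field_simp; ring
          rw [h6]
          apply one_div_le_one_div_of_le (by positivity)
          nlinarith
      _ ≤ _ := mul_le_mul_of_nonneg_right h3 h4
  refine le_trans ?_ (sum_le_sum hterm)
  rw [← mul_sum, sum_Ico_sub (fun t : ℕ => Real.log (Real.log (t : ℝ))) hT0z]
  have h1 : L - Real.log 8 ≤ Real.log (Real.log z) := by
    have h2 := Real.log_le_log (by linarith) hzlog
    rw [Real.log_div (by linarith) (by norm_num)] at h2
    exact h2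
  have h2 : Real.log (Real.log T0) ≤ Real.log (2 * L) := Real.log_le_log hlogT00 hlogT0
  have h3 : Real.log 8 ≤ Real.log 16 := Real.log_le_log (by norm_num) (by norm_num)
  have h4 : L / 2 ≤ Real.log (Real.log z) - Real.log (Real.log T0) := by linarith
  calc (1 / 16) * (L / p) = (1 / (8 * p)) * (L / 2) := by field_simp; norm_num
    _ ≤ _ := mul_le_mul_of_nonneg_left h4 (by positivity)

end Pool.Agent.Q43.Cyc
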