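import Pool.Agent.Q43.Cyc.Base
import Pool.Agent.Erdos456.Mertens

set_option autoImplicit false

namespace Pool.Agent.Q43.Cyc

open Finset

theorem one_sub_sum_le (S : Finset ℕ) (a : ℕ → ℝ) (h0 : ∀ i ∈ S, 0 ≤ a i) (h1 : ∀ i ∈ S, a i ≤ 1) :
    1 - ∑ i ∈ S, a i ≤ ∏ i ∈ S, (1 - a i) := by
  induction S using Finset.induction_on with
  | empty => simp
  | insert j S hj ih =>
    have ih' := ih (fun i hi => h0 i (mem_insert_of_mem hi)) (fun i hi => h1 i (mem_insert_of_mem hi))
    rw [sum_insert hj, prod_insert hj]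
    have a0 := h0 j (mem_insert_self _ _)
    have a1 := h1 j (mem_insert_self _ _)
    have hs : 0 ≤ ∑ i ∈ S, a i := sum_nonneg fun i hi => h0 i (mem_insert_of_mem hi)
    have := mul_le_mul_of_nonneg_left ih' (by linarith : 0 ≤ 1 - a j)
    nlinarith

theorem cnt_add_bad (G : Finset ℕ) (p : ℕ) :
    cnt G p + #{t ∈ range p | ∃ g ∈ G, p ∣ t + g} = p := by
  classical
  unfold cnt
  have h := card_filter_add_card_filter_not (s := range p) (fun t => ∀ g ∈ G, ¬ p ∣ t + g)
  rw [card_range] at h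
  convert h using 3
  apply filter_congr
  intro t _
  push Not
  rfl

theorem cnt_ge (G : Finset ℕ) {p : ℕ} (_hp : 0 < p) : p ≤ cnt G p + #G := by
  classical
  have h := cnt_add_bad G p
  have h2 : #{t ∈ range p | ∃ g ∈ G, p ∣ t + g} ≤ #G := by
    calc #{t ∈ range p | ∃ g ∈ G, p ∣ t + g} ≤
        #(G.biUnion (fun g => {t ∈ range p | p ∣ t + g})) := by
          apply card_le_card
          intro t ht
          rw [mem_filter] at ht
          obtain ⟨ht1, g, hg, hd⟩ := ht
          exact mem_biUnion.2 ⟨g, hg, mem_filter.2 ⟨ht1, hd⟩⟩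
      _ ≤ ∑ g ∈ G, #{t ∈ range p | p ∣ t + g} := card_biUnion_le
      _ ≤ ∑ g ∈ G, 1 := by
          apply sum_le_sum
          intro g _
          rw [card_le_one]
          intro t ht u hu
          rw [mem_filter, mem_range] at ht hu
          have e : t ≡ u [MOD p] := by
            have h1 : (t + g) ≡ (u + g) [MOD p] :=
              ((Nat.modEq_zero_iff_dvd.2 ht.2).trans (Nat.modEq_zero_iff_dvd.2 hu.2).symm)
            exact Nat.ModEq.add_right_cancel' g h1
          rw [Nat.ModEq, Nat.mod_eq_of_lt ht.1, Nat.mod_eq_of_lt hu.1] at e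
          exact e
      _ = #G := by simp
  omega

theorem cnt_le_of {G : Finset ℕ} {p : ℕ} (hG : ∀ g ∈ G, g < p) : cnt G p + #G ≤ p := by
  classical
  have h := cnt_add_bad G p
  have h2 : #G ≤ #{t ∈ range p | ∃ g ∈ G, p ∣ t + g} := by
    apply card_le_card_of_injOn (fun g => (p - g) % p)
    · intro g hg
      have hgp := hG g hg
      rw [mem_coe, mem_filter, mem_range]
      refine ⟨Nat.mod_lt _ (by omega), g, hg, ?_⟩
      rw [Nat.dvd_iff_mod_eq_zero, Nat.mod_add_mod, Nat.sub_add_cancel hgp.le, Nat.mod_self]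
    · intro g hg g' hg' hgg
      have h1 := hG g hg
      have h2 := hG g' hg'
      simp only at hgg
      rcases Nat.eq_zero_or_pos g with h0 | h0
      · rcases Nat.eq_zero_or_pos g' with h0' | h0'
        · omega
        · exfalso
          subst h0
          rw [Nat.sub_zero, Nat.mod_self, Nat.mod_eq_of_lt (by omega)] at hgg
          omega
      · rcases Nat.eq_zero_or_pos g' with h0' | h0'
        · exfalso
          subst h0'
          rw [Nat.sub_zero, Nat.mod_self, Nat.mod_eq_of_lt (by omega)] at hgg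
          omega
        · rw [Nat.mod_eq_of_lt (by omega), Nat.mod_eq_of_lt (by omega)] at hgg
          omega
  omega

theorem V_nonneg (G : Finset ℕ) (y : ℕ) : 0 ≤ V G y := by
  unfold V
  apply prod_nonneg
  intro p _
  positivity

theorem frac_le_one (G : Finset ℕ) (p : ℕ) : (cnt G p : ℝ) / p ≤ 1 := by
  rcases Nat.eq_zero_or_pos p with rfl | hp
  · simp
  · rw [div_le_one (by exact_mod_cast hp)]
    have := cnt_add_bad G p
    exact_mod_cast (by omega : cnt G p ≤ p)

theorem V_le_one (G : Finset ℕ) (y : ℕ) : V G y ≤ 1 := by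
  unfold V
  apply prod_le_one
  · intro p _; positivity
  · intro p _; exact frac_le_one G p

theorem Pr_mono {y y' : ℕ} (h : y ≤ y') : Pr y ⊆ Pr y' := fun p hp => by
  rw [mem_Pr] at *
  exact ⟨hp.1.trans h, hp.2⟩

theorem V_anti (G : Finset ℕ) {y y' : ℕ} (h : y ≤ y') : V G y' ≤ V G y := by
  unfold V
  apply prod_le_prod_of_subset_of_le_one (Pr_mono h)
  · intro p _; positivity
  · intro p _ _; exact frac_le_one G p

theorem V_ratio (G : Finset ℕ) (hG : #G ≤ 2) {y y' : ℕ} (h : y ≤ y') (hy : 2 ≤ y) :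
    V G y * (1 - 2 * ∑ p ∈ Pr y' \ Pr y, (1 : ℝ) / p) ≤ V G y' := by
  classical
  have h1 : V G y' = V G y * ∏ p ∈ Pr y' \ Pr y, ((cnt G p : ℝ) / p) := by
    unfold V
    rw [mul_comm, prod_sdiff (Pr_mono h)]
  rw [h1]
  apply mul_le_mul_of_nonneg_left _ (V_nonneg G y)
  have hp2 : ∀ p ∈ Pr y' \ Pr y, 2 < p := by
    intro p hp
    rw [mem_sdiff, mem_Pr, mem_Pr] at hp
    by_contra hlt
    exact hp.2 ⟨by omega, hp.1.2⟩
  calc 1 - 2 * ∑ p ∈ Pr y' \ Pr y, (1 : ℝ) / p = 1 - ∑ p ∈ Pr y' \ Pr y, (2 : ℝ) / p := by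
        rw [mul_sum]; congr 1; apply sum_congr rfl; intro p _; ring
    _ ≤ ∏ p ∈ Pr y' \ Pr y, (1 - (2 : ℝ) / p) := by
        apply one_sub_sum_le
        · intro p _; positivity
        · intro p hp
          have := hp2 p hp
          rw [div_le_one (by exact_mod_cast (by omega : 0 < p))]
          exact_mod_cast this.le
    _ ≤ ∏ p ∈ Pr y' \ Pr y, ((cnt G p : ℝ) / p) := by
        apply prod_le_prod
        · intro p hp
          have := hp2 p hp
          rw [sub_nonneg, div_le_one (by exact_mod_cast (by omega : 0 < p))]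
          exact_mod_cast this.le
        · intro p hp
          have hp0 : 0 < p := by have := hp2 p hp; omega
          have hp0' : (0 : ℝ) < p := by exact_mod_cast hp0
          have h2 := cnt_ge G hp0
          have h3 : (p : ℝ) ≤ cnt G p + 2 := by exact_mod_cast h2.trans (by omega)
          rw [le_div_iff₀ hp0', sub_mul, div_mul_cancel₀ _ hp0'.ne']
          linarith

/-- short sums of reciprocals of primes -/
theorem short_sum : ∃ C : ℝ, 0 ≤ C ∧ ∀ y y' : ℕ, 2 ≤ y → y ≤ y' →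
    ∑ p ∈ Pr y' \ Pr y, (1 : ℝ) / p ≤ (Real.log y' - Real.log y + C) / Real.log y := by
  obtain ⟨C, hC⟩ := Pool.Agent.Erdos456.Mert.mertens_log
  refine ⟨2 * C, ?_, fun y y' hy hyy => ?_⟩
  · have := (abs_nonneg _).trans (hC 1 le_rfl); linarith
  have hly : 0 < Real.log y := Real.log_pos (by exact_mod_cast (by omega : 1 < y))
  rw [le_div_iff₀ hly, sum_mul]
  have h1 : ∑ p ∈ Pr y' \ Pr y, (1 : ℝ) / p * Real.log y ≤ ∑ p ∈ Pr y' \ Pr y, Real.log p / p := by
    apply sum_le_sum
    intro p hp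
    rw [mem_sdiff, mem_Pr, mem_Pr] at hp
    have hpy : y < p := by
      by_contra hlt
      exact hp.2 ⟨by omega, hp.1.2⟩
    have hp0 : (0 : ℝ) < p := by exact_mod_cast hp.1.2.pos
    rw [div_mul_eq_mul_div, one_mul]
    apply div_le_div_of_nonneg_right _ hp0.le
    apply Real.log_le_log (by exact_mod_cast (by omega : 0 < y))
    exact_mod_cast hpy.le
  have hPr : ∀ N : ℕ, (Icc 1 N).filter Nat.Prime = Pr N := by
    intro N
    ext p
    rw [mem_filter, mem_Icc, mem_Pr]
    exact ⟨fun h => ⟨h.1.2, h.2⟩, fun h => ⟨⟨h.2.one_lt.le, h.1⟩, h.2⟩⟩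
  have h2 := abs_le.1 (hC y (by omega))
  have h3 := abs_le.1 (hC y' (by omega))
  rw [hPr] at h2 h3
  have h4 := sum_sdiff (f := fun p : ℕ => Real.log p / p) (Pr_mono hyy)
  refine h1.trans ?_
  linarith [h2.1, h3.2]

theorem one_sub_ge {u : ℝ} (h1 : u ≤ 1 / 2) : Real.exp (-(u + 2 * u ^ 2)) ≤ 1 - u := by
  rw [Real.exp_neg]
  apply inv_le_of_inv_le₀ (by linarith)
  refine le_trans ?_ (Real.add_one_le_exp _)
  rw [inv_le_iff_one_le_mul₀ (by linarith)]
  nlinarith [sq_nonneg u, mul_nonneg (sq_nonneg u) (by linarith : 0 ≤ 1 - 2 * u)]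

/-- lower bound for the two-point sieve product -/
theorem V_lower (G : Finset ℕ) (hG : #G ≤ 2) (hG2 : ∀ g ∈ G, 2 ∣ g) : ∃ c : ℝ, 0 < c ∧ ∀ y : ℕ, 3 ≤ y →
    c / (Real.log y) ^ 2 ≤ V G y := by
  classical
  obtain ⟨C, hC⟩ := Pool.Agent.Erdos456.Mert.mertens_inv
  refine ⟨(1 / 6) * Real.exp (-(2 * C + 16)), by positivity, fun y hy => ?_⟩
  have hly : 0 < Real.log y := Real.log_pos (by exact_mod_cast (by omega : 1 < y))
  set A := (Pr y).filter (fun p => 5 ≤ p) with hA
  have h23 : Pr y \ A = {2, 3} := by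
    ext p
    rw [mem_sdiff, hA, mem_filter, mem_Pr, mem_insert, mem_singleton]
    constructor
    · rintro ⟨h1, h2⟩
      have h3 : p < 5 := by
        by_contra h
        exact h2 ⟨h1, by omega⟩
      have h4 := h1.2.two_le
      have h5 : p ≠ 4 := by
        rintro rfl
        exact absurd h1.2 (by norm_num)
      omega
    · rintro (rfl | rfl)
      · exact ⟨⟨by omega, Nat.prime_two⟩, fun h => by omega⟩
      · exact ⟨⟨by omega, Nat.prime_three⟩, fun h => by omega⟩
  have hVs : V G y = (((cnt G 2 : ℝ) / (2 : ℕ)) * ((cnt G 3 : ℝ) / (3 : ℕ))) *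
      ∏ p ∈ A, ((cnt G p : ℝ) / p) := by
    unfold V
    rw [← prod_sdiff (filter_subset (fun p => 5 ≤ p) (Pr y)), h23, prod_pair (by norm_num)]
  have hc2 : 1 ≤ cnt G 2 := by
    unfold cnt
    rw [Nat.one_le_iff_ne_zero, ← Nat.pos_iff_ne_zero, card_pos]
    refine ⟨1, ?_⟩
    rw [mem_filter, mem_range]
    refine ⟨by norm_num, fun g hg h => ?_⟩
    have := hG2 g hg
    omega
  have hc3 : 1 ≤ cnt G 3 := by
    have := cnt_ge G (p := 3) (by norm_num)
    omega
  have h1 : (1 : ℝ) / 6 ≤ ((cnt G 2 : ℝ) / (2 : ℕ)) * ((cnt G 3 : ℝ) / (3 : ℕ)) := by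
    have a1 : (1 : ℝ) ≤ cnt G 2 := by exact_mod_cast hc2
    have a2 : (1 : ℝ) ≤ cnt G 3 := by exact_mod_cast hc3
    push_cast
    have : (1 : ℝ) ≤ cnt G 2 * cnt G 3 := by nlinarith
    calc (1 : ℝ) / 6 ≤ (cnt G 2 * cnt G 3) / 6 := by linarith
      _ = _ := by ring
  have hApos : ∀ p ∈ A, 5 ≤ p ∧ p.Prime ∧ p ≤ y := by
    intro p hp
    rw [hA, mem_filter, mem_Pr] at hp
    exact ⟨hp.2, hp.1.2, hp.1.1⟩
  have h2 : Real.exp (-(2 * ∑ p ∈ A, (1 : ℝ) / p + 8 * ∑ p ∈ A, ((p : ℝ) ^ 2)⁻¹)) ≤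
      ∏ p ∈ A, ((cnt G p : ℝ) / p) := by
    have e : -(2 * ∑ p ∈ A, (1 : ℝ) / p + 8 * ∑ p ∈ A, ((p : ℝ) ^ 2)⁻¹) =
        ∑ p ∈ A, -((2 : ℝ) / p + 2 * ((2 : ℝ) / p) ^ 2) := by
      rw [mul_sum, mul_sum, ← sum_add_distrib, ← sum_neg_distrib]
      apply sum_congr rfl
      intro p _
      ring
    rw [e, Real.exp_sum]
    apply prod_le_prod
    · intro p _; positivity
    · intro p hp
      have h5 := (hApos p hp).1
      have hp0 : (0 : ℝ) < p := by exact_mod_cast (by omega : 0 < p)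
      have hp5 : (5 : ℝ) ≤ p := by exact_mod_cast h5
      have hu : (2 : ℝ) / p ≤ 1 / 2 := by
        rw [div_le_div_iff₀ hp0 (by norm_num)]; linarith
      refine (one_sub_ge hu).trans ?_
      have h6 := cnt_ge G (p := p) (by omega)
      have h7 : (p : ℝ) ≤ cnt G p + 2 := by exact_mod_cast h6.trans (by omega)
      rw [le_div_iff₀ hp0, sub_mul, div_mul_cancel₀ _ hp0.ne']
      linarith
  have h3 : ∑ p ∈ A, (1 : ℝ) / p ≤ Real.log (Real.log y) + C := by
    have := (abs_le.1 (hC y hy)).2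
    calc ∑ p ∈ A, (1 : ℝ) / p ≤ ∑ p ∈ (Icc 1 y).filter Nat.Prime, (1 : ℝ) / p := by
          apply sum_le_sum_of_subset_of_nonneg
          · intro p hp
            have := hApos p hp
            rw [mem_filter, mem_Icc]
            exact ⟨⟨by omega, this.2.2⟩, this.2.1⟩
          · intro p _ _; positivity
      _ ≤ _ := by linarith
  have h4 : ∑ p ∈ A, ((p : ℝ) ^ 2)⁻¹ ≤ 1 := by
    calc ∑ p ∈ A, ((p : ℝ) ^ 2)⁻¹ ≤ ∑ p ∈ Ioc 1 y, ((p : ℝ) ^ 2)⁻¹ := by
          apply sum_le_sum_of_subset_of_nonneg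
          · intro p hp
            have := hApos p hp
            exact mem_Ioc.2 ⟨by omega, this.2.2⟩
          · intro p _ _; positivity
      _ ≤ ((1 : ℕ) : ℝ)⁻¹ - (y : ℝ)⁻¹ := sum_Ioc_inv_sq_le_sub (by norm_num) (by omega)
      _ ≤ 1 := by
          have : 0 ≤ (y : ℝ)⁻¹ := by positivity
          push_cast; linarith
  have h5 : Real.exp (-(2 * C + 16)) / (Real.log y) ^ 2 ≤
      Real.exp (-(2 * ∑ p ∈ A, (1 : ℝ) / p + 8 * ∑ p ∈ A, ((p : ℝ) ^ 2)⁻¹)) := by
    have e : Real.exp (-(2 * C + 16)) / (Real.log y) ^ 2 =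
        Real.exp (-(2 * (Real.log (Real.log y) + C) + 16)) := by
      have e1 : (Real.log y) ^ 2 = Real.exp (2 * Real.log (Real.log y)) := by
        rw [two_mul, Real.exp_add, Real.exp_log hly, sq]
      rw [e1, ← Real.exp_sub]
      congr 1; ring
    rw [e]
    apply Real.exp_le_exp.2
    linarith
  rw [hVs]
  calc 1 / 6 * Real.exp (-(2 * C + 16)) / Real.log y ^ 2 =
      (1 / 6) * (Real.exp (-(2 * C + 16)) / (Real.log y) ^ 2) := by ring
    _ ≤ _ := mul_le_mul h1 (h5.trans h2) (by positivity) (by positivity)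

/-- upper bound for the three-point sieve product -/
theorem V_upper (G : Finset ℕ) (hG : #G = 3) (hG7 : ∀ g ∈ G, g < 7) : ∃ C : ℝ, 0 < C ∧ ∀ y : ℕ, 3 ≤ y →
    V G y ≤ C / (Real.log y) ^ 3 := by
  classical
  obtain ⟨C, hC⟩ := Pool.Agent.Erdos456.Mert.mertens_inv
  refine ⟨Real.exp (3 * C + 6), by positivity, fun y hy => ?_⟩
  have hly : 0 < Real.log y := Real.log_pos (by exact_mod_cast (by omega : 1 < y))
  set A := (Pr y).filter (fun p => 7 ≤ p) with hA
  have hV : V G y ≤ ∏ p ∈ A, ((cnt G p : ℝ) / p) := by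
    unfold V
    apply prod_le_prod_of_subset_of_le_one (filter_subset _ _)
    · intro p _; positivity
    · intro p _ _; exact frac_le_one G p
  have hApos : ∀ p ∈ A, 7 ≤ p ∧ p.Prime ∧ p ≤ y := by
    intro p hp
    rw [hA, mem_filter, mem_Pr] at hp
    exact ⟨hp.2, hp.1.2, hp.1.1⟩
  have h2 : ∏ p ∈ A, ((cnt G p : ℝ) / p) ≤ Real.exp (-(3 * ∑ p ∈ A, (1 : ℝ) / p)) := by
    rw [mul_sum, ← sum_neg_distrib, Real.exp_sum]
    apply prod_le_prod
    · intro p _; positivity
    · intro p hp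
      have h7 := (hApos p hp).1
      have hp0 : (0 : ℝ) < p := by exact_mod_cast (by omega : 0 < p)
      have h8 : cnt G p + 3 ≤ p := by
        have := cnt_le_of (G := G) (p := p) (fun g hg => by have := hG7 g hg; omega)
        omega
      have h9 : (cnt G p : ℝ) + 3 ≤ p := by exact_mod_cast h8
      have h10 := Real.add_one_le_exp (-(3 * ((1 : ℝ) / p)))
      refine le_trans ?_ h10
      rw [div_le_iff₀ hp0]
      have : (-(3 * (1 / (p : ℝ))) + 1) * p = p - 3 := by field_simp; ring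
      rw [this]; linarith
  have h3 : Real.log (Real.log y) - C - 2 ≤ ∑ p ∈ A, (1 : ℝ) / p := by
    have h4 := (abs_le.1 (hC y hy)).1
    have h5 : ∑ p ∈ (Icc 1 y).filter Nat.Prime, (1 : ℝ) / p ≤ ∑ p ∈ A, (1 : ℝ) / p +
        ∑ p ∈ ({2, 3, 5} : Finset ℕ), (1 : ℝ) / p := by
      rw [← sum_union]
      · apply sum_le_sum_of_subset_of_nonneg
        · intro p hp
          rw [mem_filter, mem_Icc] at hp
          rw [mem_union]
          by_cases h : 7 ≤ p
          · left
            rw [hA, mem_filter, mem_Pr]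
            exact ⟨⟨hp.1.2, hp.2⟩, h⟩
          · right
            have h6 := hp.2.two_le
            have h7 : p ≠ 4 := by
              rintro rfl
              exact absurd hp.2 (by norm_num)
            have h8 : p ≠ 6 := by
              rintro rfl
              exact absurd hp.2 (by norm_num)
            simp only [mem_insert, mem_singleton]
            omega
        · intro p _ _; positivity
      · rw [disjoint_left]
        intro p hp hp'
        have := (hApos p hp).1
        simp only [mem_insert, mem_singleton] at hp'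
        omega
    have h6 : ∑ p ∈ ({2, 3, 5} : Finset ℕ), (1 : ℝ) / p ≤ 2 := by
      rw [sum_insert (by simp), sum_insert (by simp), sum_singleton]
      norm_num
    linarith
  refine hV.trans (h2.trans ?_)
  have e : Real.exp (3 * C + 6) / (Real.log y) ^ 3 =
      Real.exp (-(3 * (Real.log (Real.log y) - C - 2))) := by
    have e1 : (Real.log y) ^ 3 = Real.exp (3 * Real.log (Real.log y)) := by
      rw [show (3 : ℝ) * Real.log (Real.log y) = Real.log (Real.log y) + Real.log (Real.log y) +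
        Real.log (Real.log y) by ring, Real.exp_add, Real.exp_add, Real.exp_log hly]
      ring
    rw [e1, ← Real.exp_sub]
    congr 1; ring
  rw [e]
  apply Real.exp_le_exp.2
  linarith

end Pool.Agent.Q43.Cyc
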