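import Pool.Agent.Q43.Cyc.Rare
import Pool.Agent.Q43.Cyc.Prod

set_option autoImplicit false

namespace Pool.Agent.Q43.Cyc

open Finset Filter Topology

open Classical in
/-- the set of `m` such that `(m, m + g)` is a pair of consecutive cyclic numbers between the cubes -/
noncomputable def Tset' (g n : ℕ) : Finset ℕ :=
  {m ∈ II n | m + g ∈ II n ∧ IsCyc m ∧ IsCyc (m + g) ∧ ∀ k, m < k → k < m + g → ¬ IsCyc k}

/-- sieved set -/
noncomputable def Sv (G : Finset ℕ) (y n : ℕ) : Finset ℕ :=
  {t ∈ II n | ∀ p ∈ Pr y, ∀ g ∈ G, ¬ p ∣ t + g}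

theorem Sv_count (G : Finset ℕ) (y n : ℕ) : |(#(Sv G y n) : ℝ) - HH n * V G y| ≤ 4 ^ y := by
  unfold Sv II
  exact sieve_interval G y (n ^ 3 + 1) (HH n)

theorem T_upper (g y n : ℕ) :
    #(Tset' g n) ≤ #(Sv {0, g} y n) + 2 * #(RareSet n y) := by
  classical
  have hsub : Tset' g n ⊆ Sv {0, g} y n ∪ (RareSet n y ∪ {m ∈ II n | m + g ∈ RareSet n y}) := by
    intro m hm
    unfold Tset' at hm
    rw [mem_filter] at hm
    obtain ⟨hm1, hm2, hc1, hc2, _⟩ := hm
    by_cases h1 : ∃ p : ℕ, p.Prime ∧ p ≤ y ∧ p ∣ m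
    · apply mem_union_right
      apply mem_union_left
      unfold RareSet
      rw [mem_filter]
      exact ⟨hm1, hc1, h1⟩
    · by_cases h2 : ∃ p : ℕ, p.Prime ∧ p ≤ y ∧ p ∣ m + g
      · apply mem_union_right
        apply mem_union_right
        rw [mem_filter]
        refine ⟨hm1, ?_⟩
        unfold RareSet
        rw [mem_filter]
        exact ⟨hm2, hc2, h2⟩
      · apply mem_union_left
        unfold Sv
        rw [mem_filter]
        refine ⟨hm1, fun p hp g' hg' hd => ?_⟩
        rw [mem_Pr] at hp
        rw [mem_insert, mem_singleton] at hg'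
        rcases hg' with rfl | rfl
        · exact h1 ⟨p, hp.2, hp.1, hd⟩
        · exact h2 ⟨p, hp.2, hp.1, hd⟩
  have h3 : #{m ∈ II n | m + g ∈ RareSet n y} ≤ #(RareSet n y) := by
    apply card_le_card_of_injOn (fun m => m + g)
    · intro m hm
      rw [mem_coe, mem_filter] at hm
      exact hm.2
    · intro m _ m' _ h
      simp only at h
      omega
  have h4 := (card_le_card hsub).trans (card_union_le _ _)
  have h5 := card_union_le (RareSet n y) {m ∈ II n | m + g ∈ RareSet n y}
  omega

open Classical in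
/-- triples of cyclic numbers -/
noncomputable def Trip (e g n : ℕ) : Finset ℕ :=
  {m ∈ II n | m + g ∈ II n ∧ IsCyc m ∧ IsCyc (m + e) ∧ IsCyc (m + g)}

theorem Trip_upper (e g y n : ℕ) (he : e ≤ g) :
    #(Trip e g n) ≤ #(Sv {0, e, g} y n) + 3 * #(RareSet n y) := by
  classical
  have hsub : Trip e g n ⊆ Sv {0, e, g} y n ∪ (RareSet n y ∪ ({m ∈ II n | m + e ∈ RareSet n y} ∪
      {m ∈ II n | m + g ∈ RareSet n y})) := by
    intro m hm
    unfold Trip at hm
    rw [mem_filter] at hm
    obtain ⟨hm1, hm2, hc1, hc3, hc2⟩ := hm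
    have hm3 : m + e ∈ II n := by
      rw [mem_II] at *
      omega
    by_cases h1 : ∃ p : ℕ, p.Prime ∧ p ≤ y ∧ p ∣ m
    · apply mem_union_right
      apply mem_union_left
      unfold RareSet
      rw [mem_filter]
      exact ⟨hm1, hc1, h1⟩
    · by_cases h2 : ∃ p : ℕ, p.Prime ∧ p ≤ y ∧ p ∣ m + g
      · apply mem_union_right
        apply mem_union_right
        apply mem_union_right
        rw [mem_filter]
        refine ⟨hm1, ?_⟩
        unfold RareSet
        rw [mem_filter]
        exact ⟨hm2, hc2, h2⟩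
      · by_cases h3 : ∃ p : ℕ, p.Prime ∧ p ≤ y ∧ p ∣ m + e
        · apply mem_union_right
          apply mem_union_right
          apply mem_union_left
          rw [mem_filter]
          refine ⟨hm1, ?_⟩
          unfold RareSet
          rw [mem_filter]
          exact ⟨hm3, hc3, h3⟩
        · apply mem_union_left
          unfold Sv
          rw [mem_filter]
          refine ⟨hm1, fun p hp g' hg' hd => ?_⟩
          rw [mem_Pr] at hp
          rw [mem_insert, mem_insert, mem_singleton] at hg'
          rcases hg' with rfl | rfl | rfl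
          · exact h1 ⟨p, hp.2, hp.1, hd⟩
          · exact h3 ⟨p, hp.2, hp.1, hd⟩
          · exact h2 ⟨p, hp.2, hp.1, hd⟩
  have key : ∀ c : ℕ, #{m ∈ II n | m + c ∈ RareSet n y} ≤ #(RareSet n y) := by
    intro c
    apply card_le_card_of_injOn (fun m => m + c)
    · intro m hm
      rw [mem_coe, mem_filter] at hm
      exact hm.2
    · intro m _ m' _ h
      simp only at h
      omega
  have h4 := (card_le_card hsub).trans (card_union_le _ _)
  have h5 := card_union_le (RareSet n y) ({m ∈ II n | m + e ∈ RareSet n y} ∪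
      {m ∈ II n | m + g ∈ RareSet n y})
  have h6 := card_union_le {m ∈ II n | m + e ∈ RareSet n y} {m ∈ II n | m + g ∈ RareSet n y}
  have h7 := key e
  have h8 := key g
  omega

/-- lower bound for the number of pairs -/
theorem T_lower (g y y' n : ℕ) (hg : g = 2 ∨ g = 4 ∨ g = 6) (hn : 2 ≤ n) :
    #(Sv {0, g} y n) ≤ #(Tset' g n) + g + 2 * #(RoughSet n y) + 6 * #(RareSet n y') +
      (if 2 < g then #(Sv {0, 2, g} y' n) else 0) + (if 4 < g then #(Sv {0, 4, g} y' n) else 0) := by
  classical
  have hsub : Sv {0, g} y n ⊆ Tset' g n ∪ ({m ∈ II n | (n + 1) ^ 3 ≤ m + g} ∪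
      ((RoughSet n y ∪ {m ∈ II n | m + g ∈ RoughSet n y}) ∪
      ((if 2 < g then Trip 2 g n else ∅) ∪ (if 4 < g then Trip 4 g n else ∅)))) := by
    intro m hm
    unfold Sv at hm
    rw [mem_filter] at hm
    obtain ⟨hm1, hm2⟩ := hm
    have hmI := mem_II.1 hm1
    by_cases hb : (n + 1) ^ 3 ≤ m + g
    · exact mem_union_right _ (mem_union_left _ (mem_filter.2 ⟨hm1, hb⟩))
    have hmg : m + g ∈ II n := by rw [mem_II]; omega
    have hr1 : ∀ p : ℕ, p.Prime → p ∣ m → y < p := by
      intro p hp hd
      by_contra hlt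
      exact hm2 p (mem_Pr.2 ⟨by omega, hp⟩) 0 (by simp) hd
    have hr2 : ∀ p : ℕ, p.Prime → p ∣ m + g → y < p := by
      intro p hp hd
      by_contra hlt
      exact hm2 p (mem_Pr.2 ⟨by omega, hp⟩) g (by simp) hd
    by_cases hc1 : IsCyc m
    · by_cases hc2 : IsCyc (m + g)
      · by_cases hk : ∀ k, m < k → k < m + g → ¬ IsCyc k
        · apply mem_union_left
          unfold Tset'
          rw [mem_filter]
          exact ⟨hm1, hmg, hc1, hc2, hk⟩
        · push Not at hk
          obtain ⟨k, hk1, hk2, hk3⟩ := hk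
          apply mem_union_right
          apply mem_union_right
          apply mem_union_right
          have hn3 : 8 ≤ n ^ 3 := by
            calc 8 = 2 ^ 3 := by norm_num
              _ ≤ n ^ 3 := Nat.pow_le_pow_left hn 3
          have hkodd : ¬ 2 ∣ k := fun h => even_not_cyc (by omega) h hk3
          have hmodd : ¬ 2 ∣ m := fun h => even_not_cyc (by omega) h hc1
          have hcase : (k = m + 2 ∧ 2 < g) ∨ (k = m + 4 ∧ 4 < g) := by omega
          rcases hcase with ⟨rfl, h⟩ | ⟨rfl, h⟩
          · apply mem_union_left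
            rw [if_pos h]
            unfold Trip
            rw [mem_filter]
            exact ⟨hm1, hmg, hc1, hk3, hc2⟩
          · apply mem_union_right
            rw [if_pos h]
            unfold Trip
            rw [mem_filter]
            exact ⟨hm1, hmg, hc1, hk3, hc2⟩
      · apply mem_union_right
        apply mem_union_right
        apply mem_union_left
        apply mem_union_right
        rw [mem_filter]
        refine ⟨hm1, ?_⟩
        unfold RoughSet
        rw [mem_filter]
        exact ⟨hmg, hr2, hc2⟩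
    · apply mem_union_right
      apply mem_union_right
      apply mem_union_left
      apply mem_union_left
      unfold RoughSet
      rw [mem_filter]
      exact ⟨hm1, hr1, hc1⟩
  have h1 : #{m ∈ II n | (n + 1) ^ 3 ≤ m + g} ≤ g := by
    have h2 : {m ∈ II n | (n + 1) ^ 3 ≤ m + g} ⊆ Ico ((n + 1) ^ 3 - g) ((n + 1) ^ 3) := by
      intro m hm
      rw [mem_filter, mem_II] at hm
      rw [mem_Ico]
      omega
    have := card_le_card h2
    rw [Nat.card_Ico] at this
    omega
  have h2 : #{m ∈ II n | m + g ∈ RoughSet n y} ≤ #(RoughSet n y) := by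
    apply card_le_card_of_injOn (fun m => m + g)
    · intro m hm
      rw [mem_coe, mem_filter] at hm
      exact hm.2
    · intro m _ m' _ h
      simp only at h
      omega
  have h3 : #(if 2 < g then Trip 2 g n else ∅) ≤
      (if 2 < g then #(Sv {0, 2, g} y' n) else 0) + 3 * #(RareSet n y') := by
    split_ifs with h
    · exact Trip_upper 2 g y' n (by omega)
    · simp
  have h4 : #(if 4 < g then Trip 4 g n else ∅) ≤
      (if 4 < g then #(Sv {0, 4, g} y' n) else 0) + 3 * #(RareSet n y') := by
    split_ifs with h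
    · exact Trip_upper 4 g y' n (by omega)
    · simp
  have c1 := (card_le_card hsub).trans (card_union_le _ _)
  have c2 := card_union_le {m ∈ II n | (n + 1) ^ 3 ≤ m + g}
      ((RoughSet n y ∪ {m ∈ II n | m + g ∈ RoughSet n y}) ∪
      ((if 2 < g then Trip 2 g n else ∅) ∪ (if 4 < g then Trip 4 g n else ∅)))
  have c3 := card_union_le (RoughSet n y ∪ {m ∈ II n | m + g ∈ RoughSet n y})
      ((if 2 < g then Trip 2 g n else ∅) ∪ (if 4 < g then Trip 4 g n else ∅))
  have c4 := card_union_le (RoughSet n y) {m ∈ II n | m + g ∈ RoughSet n y}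
  have c5 := card_union_le (if 2 < g then Trip 2 g n else ∅) (if 4 < g then Trip 4 g n else ∅)
  omega

theorem V_pos (g : ℕ) (hg : 2 ∣ g) (y : ℕ) : 0 < V {0, g} y := by
  unfold V
  apply prod_pos
  intro p hp
  rw [mem_Pr] at hp
  have hp0 : (0 : ℝ) < p := by exact_mod_cast hp.2.pos
  have : 0 < cnt {0, g} p := by
    rcases hp.2.eq_two_or_odd with h | h
    · subst h
      unfold cnt
      rw [card_pos]
      refine ⟨1, ?_⟩
      rw [mem_filter, mem_range]
      refine ⟨by norm_num, fun g' hg' hd => ?_⟩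
      rw [mem_insert, mem_singleton] at hg'
      omega
    · have h1 := cnt_ge {0, g} hp.2.pos
      have h2 : #({0, g} : Finset ℕ) ≤ 2 := card_le_two
      have h3 := hp.2.two_le
      omega
  have h2 : (0 : ℝ) < cnt {0, g} p := by exact_mod_cast this
  positivity

end Pool.Agent.Q43.Cyc
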