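import Pool.Agent.Q43.Cyc.MLow

set_option autoImplicit false

namespace Pool.Agent.Q43.Cyc

open Finset Filter

theorem count_multiples_lower {d : ℕ} (hd : 0 < d) (a H : ℕ) :
    (H : ℝ) / d - 1 ≤ #{m ∈ Ico a (a + H) | d ∣ m} := by
  have hper : Function.Periodic (fun t => d ∣ t) d := by
    intro t
    simp only [eq_iff_iff]
    exact Nat.dvd_add_left (dvd_refl d)
  have h1 := periodic_blocks d (fun t => d ∣ t) hper a (H / d)
  have h2 : #{t ∈ range d | d ∣ t} = 1 := by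
    rw [card_eq_one]
    refine ⟨0, ?_⟩
    ext t
    rw [mem_filter, mem_range, mem_singleton]
    constructor
    · rintro ⟨h3, h4⟩
      by_contra h5
      have := Nat.le_of_dvd (by omega) h4
      omega
    · rintro rfl
      exact ⟨hd, dvd_zero d⟩
  rw [h2, mul_one] at h1
  have h3 : H / d ≤ #{m ∈ Ico a (a + H) | d ∣ m} := by
    rw [← h1]
    apply card_le_card
    apply filter_subset_filter
    apply Ico_subset_Ico_right
    have := Nat.div_mul_le_self H d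
    omega
  have h4 : (H : ℝ) / d < ((H / d : ℕ) : ℝ) + 1 := by
    rw [div_lt_iff₀ (by exact_mod_cast hd)]
    have : H < (H / d + 1) * d := by
      rw [mul_comm]; exact Nat.lt_mul_div_succ H hd
    exact_mod_cast this
  have h5 : ((H / d : ℕ) : ℝ) ≤ #{m ∈ Ico a (a + H) | d ∣ m} := by exact_mod_cast h3
  linarith

/-- Turan's inequality for multiples of `p` in an interval -/
theorem turan (a H p : ℕ) (hp : p.Prime) (Q : Finset ℕ) (hQ : ∀ q ∈ Q, q.Prime ∧ q ≠ p)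
    (hQ1 : 1 ≤ #Q) :
    (#{m ∈ Ico a (a + H) | p ∣ m ∧ ∀ q ∈ Q, ¬ q ∣ m} : ℝ) * (∑ q ∈ Q, (1 : ℝ) / q) ^ 2 ≤
      (H : ℝ) / p * (∑ q ∈ Q, (1 : ℝ) / q) + 5 * (#Q : ℝ) ^ 2 := by
  classical
  set M := ∑ q ∈ Q, (1 : ℝ) / q with hM
  set J := {m ∈ Ico a (a + H) | p ∣ m} with hJ
  set w : ℕ → ℝ := fun m => ∑ q ∈ Q, if q ∣ m then (1 : ℝ) else 0 with hw
  have hp0 : (0 : ℝ) < p := by exact_mod_cast hp.pos
  have hM0 : 0 ≤ M := sum_nonneg fun q _ => by positivity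
  have hMQ : M ≤ #Q := by
    rw [hM]
    calc ∑ q ∈ Q, (1 : ℝ) / q ≤ ∑ q ∈ Q, (1 : ℝ) := by
          apply sum_le_sum
          intro q hq
          have : (1 : ℝ) ≤ q := by exact_mod_cast (hQ q hq).1.one_lt.le
          rw [div_le_one (by linarith)]
          exact this
      _ = #Q := by simp
  have hQ1' : (1 : ℝ) ≤ #Q := by exact_mod_cast hQ1
  -- left side
  have hleft : (#{m ∈ Ico a (a + H) | p ∣ m ∧ ∀ q ∈ Q, ¬ q ∣ m} : ℝ) * M ^ 2 ≤
      ∑ m ∈ J, (w m - M) ^ 2 := by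
    have hsub : {m ∈ Ico a (a + H) | p ∣ m ∧ ∀ q ∈ Q, ¬ q ∣ m} ⊆ J := by
      intro m hm
      rw [mem_filter] at hm
      rw [hJ, mem_filter]
      exact ⟨hm.1, hm.2.1⟩
    calc (#{m ∈ Ico a (a + H) | p ∣ m ∧ ∀ q ∈ Q, ¬ q ∣ m} : ℝ) * M ^ 2 =
        ∑ m ∈ {m ∈ Ico a (a + H) | p ∣ m ∧ ∀ q ∈ Q, ¬ q ∣ m}, (w m - M) ^ 2 := by
          rw [← nsmul_eq_mul, ← sum_const]
          apply sum_congr rfl
          intro m hm
          rw [mem_filter] at hm
          have : w m = 0 := by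
            simp only [hw]
            apply sum_eq_zero
            intro q hq
            rw [if_neg (hm.2.2 q hq)]
          rw [this]; ring
      _ ≤ _ := sum_le_sum_of_subset_of_nonneg hsub fun m _ _ => sq_nonneg _
  -- moments
  have hJc : (#J : ℝ) ≤ H / p + 1 := count_multiples hp.pos a H
  have h1 : (H : ℝ) / p * M - #Q ≤ ∑ m ∈ J, w m := by
    simp only [hw]
    rw [sum_comm]
    have hterm : ∀ q ∈ Q, (H : ℝ) / p * (1 / q) - 1 ≤ ∑ m ∈ J, (if q ∣ m then (1 : ℝ) else 0) := by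
      intro q hq
      obtain ⟨hqp, hqne⟩ := hQ q hq
      have h2 := count_multiples_lower (Nat.mul_pos hp.pos hqp.pos) a H
      have h3 : (∑ m ∈ J, (if q ∣ m then (1 : ℝ) else 0)) = #{m ∈ Ico a (a + H) | p * q ∣ m} := by
        rw [← sum_filter, sum_const, nsmul_eq_mul, mul_one, hJ, filter_filter]
        congr 2
        apply filter_congr
        intro m _
        constructor
        · rintro ⟨h4, h5⟩
          exact ((Nat.coprime_primes hp hqp).2 hqne.symm).mul_dvd_of_dvd_of_dvd h4 h5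
        · intro h4
          exact ⟨(Dvd.intro _ rfl).trans h4, (Dvd.intro_left _ rfl).trans h4⟩
      rw [h3]
      refine le_trans (le_of_eq ?_) h2
      push_cast
      have : (0 : ℝ) < q := by exact_mod_cast hqp.pos
      field_simp
    calc (H : ℝ) / p * M - #Q = ∑ q ∈ Q, ((H : ℝ) / p * (1 / q) - 1) := by
          rw [sum_sub_distrib, ← mul_sum, sum_const, nsmul_eq_mul, mul_one]
      _ ≤ _ := sum_le_sum hterm
  have h2 : ∑ m ∈ J, (w m) ^ 2 ≤ (H : ℝ) / p * M + (H : ℝ) / p * M ^ 2 + 2 * (#Q : ℝ) ^ 2 := by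
    have hexp : ∀ m ∈ J, (w m) ^ 2 = ∑ q ∈ Q, ∑ q' ∈ Q,
        ((if q ∣ m then (1 : ℝ) else 0) * (if q' ∣ m then (1 : ℝ) else 0)) := by
      intro m _
      simp only [hw]
      rw [sq, sum_mul_sum]
    rw [sum_congr rfl hexp, sum_comm]
    have hterm : ∀ q ∈ Q, ∀ q' ∈ Q, ∑ m ∈ J,
        ((if q ∣ m then (1 : ℝ) else 0) * (if q' ∣ m then (1 : ℝ) else 0)) ≤
        (if q = q' then (H : ℝ) / p * (1 / q) else 0) + (H : ℝ) / p * ((1 / q) * (1 / q')) + 1 := by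
      intro q hq q' hq'
      obtain ⟨hqp, hqne⟩ := hQ q hq
      obtain ⟨hqp', hqne'⟩ := hQ q' hq'
      have hq0 : (0 : ℝ) < q := by exact_mod_cast hqp.pos
      have hq0' : (0 : ℝ) < q' := by exact_mod_cast hqp'.pos
      have e1 : ∑ m ∈ J, ((if q ∣ m then (1 : ℝ) else 0) * (if q' ∣ m then (1 : ℝ) else 0)) =
          #{m ∈ Ico a (a + H) | p ∣ m ∧ q ∣ m ∧ q' ∣ m} := by
        have : ∀ m ∈ J, ((if q ∣ m then (1 : ℝ) else 0) * (if q' ∣ m then (1 : ℝ) else 0)) =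
            if q ∣ m ∧ q' ∣ m then 1 else 0 := by
          intro m _
          by_cases h3 : q ∣ m <;> by_cases h4 : q' ∣ m <;> simp [h3, h4]
        rw [sum_congr rfl this, ← sum_filter, sum_const, nsmul_eq_mul, mul_one, hJ, filter_filter]
      rw [e1]
      by_cases hqq : q = q'
      · subst hqq
        rw [if_pos rfl]
        have h3 := count_multiples (Nat.mul_pos hp.pos hqp.pos) a H
        have h4 : (#{m ∈ Ico a (a + H) | p ∣ m ∧ q ∣ m ∧ q ∣ m} : ℝ) ≤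
            #{m ∈ Ico a (a + H) | p * q ∣ m} := by
          rw [Nat.cast_le]
          apply card_le_card
          intro m hm
          rw [mem_filter] at hm ⊢
          exact ⟨hm.1, ((Nat.coprime_primes hp hqp).2 hqne.symm).mul_dvd_of_dvd_of_dvd hm.2.1 hm.2.2.1⟩
        have h5 : (H : ℝ) / ((p * q : ℕ) : ℝ) = (H : ℝ) / p * (1 / q) := by
          push_cast; field_simp
        rw [h5] at h3
        have h6 : 0 ≤ (H : ℝ) / p * ((1 / q) * (1 / q)) := by positivity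
        linarith
      · rw [if_neg hqq]
        have h3 := count_multiples (Nat.mul_pos (Nat.mul_pos hp.pos hqp.pos) hqp'.pos) a H
        have h4 : (#{m ∈ Ico a (a + H) | p ∣ m ∧ q ∣ m ∧ q' ∣ m} : ℝ) ≤
            #{m ∈ Ico a (a + H) | p * q * q' ∣ m} := by
          rw [Nat.cast_le]
          apply card_le_card
          intro m hm
          rw [mem_filter] at hm ⊢
          refine ⟨hm.1, ?_⟩
          apply Nat.Coprime.mul_dvd_of_dvd_of_dvd
          · apply Nat.Coprime.mul_left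
            · exact (Nat.coprime_primes hp hqp').2 hqne'.symm
            · exact (Nat.coprime_primes hqp hqp').2 hqq
          · exact ((Nat.coprime_primes hp hqp).2 hqne.symm).mul_dvd_of_dvd_of_dvd hm.2.1 hm.2.2.1
          · exact hm.2.2.2
        have h5 : (H : ℝ) / ((p * q * q' : ℕ) : ℝ) = (H : ℝ) / p * ((1 / q) * (1 / q')) := by
          push_cast; field_simp
        rw [h5] at h3
        linarith
    have hswap : ∑ q ∈ Q, ∑ m ∈ J, ∑ q' ∈ Q,
        ((if q ∣ m then (1 : ℝ) else 0) * (if q' ∣ m then (1 : ℝ) else 0)) =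
        ∑ q ∈ Q, ∑ q' ∈ Q, ∑ m ∈ J,
        ((if q ∣ m then (1 : ℝ) else 0) * (if q' ∣ m then (1 : ℝ) else 0)) := by
      apply sum_congr rfl
      intro q _
      rw [sum_comm]
    rw [hswap]
    calc ∑ q ∈ Q, ∑ q' ∈ Q, ∑ m ∈ J,
        ((if q ∣ m then (1 : ℝ) else 0) * (if q' ∣ m then (1 : ℝ) else 0))
        ≤ ∑ q ∈ Q, ∑ q' ∈ Q, ((if q = q' then (H : ℝ) / p * (1 / q) else 0) +
            (H : ℝ) / p * ((1 / q) * (1 / q')) + 1) := by
          apply sum_le_sum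
          intro q hq
          exact sum_le_sum (hterm q hq)
      _ = (H : ℝ) / p * M + (H : ℝ) / p * M ^ 2 + (#Q : ℝ) ^ 2 := by
          simp only [sum_add_distrib]
          have g1 : ∑ q ∈ Q, ∑ q' ∈ Q, (if q = q' then (H : ℝ) / p * (1 / q) else 0) =
              (H : ℝ) / p * M := by
            rw [hM, mul_sum]
            apply sum_congr rfl
            intro q hq
            rw [sum_ite_eq, if_pos hq]
          have g2 : ∑ q ∈ Q, ∑ q' ∈ Q, (H : ℝ) / p * ((1 / q) * (1 / q')) = (H : ℝ) / p * M ^ 2 := by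
            rw [hM, sq, sum_mul_sum, mul_sum]
            apply sum_congr rfl
            intro q _
            rw [mul_sum]
          have g3 : ∑ q ∈ Q, ∑ q' ∈ Q, (1 : ℝ) = (#Q : ℝ) ^ 2 := by
            simp [sq]
          rw [g1, g2, g3]
      _ ≤ _ := by
          have := sq_nonneg (#Q : ℝ)
          linarith
  refine hleft.trans ?_
  have hexpand : ∑ m ∈ J, (w m - M) ^ 2 = ∑ m ∈ J, (w m) ^ 2 - 2 * M * ∑ m ∈ J, w m + M ^ 2 * #J := by
    have : ∀ m ∈ J, (w m - M) ^ 2 = (w m) ^ 2 - 2 * M * w m + M ^ 2 := by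
      intro m _; ring
    rw [sum_congr rfl this, sum_add_distrib, sum_sub_distrib, ← mul_sum, sum_const, nsmul_eq_mul]
    ring
  rw [hexpand]
  have h3 : 2 * M * ((H : ℝ) / p * M - #Q) ≤ 2 * M * ∑ m ∈ J, w m :=
    mul_le_mul_of_nonneg_left h1 (by positivity)
  have h4 : M ^ 2 * (#J : ℝ) ≤ M ^ 2 * (H / p + 1) := mul_le_mul_of_nonneg_left hJc (by positivity)
  have h5 : M ^ 2 ≤ (#Q : ℝ) ^ 2 := pow_le_pow_left₀ hM0 hMQ 2
  have h6 : M * #Q ≤ (#Q : ℝ) ^ 2 := by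
    rw [sq]; exact mul_le_mul_of_nonneg_right hMQ (by linarith)
  have h7 : M ^ 2 * ((H : ℝ) / p + 1) = (H : ℝ) / p * M ^ 2 + M ^ 2 := by ring
  have h8 : 2 * M * ((H : ℝ) / p * M - #Q) = 2 * ((H : ℝ) / p * M ^ 2) - 2 * (M * #Q) := by ring
  linarith

open Classical in
noncomputable def RareSet (n Y : ℕ) : Finset ℕ :=
  {m ∈ II n | IsCyc m ∧ ∃ p : ℕ, p.Prime ∧ p ≤ Y ∧ p ∣ m}

/-- cyclic numbers with a small prime factor are rare -/
theorem rare : ∃ C : ℝ, 0 < C ∧ ∀ᶠ n : ℕ in atTop, ∀ Y : ℕ, (Y : ℝ) ≤ Real.log (Real.log n) →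
    (#(RareSet n Y) : ℝ) ≤ C * (n : ℝ) ^ 2 * (Y / Real.log (Real.log n)) := by
  classical
  refine ⟨96 + 1280, by norm_num, ?_⟩
  filter_upwards [M_lower, ev_loglog 1, ev_log 1, ev_logpow 1 1 (by norm_num), eventually_ge_atTop 16]
    with n hM hL hl hs hn16 Y hY
  set L := Real.log (Real.log (n : ℝ)) with hLdef
  have hL0 : 0 < L := by linarith
  have hn0 : (0 : ℝ) < n := by exact_mod_cast (by omega : 0 < n)
  have hn1 : (16 : ℝ) ≤ n := by exact_mod_cast hn16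
  set z := Nat.sqrt (Nat.sqrt n) with hz
  have hz4 : (z : ℝ) ^ 2 ≤ Real.sqrt n := by
    apply Real.le_sqrt_of_sq_le
    have h1 : z ^ 4 ≤ n := by
      calc z ^ 4 = (z ^ 2) ^ 2 := by ring
        _ ≤ (Nat.sqrt n) ^ 2 := Nat.pow_le_pow_left (Nat.sqrt_le' _) 2
        _ ≤ n := Nat.sqrt_le' _
    calc ((z : ℝ) ^ 2) ^ 2 = ((z ^ 4 : ℕ) : ℝ) := by push_cast; ring
      _ ≤ n := by exact_mod_cast h1
  have hH : (HH n : ℝ) ≤ 6 * (n : ℝ) ^ 2 := by
    unfold HH; push_cast; nlinarith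
  have hLn : L ≤ Real.log n := by
    have := Real.log_le_sub_one_of_pos (show (0 : ℝ) < Real.log n by linarith)
    linarith
  have hsub : RareSet n Y ⊆ (Pr Y).biUnion (fun p =>
      {m ∈ Ico (n ^ 3 + 1) (n ^ 3 + 1 + HH n) | p ∣ m ∧ ∀ q ∈ QQ p z, ¬ q ∣ m}) := by
    intro m hm
    unfold RareSet at hm
    rw [mem_filter] at hm
    obtain ⟨hmI, hc, p, hp, hpY, hpm⟩ := hm
    rw [mem_biUnion]
    refine ⟨p, mem_Pr.2 ⟨hpY, hp⟩, mem_filter.2 ⟨hmI, hpm, ?_⟩⟩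
    intro q hq hqm
    unfold QQ at hq
    rw [mem_filter, mem_Icc] at hq
    obtain ⟨⟨hq1, _⟩, hqp, hqm1⟩ := hq
    have hd : p ∣ q - 1 := (Nat.modEq_iff_dvd' hq1).1 hqm1.symm
    exact not_cyc_of_mod hp hqp hpm hqm hd hc
  have hterm : ∀ p ∈ Pr Y, (#{m ∈ Ico (n ^ 3 + 1) (n ^ 3 + 1 + HH n) |
      p ∣ m ∧ ∀ q ∈ QQ p z, ¬ q ∣ m} : ℝ) ≤ (96 + 1280) * (n : ℝ) ^ 2 / L := by
    intro p hp
    rw [mem_Pr] at hp
    have hpL : (p : ℝ) ≤ L := by
      have : (p : ℝ) ≤ Y := by exact_mod_cast hp.1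
      linarith
    have hp0 : (0 : ℝ) < p := by exact_mod_cast hp.2.pos
    have hMp := hM p hp.2 hpL
    set M := ∑ q ∈ QQ p z, (1 : ℝ) / q with hMdef
    have hM16 : 1 / 16 ≤ M := by
      have : 1 ≤ L / p := by rw [le_div_iff₀ hp0]; linarith
      linarith
    have hM0 : 0 < M := by linarith
    have hQne : 1 ≤ #(QQ p z) := by
      rw [Nat.one_le_iff_ne_zero]
      intro h0
      rw [card_eq_zero] at h0
      rw [hMdef, h0, sum_empty] at hM0
      exact lt_irrefl _ hM0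
    have hQz : #(QQ p z) ≤ z := by
      unfold QQ
      calc _ ≤ #(Icc 1 z) := card_filter_le _ _
        _ = z := by rw [Nat.card_Icc]; simp
    have ht := turan (n ^ 3 + 1) (HH n) p hp.2 (QQ p z) (by
      intro q hq
      unfold QQ at hq
      rw [mem_filter, mem_Icc] at hq
      refine ⟨hq.2.1, ?_⟩
      rintro rfl
      have hd : q ∣ q - 1 := (Nat.modEq_iff_dvd' hq.1.1).1 hq.2.2.symm
      have := Nat.le_of_dvd (by have := hq.2.1.two_le; omega) hd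
      have := hq.2.1.two_le
      omega) hQne
    rw [← hMdef] at ht
    have hM2 : 0 < M ^ 2 := by positivity
    have h1 : (#{m ∈ Ico (n ^ 3 + 1) (n ^ 3 + 1 + HH n) | p ∣ m ∧ ∀ q ∈ QQ p z, ¬ q ∣ m} : ℝ) ≤
        (HH n : ℝ) / p / M + 5 * (#(QQ p z) : ℝ) ^ 2 / M ^ 2 := by
      have h2 := div_le_div_of_nonneg_right ht hM2.le
      rw [mul_div_cancel_right₀ _ hM2.ne', add_div] at h2
      have h3 : (HH n : ℝ) / p * M / M ^ 2 = (HH n : ℝ) / p / M := by field_simp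
      rw [h3] at h2
      exact h2
    have h2 : (HH n : ℝ) / p / M ≤ 96 * (n : ℝ) ^ 2 / L := by
      have h3 : L ≤ 16 * (p * M) := by
        have h4 : (1 / 16 : ℝ) * (L / p) * p ≤ M * p := mul_le_mul_of_nonneg_right hMp hp0.le
        have h5 : (1 / 16 : ℝ) * (L / p) * p = L / 16 := by field_simp
        linarith
      rw [div_div, div_le_div_iff₀ (by positivity) hL0]
      calc (HH n : ℝ) * L ≤ (6 * (n : ℝ) ^ 2) * (16 * (p * M)) :=
            mul_le_mul hH h3 hL0.le (by positivity)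
        _ = _ := by ring
    have h3 : 5 * (#(QQ p z) : ℝ) ^ 2 / M ^ 2 ≤ 1280 * (n : ℝ) ^ 2 / L := by
      have h4 : (#(QQ p z) : ℝ) ^ 2 ≤ Real.sqrt n := by
        refine le_trans ?_ hz4
        apply pow_le_pow_left₀ (Nat.cast_nonneg _)
        exact_mod_cast hQz
      have h5 : (1 / 256 : ℝ) ≤ M ^ 2 := by nlinarith
      have h6 : 5 * (#(QQ p z) : ℝ) ^ 2 / M ^ 2 ≤ 1280 * Real.sqrt n := by
        rw [div_le_iff₀ hM2]
        have : 0 ≤ Real.sqrt (n : ℝ) := Real.sqrt_nonneg _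
        nlinarith
      refine h6.trans ?_
      rw [le_div_iff₀ hL0]
      have h7 : Real.log n ≤ Real.sqrt n := by simpa using hs
      have h8 : Real.sqrt n * L ≤ Real.sqrt n * Real.sqrt n :=
        mul_le_mul_of_nonneg_left (hLn.trans h7) (Real.sqrt_nonneg _)
      rw [Real.mul_self_sqrt hn0.le] at h8
      have h9 : (n : ℝ) ≤ (n : ℝ) ^ 2 := by nlinarith
      linarith
    calc _ ≤ (HH n : ℝ) / p / M + 5 * (#(QQ p z) : ℝ) ^ 2 / M ^ 2 := h1
      _ ≤ 96 * (n : ℝ) ^ 2 / L + 1280 * (n : ℝ) ^ 2 / L := add_le_add h2 h3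
      _ = _ := by ring
  have hPr : (#(Pr Y) : ℝ) ≤ Y := by
    have : Pr Y ⊆ Icc 1 Y := by
      intro p hp
      rw [mem_Pr] at hp
      exact mem_Icc.2 ⟨hp.2.one_lt.le, hp.1⟩
    have h1 := card_le_card this
    rw [Nat.card_Icc] at h1
    exact_mod_cast (by omega : #(Pr Y) ≤ Y)
  calc (#(RareSet n Y) : ℝ) ≤ ((∑ p ∈ Pr Y, #{m ∈ Ico (n ^ 3 + 1) (n ^ 3 + 1 + HH n) |
      p ∣ m ∧ ∀ q ∈ QQ p z, ¬ q ∣ m} : ℕ) : ℝ) := by
        exact_mod_cast (card_le_card hsub).trans card_biUnion_le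
    _ = ∑ p ∈ Pr Y, (#{m ∈ Ico (n ^ 3 + 1) (n ^ 3 + 1 + HH n) |
      p ∣ m ∧ ∀ q ∈ QQ p z, ¬ q ∣ m} : ℝ) := by push_cast; rfl
    _ ≤ ∑ p ∈ Pr Y, (96 + 1280) * (n : ℝ) ^ 2 / L := sum_le_sum hterm
    _ = (#(Pr Y) : ℝ) * ((96 + 1280) * (n : ℝ) ^ 2 / L) := by rw [sum_const, nsmul_eq_mul]
    _ ≤ (Y : ℝ) * ((96 + 1280) * (n : ℝ) ^ 2 / L) := mul_le_mul_of_nonneg_right hPr (by positivity)
    _ = _ := by ring

end Pool.Agent.Q43.Cyc
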