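import Pool.Agent.Q43.Cyc.Asy

set_option autoImplicit false

namespace Pool.Agent.Q43.Cyc

open Finset Filter Topology

theorem main_tendsto (g : ℕ) (hg : g = 2 ∨ g = 4 ∨ g = 6) :
    Tendsto (fun n : ℕ => (#(Tset' g n) : ℝ) / ff g n) atTop (𝓝 1) := by
  obtain ⟨K, hK, h⟩ := main_est g hg
  have h1 : Tendsto (fun u : ℝ => (1 + Real.log u) / u) atTop (𝓝 0) := by
    have h2 : Tendsto (fun u : ℝ => 1 / u) atTop (𝓝 0) := tendsto_const_nhds.div_atTop tendsto_id
    have h3 : Tendsto (fun u : ℝ => Real.log u / u) atTop (𝓝 0) := by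
      have := Real.isLittleO_log_id_atTop.tendsto_div_nhds_zero
      simpa using this
    have h4 := h2.add h3
    rw [add_zero] at h4
    refine h4.congr fun u => ?_
    rw [add_div]
  have h5 : Tendsto (fun n : ℕ => Real.log (Real.log (Real.log (n : ℝ)))) atTop atTop :=
    Real.tendsto_log_atTop.comp tendsto_loglog
  have h6 := (h1.comp h5).const_mul K
  rw [mul_zero] at h6
  have h7 : Tendsto (fun n : ℕ => (#(Tset' g n) : ℝ) / ff g n - 1) atTop (𝓝 0) :=
    squeeze_zero_norm' (h.mono fun n hn => by rw [Real.norm_eq_abs]; exact hn) h6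
  have h8 := h7.add_const 1
  rw [zero_add] at h8
  refine h8.congr fun n => ?_
  ring

theorem V_step (G : Finset ℕ) (hG : #G ≤ 2) {y : ℕ} (hy : 2 ≤ y) :
    V G y * (1 - 2 / ((y : ℝ) + 1)) ≤ V G (y + 1) := by
  refine le_trans ?_ (V_ratio G hG (Nat.le_succ y) hy)
  apply mul_le_mul_of_nonneg_left _ (V_nonneg G y)
  have h1 : ∑ p ∈ Pr (y + 1) \ Pr y, (1 : ℝ) / p ≤ 1 / ((y : ℝ) + 1) := by
    calc ∑ p ∈ Pr (y + 1) \ Pr y, (1 : ℝ) / p ≤ ∑ p ∈ ({y + 1} : Finset ℕ), (1 : ℝ) / p := by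
          apply sum_le_sum_of_subset_of_nonneg
          · intro p hp
            rw [Finset.mem_sdiff, mem_Pr, mem_Pr] at hp
            rw [mem_singleton]
            by_contra hne
            exact hp.2 ⟨by omega, hp.1.2⟩
          · intro p _ _; positivity
      _ = 1 / ((y : ℝ) + 1) := by rw [sum_singleton]; push_cast; rfl
  have h2 : 2 / ((y : ℝ) + 1) = 2 * (1 / ((y : ℝ) + 1)) := by ring
  rw [h2]
  linarith

theorem V_close (g : ℕ) (hg : 2 ∣ g) {y y' : ℕ} (hy : 5 ≤ y) (hy' : 5 ≤ y') (h1 : y' ≤ y + 1)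
    (h2 : y ≤ y' + 1) : |V {0, g} y' / V {0, g} y - 1| ≤ 4 / y := by
  have hG : #({0, g} : Finset ℕ) ≤ 2 := card_le_two
  have hV := V_pos g hg y
  have hV' := V_pos g hg y'
  have hy0 : (5 : ℝ) ≤ y := by exact_mod_cast hy
  rcases lt_trichotomy y y' with h | h | h
  · have he : y' = y + 1 := by omega
    subst he
    have h3 := V_step {0, g} hG (by omega : 2 ≤ y)
    have h4 := V_anti {0, g} (Nat.le_succ y)
    have h5 : V {0, g} (y + 1) / V {0, g} y ≤ 1 := by rw [div_le_one hV]; exact h4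
    have h6 : 1 - 2 / ((y : ℝ) + 1) ≤ V {0, g} (y + 1) / V {0, g} y := by
      rw [le_div_iff₀ hV, mul_comm]; exact h3
    have h7 : 2 / ((y : ℝ) + 1) ≤ 4 / y := by
      rw [div_le_div_iff₀ (by linarith) (by linarith)]; linarith
    have h8 : (0 : ℝ) ≤ 4 / y := by positivity
    rw [abs_le]
    constructor <;> linarith
  · subst h
    rw [div_self hV.ne', sub_self, abs_zero]
    positivity
  · have he : y = y' + 1 := by omega
    subst he
    have h3 := V_step {0, g} hG (by omega : 2 ≤ y')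
    have h4 := V_anti {0, g} (Nat.le_succ y')
    have hy0' : (5 : ℝ) ≤ y' := by exact_mod_cast hy'
    have h5 : 1 ≤ V {0, g} y' / V {0, g} (y' + 1) := by rw [le_div_iff₀ hV, one_mul]; exact h4
    have h6 : V {0, g} y' / V {0, g} (y' + 1) ≤ 1 + 4 / ((y' : ℝ) + 1) := by
      rw [div_le_iff₀ hV]
      have h9 : 1 ≤ (1 + 4 / ((y' : ℝ) + 1)) * (1 - 2 / ((y' : ℝ) + 1)) := by
        have e : (1 + 4 / ((y' : ℝ) + 1)) * (1 - 2 / ((y' : ℝ) + 1)) =
            1 + (2 * ((y' : ℝ) + 1) - 8) / ((y' : ℝ) + 1) ^ 2 := by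
          field_simp; ring
        rw [e]
        have : 0 ≤ (2 * ((y' : ℝ) + 1) - 8) / ((y' : ℝ) + 1) ^ 2 := by
          apply div_nonneg _ (by positivity)
          linarith
        linarith
      calc V {0, g} y' = V {0, g} y' * 1 := by ring
        _ ≤ V {0, g} y' * ((1 + 4 / ((y' : ℝ) + 1)) * (1 - 2 / ((y' : ℝ) + 1))) :=
            mul_le_mul_of_nonneg_left h9 hV'.le
        _ = (1 + 4 / ((y' : ℝ) + 1)) * (V {0, g} y' * (1 - 2 / ((y' : ℝ) + 1))) := by ring
        _ ≤ _ := mul_le_mul_of_nonneg_left h3 (by positivity)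
    have h8 : (0 : ℝ) ≤ 4 / ((y' + 1 : ℕ) : ℝ) := by positivity
    push_cast at h8 ⊢
    rw [abs_le]
    constructor <;> linarith

theorem floor_ratio (t : ℝ) (ht : 0 < t) :
    Tendsto (fun n : ℕ => ((⌊t * n⌋₊ : ℕ) : ℝ) / n) atTop (𝓝 t) :=
  (tendsto_nat_floor_mul_div_atTop ht.le).comp tendsto_natCast_atTop_atTop

theorem loglog_shift (t : ℝ) (ht : 0 < t) : Tendsto (fun n : ℕ =>
    Real.log (Real.log ((⌊t * n⌋₊ : ℕ) : ℝ)) - Real.log (Real.log n)) atTop (𝓝 0) := by
  have h1 := floor_ratio t ht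
  have hlogn : Tendsto (fun n : ℕ => Real.log (n : ℝ)) atTop atTop :=
    Real.tendsto_log_atTop.comp tendsto_natCast_atTop_atTop
  have h2 : Tendsto (fun n : ℕ => Real.log (((⌊t * n⌋₊ : ℕ) : ℝ) / n)) atTop (𝓝 (Real.log t)) :=
    h1.log ht.ne'
  have h3 : Tendsto (fun n : ℕ => 1 + Real.log (((⌊t * n⌋₊ : ℕ) : ℝ) / n) / Real.log n) atTop (𝓝 1) := by
    have := (h2.div_atTop hlogn).const_add 1
    rwa [add_zero] at this
  have h4 := h3.log (by norm_num)
  rw [Real.log_one] at h4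
  refine h4.congr' ?_
  have hpos : ∀ᶠ n : ℕ in atTop, 0 < ((⌊t * n⌋₊ : ℕ) : ℝ) / n := h1.eventually_const_lt ht
  have hpos2 : ∀ᶠ n : ℕ in atTop,
      0 < 1 + Real.log (((⌊t * n⌋₊ : ℕ) : ℝ) / n) / Real.log n := h3.eventually_const_lt one_pos
  filter_upwards [hpos, hpos2, ev_log 1, eventually_ge_atTop 1] with n hn1 hn2 hn3 hn4
  have hn0 : (0 : ℝ) < n := by exact_mod_cast (by omega : 0 < n)
  have hf0 : (0 : ℝ) < ((⌊t * n⌋₊ : ℕ) : ℝ) := by
    have := mul_pos hn1 hn0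
    rwa [div_mul_cancel₀ _ hn0.ne'] at this
  have h5 : 1 + Real.log (((⌊t * n⌋₊ : ℕ) : ℝ) / n) / Real.log n =
      Real.log ((⌊t * n⌋₊ : ℕ) : ℝ) / Real.log n := by
    rw [Real.log_div hf0.ne' hn0.ne']
    have : Real.log (n : ℝ) ≠ 0 := by linarith
    field_simp
    ring
  have h6 : 0 < Real.log ((⌊t * n⌋₊ : ℕ) : ℝ) := by
    rw [h5] at hn2
    have := mul_pos hn2 (show (0 : ℝ) < Real.log n by linarith)
    rwa [div_mul_cancel₀ _ (by linarith)] at this
  rw [h5, Real.log_div h6.ne' (by linarith)]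

theorem regvar (g : ℕ) (hg : 2 ∣ g) (t : ℝ) (ht : 0 < t) :
    Tendsto (fun n : ℕ => ff g ⌊t * n⌋₊ / ff g n) atTop (𝓝 (t ^ (2 : ℝ))) := by
  have h1 := (floor_ratio t ht).pow 2
  set y : ℕ → ℕ := fun n => ⌊Real.log (Real.log (n : ℝ))⌋₊ with hy
  have hyt : Tendsto y atTop atTop := tendsto_nat_floor_atTop.comp tendsto_loglog
  have hfl : Tendsto (fun n : ℕ => ⌊t * (n : ℝ)⌋₊) atTop atTop :=
    tendsto_nat_floor_atTop.comp (tendsto_natCast_atTop_atTop.const_mul_atTop ht)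
  have hyt' : Tendsto (fun n : ℕ => y ⌊t * (n : ℝ)⌋₊) atTop atTop := hyt.comp hfl
  have hB : Tendsto (fun n : ℕ => V {0, g} (y ⌊t * (n : ℝ)⌋₊) / V {0, g} (y n)) atTop (𝓝 1) := by
    have h2 : ∀ᶠ n : ℕ in atTop, |V {0, g} (y ⌊t * (n : ℝ)⌋₊) / V {0, g} (y n) - 1| ≤ 4 / (y n : ℝ) := by
      have hd := loglog_shift t ht
      have hd1 : ∀ᶠ n : ℕ in atTop, |Real.log (Real.log ((⌊t * n⌋₊ : ℕ) : ℝ)) -
          Real.log (Real.log n)| < 1 := by
        have := (hd.abs).eventually_lt_const (show |(0 : ℝ)| < 1 by norm_num)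
        exact this
      filter_upwards [hd1, hyt.eventually_ge_atTop 5, hyt'.eventually_ge_atTop 5] with n e1 e2 e3
      apply V_close g hg e2 e3
      · -- y' ≤ y + 1
        have e4 := (abs_lt.1 e1).2
        simp only [hy]
        have e5 : Real.log (Real.log ((⌊t * n⌋₊ : ℕ) : ℝ)) < ((y n + 1 + 1 : ℕ) : ℝ) := by
          have : Real.log (Real.log n) < ((y n : ℕ) : ℝ) + 1 := Nat.lt_floor_add_one _
          push_cast; linarith
        have e6 : ⌊Real.log (Real.log ((⌊t * n⌋₊ : ℕ) : ℝ))⌋₊ < y n + 1 + 1 := by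
          apply (Nat.floor_lt' (by omega)).2
          exact e5
        simp only [hy] at e6
        omega
      · have e4 := (abs_lt.1 e1).1
        have e5 : Real.log (Real.log n) < ((y ⌊t * (n : ℝ)⌋₊ + 1 + 1 : ℕ) : ℝ) := by
          have : Real.log (Real.log ((⌊t * n⌋₊ : ℕ) : ℝ)) < ((y ⌊t * (n : ℝ)⌋₊ : ℕ) : ℝ) + 1 :=
            Nat.lt_floor_add_one _
          push_cast; linarith
        have e6 : ⌊Real.log (Real.log (n : ℝ))⌋₊ < y ⌊t * (n : ℝ)⌋₊ + 1 + 1 := by
          apply (Nat.floor_lt' (by omega)).2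
          exact e5
        simp only [hy] at e6 ⊢
        omega
    have h3 : Tendsto (fun n : ℕ => 4 / (y n : ℝ)) atTop (𝓝 0) :=
      tendsto_const_nhds.div_atTop (tendsto_natCast_atTop_atTop.comp hyt)
    have h4 : Tendsto (fun n : ℕ => V {0, g} (y ⌊t * (n : ℝ)⌋₊) / V {0, g} (y n) - 1) atTop (𝓝 0) :=
      squeeze_zero_norm' (h2.mono fun n hn => by rw [Real.norm_eq_abs]; exact hn) h3
    have h5 := h4.add_const 1
    rw [zero_add] at h5
    exact h5.congr fun n => by ring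
  have h6 := h1.mul hB
  rw [mul_one, ← Real.rpow_two] at h6
  refine h6.congr' ?_
  filter_upwards [eventually_ge_atTop 1] with n hn
  have hn0 : (0 : ℝ) < n := by exact_mod_cast (by omega : 0 < n)
  have hV := V_pos g hg (y n)
  unfold ff
  simp only [hy] at hV ⊢
  field_simp

/-- the pair counting function tends to infinity -/
theorem pairs_atTop (g : ℕ) (hg : g = 2 ∨ g = 4 ∨ g = 6) :
    Tendsto (fun n : ℕ => #(Tset' g n)) atTop atTop := by
  have hg2 : 2 ∣ g := by rcases hg with rfl | rfl | rfl <;> norm_num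
  have h1 := main_tendsto g hg
  have h2 : ∀ᶠ n : ℕ in atTop, 1 / 2 < (#(Tset' g n) : ℝ) / ff g n :=
    h1.eventually_const_lt (by norm_num)
  obtain ⟨c, hc, hVl⟩ := V_lower {0, g} card_le_two (by
    intro g' hg'
    rw [mem_insert, mem_singleton] at hg'
    rcases hg' with rfl | rfl
    · exact dvd_zero 2
    · exact hg2)
  have hyt : Tendsto (fun n : ℕ => ⌊Real.log (Real.log (n : ℝ))⌋₊) atTop atTop :=
    tendsto_nat_floor_atTop.comp tendsto_loglog
  have h3 : ∀ᶠ n : ℕ in atTop, c * (n : ℝ) ≤ #(Tset' g n) := by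
    filter_upwards [h2, hyt.eventually_ge_atTop 3, ev_loglog 1, ev_log 1, eventually_ge_atTop 1]
      with n e1 e2 e3 e4 e5
    have hn0 : (0 : ℝ) < n := by exact_mod_cast (by omega : 0 < n)
    have hf0 : 0 < ff g n := by
      unfold ff
      have := V_pos g hg2 ⌊Real.log (Real.log (n : ℝ))⌋₊
      positivity
    rw [lt_div_iff₀ hf0] at e1
    have e6 := hVl _ e2
    have e7 : (Real.log ((⌊Real.log (Real.log (n : ℝ))⌋₊ : ℕ) : ℝ)) ^ 2 ≤ n := by
      have a0 : 0 < Real.log ((⌊Real.log (Real.log (n : ℝ))⌋₊ : ℕ) : ℝ) :=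
        Real.log_pos (by exact_mod_cast (by omega : 1 < ⌊Real.log (Real.log (n : ℝ))⌋₊))
      have a1 : ((⌊Real.log (Real.log (n : ℝ))⌋₊ : ℕ) : ℝ) ≤ Real.log (Real.log n) :=
        Nat.floor_le (by linarith)
      have a2 : Real.log ((⌊Real.log (Real.log (n : ℝ))⌋₊ : ℕ) : ℝ) ≤ Real.log (Real.log n) := by
        have := Real.log_le_sub_one_of_pos (show (0 : ℝ) < ((⌊Real.log (Real.log (n : ℝ))⌋₊ : ℕ) : ℝ) by
          exact_mod_cast (by omega : 0 < ⌊Real.log (Real.log (n : ℝ))⌋₊))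
        linarith
      set u := Real.log (Real.log (n : ℝ)) with hu
      have a3 : u ^ 2 / 2 ≤ Real.exp u := by
        have := Real.quadratic_le_exp_of_nonneg (show 0 ≤ u by linarith)
        linarith
      have a4 : Real.exp u = Real.log n := Real.exp_log (by linarith)
      have a5 : Real.log (n : ℝ) ≤ n / 2 := by
        have b1 := Real.log_le_sub_one_of_pos (show (0 : ℝ) < n / 2 by positivity)
        rw [Real.log_div hn0.ne' (by norm_num)] at b1
        have b2 : Real.log 2 ≤ 1 := by have := Real.log_two_lt_d9; linarith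
        linarith
      calc (Real.log ((⌊u⌋₊ : ℕ) : ℝ)) ^ 2 ≤ u ^ 2 := pow_le_pow_left₀ a0.le a2 2
        _ ≤ n := by linarith
    have e8 : c / n ≤ V {0, g} ⌊Real.log (Real.log (n : ℝ))⌋₊ := by
      refine le_trans ?_ e6
      apply div_le_div_of_nonneg_left hc.le _ e7
      have a0 : 0 < Real.log ((⌊Real.log (Real.log (n : ℝ))⌋₊ : ℕ) : ℝ) :=
        Real.log_pos (by exact_mod_cast (by omega : 1 < ⌊Real.log (Real.log (n : ℝ))⌋₊))
      positivity
    have e9 : 3 * (n : ℝ) ^ 2 * (c / n) ≤ ff g n := by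
      unfold ff
      exact mul_le_mul_of_nonneg_left e8 (by positivity)
    have e10 : 3 * (n : ℝ) ^ 2 * (c / n) = 3 * (c * n) := by field_simp
    rw [e10] at e9
    have : 0 < c * n := by positivity
    linarith
  have h4 : Tendsto (fun n : ℕ => c * (n : ℝ)) atTop atTop :=
    tendsto_natCast_atTop_atTop.const_mul_atTop hc
  have h5 : Tendsto (fun n : ℕ => (#(Tset' g n) : ℝ)) atTop atTop := tendsto_atTop_mono' _ h3 h4
  exact tendsto_natCast_atTop_iff.1 h5

/-- the `j`-th cyclic number (counted from `0`) -/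
noncomputable def cyc (j : ℕ) : ℕ := Nat.nth IsCyc j

theorem cyc_inf : (Set.ofPred IsCyc).Infinite := by
  apply Nat.infinite_setOfPred_prime.mono
  intro p hp
  have hp' : p.Prime := hp
  refine ⟨hp'.pos, ?_⟩
  rw [Nat.totient_prime hp', Nat.Prime.coprime_iff_not_dvd hp']
  intro h
  have := Nat.le_of_dvd (by have := hp'.two_le; omega) h
  have := hp'.two_le
  omega

theorem ncard_pairs (g n : ℕ) (hg : 0 < g) :
    {j : ℕ | n ^ 3 < cyc j ∧ cyc (j + 1) < (n + 1) ^ 3 ∧ cyc (j + 1) - cyc j = g}.ncard =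
      #(Tset' g n) := by
  classical
  have hmono : StrictMono cyc := Nat.nth_strictMono cyc_inf
  have himg : cyc '' {j : ℕ | n ^ 3 < cyc j ∧ cyc (j + 1) < (n + 1) ^ 3 ∧ cyc (j + 1) - cyc j = g} =
      (Tset' g n : Set ℕ) := by
    ext m
    constructor
    · rintro ⟨j, ⟨h1, h2, h3⟩, rfl⟩
      have h4 : cyc j < cyc (j + 1) := hmono (Nat.lt_succ_self j)
      have h5 : cyc j + g = cyc (j + 1) := by omega
      rw [mem_coe]
      unfold Tset'
      rw [mem_filter, mem_II, h5, mem_II]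
      refine ⟨⟨h1, by omega⟩, ⟨by omega, h2⟩, Nat.nth_mem_of_infinite cyc_inf j,
        Nat.nth_mem_of_infinite cyc_inf (j + 1), ?_⟩
      intro k hk1 hk2 hk
      have h6 : cyc (Nat.count IsCyc k) = k := Nat.nth_count hk
      rw [← h6] at hk1 hk2
      have h7 := hmono.lt_iff_lt.1 hk1
      have h8 := hmono.lt_iff_lt.1 hk2
      omega
    · intro hm
      rw [mem_coe] at hm
      unfold Tset' at hm
      rw [mem_filter, mem_II, mem_II] at hm
      obtain ⟨⟨h1, _⟩, ⟨_, h2⟩, h3, h4, h5⟩ := hm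
      have h6 : cyc (Nat.count IsCyc m) = m := Nat.nth_count h3
      set j := Nat.count IsCyc m with hj
      have h7 : cyc (Nat.count IsCyc (m + g)) = m + g := Nat.nth_count h4
      set i := Nat.count IsCyc (m + g) with hi
      have h8 : j < i := hmono.lt_iff_lt.1 (by rw [h6, h7]; omega)
      have h9 : cyc (j + 1) ≤ m + g := by
        rw [← h7]; exact hmono.monotone h8
      have h10 : m < cyc (j + 1) := by
        rw [← h6]; exact hmono (Nat.lt_succ_self j)
      have h11 : cyc (j + 1) = m + g := by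
        by_contra hne
        exact h5 (cyc (j + 1)) h10 (by omega) (Nat.nth_mem_of_infinite cyc_inf (j + 1))
      exact ⟨j, ⟨by rw [h6]; exact h1, by rw [h11]; exact h2, by rw [h11, h6]; omega⟩, h6⟩
  rw [← Set.ncard_coe_finset, ← himg, Set.ncard_image_of_injective _ hmono.injective]

end Pool.Agent.Q43.Cyc
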