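import Pool.Agent.Q43.Cyc.Base
import Pool.Agent.Helper601.BT

set_option autoImplicit false

namespace Pool.Agent.Q43.Cyc

open Finset Filter

/-- number of integers strictly between `n ^ 3` and `(n + 1) ^ 3` -/
def HH (n : ℕ) : ℕ := 3 * n ^ 2 + 3 * n

/-- the integers strictly between `n ^ 3` and `(n + 1) ^ 3` -/
noncomputable def II (n : ℕ) : Finset ℕ := Ico (n ^ 3 + 1) (n ^ 3 + 1 + HH n)

theorem mem_II {n m : ℕ} : m ∈ II n ↔ n ^ 3 < m ∧ m < (n + 1) ^ 3 := by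
  unfold II HH
  rw [mem_Ico]
  have : (n + 1) ^ 3 = n ^ 3 + 1 + (3 * n ^ 2 + 3 * n) := by ring
  rw [this]
  constructor <;> intro h <;> omega

theorem count_multiples {d : ℕ} (hd : 0 < d) (a H : ℕ) :
    (#{m ∈ Ico a (a + H) | d ∣ m} : ℝ) ≤ H / d + 1 := by
  have h : #{m ∈ Ico a (a + H) | d ∣ m} ≤ H / d + 1 := by
    rw [← card_range (H / d + 1)]
    apply card_le_card_of_injOn (fun m => (m - a) / d)
    · intro m hm
      rw [mem_coe, mem_filter, mem_Ico] at hm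
      rw [mem_coe, mem_range]
      apply Nat.lt_succ_of_le
      apply Nat.div_le_div_right
      omega
    · intro m hm m' hm' h
      rw [mem_coe, mem_filter, mem_Ico] at hm hm'
      simp only at h
      have e1 := Nat.div_add_mod (m - a) d
      have e2 := Nat.div_add_mod (m' - a) d
      have e3 := Nat.mod_lt (m - a) hd
      have e4 := Nat.mod_lt (m' - a) hd
      rw [h] at e1
      obtain ⟨k, hk⟩ := hm.2
      obtain ⟨k', hk'⟩ := hm'.2
      rcases lt_trichotomy m m' with hlt | heq | hlt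
      · exfalso
        have : m' - m < d := by omega
        have h5 : d ∣ m' - m := Nat.dvd_sub hm'.2 hm.2
        have := Nat.le_of_dvd (by omega) h5
        omega
      · exact heq
      · exfalso
        have : m - m' < d := by omega
        have h5 : d ∣ m - m' := Nat.dvd_sub hm.2 hm'.2
        have := Nat.le_of_dvd (by omega) h5
        omega
  have h2 : (#{m ∈ Ico a (a + H) | d ∣ m} : ℝ) ≤ ((H / d : ℕ) : ℝ) + 1 := by exact_mod_cast h
  have := @Nat.cast_div_le ℝ _ _ _ H d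
  linarith

theorem sum_inv_sq (Y X : ℕ) (hY : 1 ≤ Y) : ∑ p ∈ Ioc Y X, (1 : ℝ) / (p : ℝ) ^ 2 ≤ 1 / Y := by
  rcases le_or_gt Y X with h | h
  · calc ∑ p ∈ Ioc Y X, (1 : ℝ) / (p : ℝ) ^ 2 = ∑ p ∈ Ioc Y X, ((p : ℝ) ^ 2)⁻¹ := by
          apply sum_congr rfl; intro p _; rw [one_div]
      _ ≤ (Y : ℝ)⁻¹ - (X : ℝ)⁻¹ := sum_Ioc_inv_sq_le_sub (by omega) h
      _ ≤ 1 / Y := by
          have : 0 ≤ (X : ℝ)⁻¹ := by positivity
          rw [one_div]; linarith
  · rw [Ioc_eq_empty (by omega), sum_empty]; positivity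

theorem sum_inv (n : ℕ) : ∑ r ∈ Icc 1 n, (1 : ℝ) / r ≤ 1 + Real.log n := by
  have h := harmonic_le_one_add_log n
  have e : ((harmonic n : ℚ) : ℝ) = ∑ r ∈ Icc 1 n, (1 : ℝ) / r := by
    rw [harmonic_eq_sum_Icc]
    push_cast
    apply sum_congr rfl
    intro r _
    rw [one_div]
  rw [← e]; exact h

theorem sum_inv_sqrt (n : ℕ) : ∑ r ∈ Icc 1 n, (1 : ℝ) / Real.sqrt r ≤ 2 * Real.sqrt n := by
  induction n with
  | zero => simp
  | succ n ih =>
    rw [sum_Icc_succ_top (by omega)]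
    have h1 : (1 : ℝ) / Real.sqrt ((n + 1 : ℕ) : ℝ) ≤
        2 * (Real.sqrt ((n + 1 : ℕ) : ℝ) - Real.sqrt n) := by
      have hn : (0 : ℝ) ≤ n := Nat.cast_nonneg _
      have hs1 : 0 < Real.sqrt ((n + 1 : ℕ) : ℝ) := Real.sqrt_pos.2 (by positivity)
      have hs0 : 0 ≤ Real.sqrt (n : ℝ) := Real.sqrt_nonneg _
      have e1 : Real.sqrt ((n + 1 : ℕ) : ℝ) ^ 2 = n + 1 := by
        rw [Real.sq_sqrt (by positivity)]; push_cast; ring
      have e2 : Real.sqrt (n : ℝ) ^ 2 = n := Real.sq_sqrt hn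
      rw [div_le_iff₀ hs1]
      nlinarith [sq_nonneg (Real.sqrt ((n + 1 : ℕ) : ℝ) - Real.sqrt n)]
    linarith

/-- the dyadic estimate -/
theorem dyadic {C0 : ℝ} (hC0 : 1 ≤ C0) (hBT : ∀ (a q N : ℕ), 2 ≤ N → (q = 1 ∨ q.Prime) →
    (((Finset.range N).filter (fun k => (a + k * q).Prime)).card : ℝ) ≤ C0 * N / Real.log N)
    {p : ℕ} (hp : p.Prime) (K : ℕ) :
    ∑ k ∈ Icc 1 K with (1 + k * p).Prime, (1 : ℝ) / k ≤
      (2 * C0 / Real.log 2) * (1 + Real.log ((Nat.log 2 K + 1 : ℕ) : ℝ)) := by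
  classical
  have hl2 : 0 < Real.log 2 := Real.log_pos (by norm_num)
  set J := Nat.log 2 K with hJ
  have hmap : ∀ k ∈ {k ∈ Icc 1 K | (1 + k * p).Prime}, Nat.log 2 k ∈ range (J + 1) := by
    intro k hk
    rw [mem_filter, mem_Icc] at hk
    rw [mem_range]
    have := Nat.log_mono_right (b := 2) hk.1.2
    omega
  rw [← sum_fiberwise_of_maps_to hmap]
  have hterm : ∀ j ∈ range (J + 1), ∑ k ∈ {k ∈ Icc 1 K | (1 + k * p).Prime} with Nat.log 2 k = j,
      (1 : ℝ) / k ≤ (2 * C0 / Real.log 2) * (1 / ((j + 1 : ℕ) : ℝ)) := by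
    intro j _
    have h1 : ∀ k ∈ {k ∈ {k ∈ Icc 1 K | (1 + k * p).Prime} | Nat.log 2 k = j},
        (1 : ℝ) / k ≤ 1 / 2 ^ j := by
      intro k hk
      rw [mem_filter, mem_filter, mem_Icc] at hk
      apply one_div_le_one_div_of_le (by positivity)
      have : 2 ^ j ≤ k := by
        rw [← hk.2]
        exact Nat.pow_log_le_self 2 (by omega)
      exact_mod_cast this
    refine (sum_le_sum h1).trans ?_
    rw [sum_const, nsmul_eq_mul]
    have h2 : (#{k ∈ {k ∈ Icc 1 K | (1 + k * p).Prime} | Nat.log 2 k = j} : ℝ) ≤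
        C0 * ((2 ^ (j + 1) : ℕ) : ℝ) / Real.log ((2 ^ (j + 1) : ℕ) : ℝ) := by
      refine le_trans ?_ (hBT 1 p (2 ^ (j + 1)) (by
        calc 2 = 2 ^ 1 := by norm_num
          _ ≤ 2 ^ (j + 1) := Nat.pow_le_pow_right (by norm_num) (by omega)) (Or.inr hp))
      rw [Nat.cast_le]
      apply card_le_card
      intro k hk
      rw [mem_filter, mem_filter, mem_Icc] at hk
      rw [mem_filter, mem_range]
      refine ⟨?_, hk.1.2⟩
      rw [← hk.2]
      exact Nat.lt_pow_succ_log_self (by norm_num) k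
    have h3 : Real.log ((2 ^ (j + 1) : ℕ) : ℝ) = ((j + 1 : ℕ) : ℝ) * Real.log 2 := by
      push_cast
      rw [Real.log_pow]; push_cast; ring
    rw [h3] at h2
    calc (#{k ∈ {k ∈ Icc 1 K | (1 + k * p).Prime} | Nat.log 2 k = j} : ℝ) * (1 / 2 ^ j)
        ≤ (C0 * ((2 ^ (j + 1) : ℕ) : ℝ) / (((j + 1 : ℕ) : ℝ) * Real.log 2)) * (1 / 2 ^ j) :=
          mul_le_mul_of_nonneg_right h2 (by positivity)
      _ = _ := by
          push_cast
          rw [pow_succ]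
          field_simp
  refine (sum_le_sum hterm).trans ?_
  rw [← mul_sum]
  apply mul_le_mul_of_nonneg_left _ (by positivity)
  have h4 : ∑ j ∈ range (J + 1), (1 : ℝ) / ((j + 1 : ℕ) : ℝ) = ∑ r ∈ Icc 1 (J + 1), (1 : ℝ) / r := by
    rw [range_eq_Ico, sum_Ico_add' (fun r : ℕ => (1 : ℝ) / (r : ℝ)) 0 (J + 1) 1]
    apply sum_congr _ (fun _ _ => rfl)
    ext r
    rw [mem_Ico, mem_Icc]
    omega
  rw [h4]
  exact sum_inv (J + 1)

open Classical in
/-- part (i): squares -/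
noncomputable def Ai (n Y : ℕ) : Finset ℕ := {m ∈ II n | ∃ p : ℕ, p.Prime ∧ Y < p ∧ p ^ 2 ∣ m}

open Classical in
/-- part (ii)A -/
noncomputable def Aa (n Y : ℕ) : Finset ℕ := {m ∈ II n | ∃ p k : ℕ, p.Prime ∧ Y < p ∧ 1 ≤ k ∧
  (1 + k * p).Prime ∧ p * (1 + k * p) ∣ m ∧ p * (1 + k * p) ≤ HH n}

open Classical in
/-- part (ii)B -/
noncomputable def Ab (n Y : ℕ) : Finset ℕ := {m ∈ II n | ∃ r p k : ℕ, 1 ≤ r ∧ r ≤ n ∧ p.Prime ∧
  Y < p ∧ 1 ≤ k ∧ (1 + k * p).Prime ∧ m = r * p * (1 + k * p)}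

open Classical in
noncomputable def RoughSet (n Y : ℕ) : Finset ℕ :=
  {m ∈ II n | (∀ p : ℕ, p.Prime → p ∣ m → Y < p) ∧ ¬ IsCyc m}

theorem rough_cover (n Y : ℕ) (hn : 1 ≤ n) : RoughSet n Y ⊆ Ai n Y ∪ (Aa n Y ∪ Ab n Y) := by
  classical
  intro m hm
  unfold RoughSet at hm
  rw [mem_filter] at hm
  obtain ⟨hmI, hr, hnc⟩ := hm
  have hmI' := mem_II.1 hmI
  rcases exists_of_not_cyc (by omega) hnc with ⟨p, hp, hpp⟩ | ⟨p, q, hp, hq, hpm, hqm, hpq⟩
  · apply mem_union_left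
    unfold Ai
    rw [mem_filter]
    exact ⟨hmI, p, hp, hr p hp ((Dvd.intro_left (p ^ 1) (by ring)).trans hpp), hpp⟩
  · apply mem_union_right
    obtain ⟨k, hk⟩ := hpq
    have hq2 := hq.two_le
    have hqe : q = 1 + k * p := by
      rw [mul_comm k p]; omega
    have hk1 : 1 ≤ k := by
      rcases Nat.eq_zero_or_pos k with h | h
      · subst h; omega
      · exact h
    have hYp := hr p hp hpm
    have hne : p ≠ q := by
      intro h
      rw [← h] at hk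
      have h1 : p ∣ p - 1 := ⟨k, hk⟩
      have := Nat.le_of_dvd (by omega) h1
      omega
    have hpqm : p * q ∣ m := ((Nat.coprime_primes hp hq).2 hne).mul_dvd_of_dvd_of_dvd hpm hqm
    by_cases hle : p * q ≤ HH n
    · apply mem_union_left
      unfold Aa
      rw [mem_filter]
      refine ⟨hmI, p, k, hp, hYp, hk1, ?_, ?_, ?_⟩
      · rw [← hqe]; exact hq
      · rw [← hqe]; exact hpqm
      · rw [← hqe]; exact hle
    · apply mem_union_right
      unfold Ab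
      rw [mem_filter]
      obtain ⟨r, hr'⟩ := hpqm
      refine ⟨hmI, r, p, k, ?_, ?_, hp, hYp, hk1, ?_, ?_⟩
      · rcases Nat.eq_zero_or_pos r with h | h
        · subst h; omega
        · exact h
      · by_contra hlt
        push Not at hlt hle
        have h1 : HH n * (n + 1) ≤ m := by
          rw [hr']
          exact Nat.mul_le_mul hle.le hlt
        have h2 : (n + 1) ^ 3 ≤ HH n * (n + 1) := by
          unfold HH
          nlinarith
        omega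
      · rw [← hqe]; exact hq
      · rw [← hqe, hr']; ring

theorem Ai_bound (n Y : ℕ) (hY : 1 ≤ Y) :
    (#(Ai n Y) : ℝ) ≤ HH n / Y + Nat.sqrt ((n + 1) ^ 3) := by
  classical
  set M1 := Nat.sqrt ((n + 1) ^ 3) with hM1
  have hsub : Ai n Y ⊆ (Ioc Y M1).biUnion (fun p => {m ∈ II n | p ^ 2 ∣ m}) := by
    intro m hm
    unfold Ai at hm
    rw [mem_filter] at hm
    obtain ⟨hmI, p, hp, hYp, hpp⟩ := hm
    have hmI' := mem_II.1 hmI
    rw [mem_biUnion]
    refine ⟨p, ?_, mem_filter.2 ⟨hmI, hpp⟩⟩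
    rw [mem_Ioc]
    refine ⟨hYp, ?_⟩
    rw [hM1, Nat.le_sqrt']
    exact (Nat.le_of_dvd (by omega) hpp).trans hmI'.2.le
  calc (#(Ai n Y) : ℝ) ≤ ((∑ p ∈ Ioc Y M1, #{m ∈ II n | p ^ 2 ∣ m} : ℕ) : ℝ) := by
        exact_mod_cast (card_le_card hsub).trans card_biUnion_le
    _ = ∑ p ∈ Ioc Y M1, (#{m ∈ II n | p ^ 2 ∣ m} : ℝ) := by push_cast; rfl
    _ ≤ ∑ p ∈ Ioc Y M1, ((HH n : ℝ) * (1 / (p : ℝ) ^ 2) + 1) := by
        apply sum_le_sum
        intro p hp
        rw [mem_Ioc] at hp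
        have := count_multiples (d := p ^ 2) (by have : 0 < p := by omega
                                                 positivity) (n ^ 3 + 1) (HH n)
        unfold II
        refine this.trans (le_of_eq ?_)
        push_cast; ring
    _ = (HH n : ℝ) * ∑ p ∈ Ioc Y M1, (1 / (p : ℝ) ^ 2) + #(Ioc Y M1) := by
        rw [sum_add_distrib, ← mul_sum, sum_const, nsmul_eq_mul, mul_one]
    _ ≤ (HH n : ℝ) * (1 / Y) + M1 := by
        apply add_le_add
        · exact mul_le_mul_of_nonneg_left (sum_inv_sq Y M1 hY) (Nat.cast_nonneg _)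
        · rw [Nat.card_Ioc]
          exact_mod_cast Nat.sub_le _ _
    _ = _ := by ring

theorem Aa_bound {C0 : ℝ} (hC0 : 1 ≤ C0) (hBT : ∀ (a q N : ℕ), 2 ≤ N → (q = 1 ∨ q.Prime) →
    (((Finset.range N).filter (fun k => (a + k * q).Prime)).card : ℝ) ≤ C0 * N / Real.log N)
    (n Y : ℕ) (hn : 1 ≤ n) (hY : 1 ≤ Y) :
    (#(Aa n Y) : ℝ) ≤ 2 * HH n * ((2 * C0 / Real.log 2) *
      (1 + Real.log ((Nat.log 2 (HH n) + 1 : ℕ) : ℝ))) / Y := by
  classical
  have hH1 : 1 ≤ HH n := by unfold HH; nlinarith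
  set E : ℝ := (2 * C0 / Real.log 2) * (1 + Real.log ((Nat.log 2 (HH n) + 1 : ℕ) : ℝ)) with hE
  set Ks : ℕ → Finset ℕ := fun p => {k ∈ Icc 1 (HH n) | (1 + k * p).Prime} with hKs
  have hsub : Aa n Y ⊆ ((Ioc Y (HH n)).filter Nat.Prime).biUnion (fun p =>
      ((Ks p).filter (fun k => p * (1 + k * p) ≤ HH n)).biUnion
        (fun k => {m ∈ II n | p * (1 + k * p) ∣ m})) := by
    intro m hm
    unfold Aa at hm
    rw [mem_filter] at hm
    obtain ⟨hmI, p, k, hp, hYp, hk1, hqp, hd, hle⟩ := hm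
    have hp0 := hp.pos
    rw [mem_biUnion]
    refine ⟨p, ?_, ?_⟩
    · rw [mem_filter, mem_Ioc]
      refine ⟨⟨hYp, ?_⟩, hp⟩
      nlinarith [Nat.zero_le (k * p)]
    · rw [mem_biUnion]
      refine ⟨k, ?_, mem_filter.2 ⟨hmI, hd⟩⟩
      rw [mem_filter]
      simp only [hKs, mem_filter, mem_Icc]
      refine ⟨⟨⟨hk1, ?_⟩, hqp⟩, hle⟩
      have h1 : k ≤ k * p := Nat.le_mul_of_pos_right k hp0
      have h2 : k * p ≤ p * (1 + k * p) := by nlinarith
      omega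
  have hterm : ∀ p ∈ (Ioc Y (HH n)).filter Nat.Prime,
      ∑ k ∈ (Ks p).filter (fun k => p * (1 + k * p) ≤ HH n),
        (#{m ∈ II n | p * (1 + k * p) ∣ m} : ℝ) ≤ 2 * HH n * E * (1 / (p : ℝ) ^ 2) := by
    intro p hp
    rw [mem_filter, mem_Ioc] at hp
    have hpp := hp.2
    have hp0 : (0 : ℝ) < p := by exact_mod_cast hpp.pos
    have h1 : ∀ k ∈ (Ks p).filter (fun k => p * (1 + k * p) ≤ HH n),
        (#{m ∈ II n | p * (1 + k * p) ∣ m} : ℝ) ≤ 2 * HH n * (1 / (p : ℝ) ^ 2) * (1 / k) := by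
      intro k hk
      rw [mem_filter] at hk
      simp only [hKs, mem_filter, mem_Icc] at hk
      obtain ⟨⟨⟨hk1, _⟩, _⟩, hle⟩ := hk
      have hk0 : (0 : ℝ) < k := by exact_mod_cast hk1
      have hd0 : 0 < p * (1 + k * p) := Nat.mul_pos hpp.pos (by omega)
      have hd0' : (0 : ℝ) < ((p * (1 + k * p) : ℕ) : ℝ) := by exact_mod_cast hd0
      have h2 := count_multiples hd0 (n ^ 3 + 1) (HH n)
      have h3 : (1 : ℝ) ≤ (HH n : ℝ) / ((p * (1 + k * p) : ℕ) : ℝ) := by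
        rw [le_div_iff₀ hd0', one_mul]
        exact_mod_cast hle
      have h4 : (HH n : ℝ) / ((p * (1 + k * p) : ℕ) : ℝ) ≤ HH n * (1 / (p : ℝ) ^ 2) * (1 / k) := by
        have e : (HH n : ℝ) * (1 / (p : ℝ) ^ 2) * (1 / k) = HH n / ((p : ℝ) ^ 2 * k) := by
          field_simp
        rw [e]
        apply div_le_div_of_nonneg_left (Nat.cast_nonneg _) (by positivity)
        push_cast
        nlinarith
      unfold II
      calc (#{m ∈ Ico (n ^ 3 + 1) (n ^ 3 + 1 + HH n) | p * (1 + k * p) ∣ m} : ℝ)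
          ≤ (HH n : ℝ) / ((p * (1 + k * p) : ℕ) : ℝ) + 1 := h2
        _ ≤ 2 * ((HH n : ℝ) / ((p * (1 + k * p) : ℕ) : ℝ)) := by linarith
        _ ≤ 2 * (HH n * (1 / (p : ℝ) ^ 2) * (1 / k)) := by linarith
        _ = _ := by ring
    refine (sum_le_sum h1).trans ?_
    rw [← mul_sum]
    have h5 : ∑ k ∈ (Ks p).filter (fun k => p * (1 + k * p) ≤ HH n), (1 : ℝ) / k ≤ E := by
      refine le_trans ?_ (dyadic hC0 hBT hpp (HH n))
      apply sum_le_sum_of_subset_of_nonneg (filter_subset _ _)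
      intro k _ _; positivity
    calc 2 * (HH n : ℝ) * (1 / (p : ℝ) ^ 2) *
        ∑ k ∈ (Ks p).filter (fun k => p * (1 + k * p) ≤ HH n), (1 : ℝ) / k
        ≤ 2 * (HH n : ℝ) * (1 / (p : ℝ) ^ 2) * E := mul_le_mul_of_nonneg_left h5 (by positivity)
      _ = _ := by ring
  have hE0 : 0 ≤ E := by
    have hl2 : 0 < Real.log 2 := Real.log_pos (by norm_num)
    have : 0 ≤ Real.log ((Nat.log 2 (HH n) + 1 : ℕ) : ℝ) := Real.log_natCast_nonneg _
    positivity
  calc (#(Aa n Y) : ℝ) ≤ ((∑ p ∈ (Ioc Y (HH n)).filter Nat.Prime,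
        ∑ k ∈ (Ks p).filter (fun k => p * (1 + k * p) ≤ HH n), #{m ∈ II n | p * (1 + k * p) ∣ m} : ℕ) : ℝ) := by
        rw [Nat.cast_le]
        refine (card_le_card hsub).trans (card_biUnion_le.trans ?_)
        apply sum_le_sum
        intro p _
        exact card_biUnion_le
    _ = ∑ p ∈ (Ioc Y (HH n)).filter Nat.Prime,
        ∑ k ∈ (Ks p).filter (fun k => p * (1 + k * p) ≤ HH n),
          (#{m ∈ II n | p * (1 + k * p) ∣ m} : ℝ) := by push_cast; rfl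
    _ ≤ ∑ p ∈ (Ioc Y (HH n)).filter Nat.Prime, 2 * HH n * E * (1 / (p : ℝ) ^ 2) := sum_le_sum hterm
    _ ≤ ∑ p ∈ Ioc Y (HH n), 2 * HH n * E * (1 / (p : ℝ) ^ 2) := by
        apply sum_le_sum_of_subset_of_nonneg (filter_subset _ _)
        intro p _ _; positivity
    _ = 2 * HH n * E * ∑ p ∈ Ioc Y (HH n), (1 / (p : ℝ) ^ 2) := by rw [mul_sum]
    _ ≤ 2 * HH n * E * (1 / Y) := mul_le_mul_of_nonneg_left (sum_inv_sq Y _ hY) (by positivity)
    _ = _ := by ring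

end Pool.Agent.Q43.Cyc
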