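import Pool.Agent.Q43.Cyc.Rough

set_option autoImplicit false

namespace Pool.Agent.Q43.Cyc

open Finset Filter

theorem count_cong {d : ℕ} (hd : 0 < d) (a H : ℕ) (S : Finset ℕ) (hS : S ⊆ Ico a (a + H))
    (hdiff : ∀ m ∈ S, ∀ m' ∈ S, m ≤ m' → d ∣ m' - m) : #S ≤ H / d + 1 := by
  rw [← card_range (H / d + 1)]
  apply card_le_card_of_injOn (fun m => (m - a) / d)
  · intro m hm
    have := mem_Ico.1 (hS hm)
    rw [mem_coe, mem_range]
    apply Nat.lt_succ_of_le
    apply Nat.div_le_div_right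
    omega
  · intro m hm m' hm' h
    have h1 := mem_Ico.1 (hS hm)
    have h2 := mem_Ico.1 (hS hm')
    simp only at h
    have e1 := Nat.div_add_mod (m - a) d
    have e2 := Nat.div_add_mod (m' - a) d
    have e3 := Nat.mod_lt (m - a) hd
    have e4 := Nat.mod_lt (m' - a) hd
    rw [h] at e1
    rcases lt_trichotomy m m' with hlt | heq | hlt
    · exfalso
      have : m' - m < d := by omega
      have h5 := hdiff m hm m' hm' hlt.le
      have := Nat.le_of_dvd (by omega) h5
      omega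
    · exact heq
    · exfalso
      have : m - m' < d := by omega
      have h5 := hdiff m' hm' m hm hlt.le
      have := Nat.le_of_dvd (by omega) h5
      omega

open Classical in
noncomputable def Tset (n r p : ℕ) : Finset ℕ :=
  {m ∈ II n | ∃ k : ℕ, 1 ≤ k ∧ (1 + k * p).Prime ∧ m = r * p * (1 + k * p)}

theorem mem_Tset {n r p m : ℕ} : m ∈ Tset n r p ↔ m ∈ II n ∧
    ∃ k : ℕ, 1 ≤ k ∧ (1 + k * p).Prime ∧ m = r * p * (1 + k * p) := by
  classical
  unfold Tset
  rw [mem_filter]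

theorem Tset_le {n r p : ℕ} (hr : 0 < r) (hp : 0 < p) : #(Tset n r p) ≤ HH n / (r * p ^ 2) + 1 := by
  apply count_cong (by positivity) (n ^ 3 + 1) (HH n)
  · intro m hm
    exact (mem_Tset.1 hm).1
  · intro m hm m' hm' hle
    obtain ⟨_, k, _, _, hk⟩ := mem_Tset.1 hm
    obtain ⟨_, k', _, _, hk'⟩ := mem_Tset.1 hm'
    have h1 : m = r * p + r * p ^ 2 * k := by rw [hk]; ring
    have h2 : m' = r * p + r * p ^ 2 * k' := by rw [hk']; ring
    have h3 : m' - m = r * p ^ 2 * (k' - k) := by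
      rw [h1, h2, Nat.mul_sub]; omega
    rw [h3]
    exact Dvd.intro _ rfl

theorem Tset_BT {C0 : ℝ} (hC0 : 1 ≤ C0) (hBT : ∀ (a q N : ℕ), 2 ≤ N → (q = 1 ∨ q.Prime) →
    (((Finset.range N).filter (fun k => (a + k * q).Prime)).card : ℝ) ≤ C0 * N / Real.log N)
    {n r p : ℕ} (hr : 0 < r) (hp : p.Prime) (hN : 2 ≤ HH n / (r * p ^ 2) + 1) :
    (#(Tset n r p) : ℝ) ≤ C0 * ((HH n / (r * p ^ 2) + 1 : ℕ) : ℝ) /
      Real.log ((HH n / (r * p ^ 2) + 1 : ℕ) : ℝ) := by
  classical
  set N := HH n / (r * p ^ 2) + 1 with hNdef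
  by_cases hex : ∃ k : ℕ, r * p * (1 + k * p) ∈ II n
  · set k0 := Nat.find hex with hk0
    have hk0m : r * p * (1 + k0 * p) ∈ II n := Nat.find_spec hex
    refine le_trans ?_ (hBT (1 + k0 * p) p N hN (Or.inr hp))
    rw [Nat.cast_le]
    have hch : ∀ m : ℕ, ∃ k : ℕ, m ∈ Tset n r p → (1 ≤ k ∧ (1 + k * p).Prime ∧ m = r * p * (1 + k * p)) := by
      intro m
      by_cases hm : m ∈ Tset n r p
      · obtain ⟨_, k, hk⟩ := mem_Tset.1 hm
        exact ⟨k, fun _ => hk⟩
      · exact ⟨0, fun h => absurd h hm⟩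
    choose κ hκ using hch
    have hκ0 : ∀ m ∈ Tset n r p, k0 ≤ κ m := by
      intro m hm
      apply Nat.find_min'
      rw [← (hκ m hm).2.2]
      exact (mem_Tset.1 hm).1
    apply card_le_card_of_injOn (fun m => κ m - k0)
    · intro m hm
      have h1 := hκ m hm
      have h2 := hκ0 m hm
      rw [mem_coe, mem_filter, mem_range]
      constructor
      · have h3 := (mem_Tset.1 hm).1
        rw [h1.2.2] at h3
        unfold II at h3 hk0m
        rw [mem_Ico] at h3 hk0m
        have h4 : r * p * (1 + κ m * p) = r * p * (1 + k0 * p) + (κ m - k0) * (r * p ^ 2) := by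
          obtain ⟨t, ht⟩ := Nat.exists_eq_add_of_le h2
          rw [ht]
          have : k0 + t - k0 = t := by omega
          rw [this]; ring
        have h5 : (κ m - k0) * (r * p ^ 2) ≤ HH n := by omega
        have h6 : κ m - k0 ≤ HH n / (r * p ^ 2) := by
          rw [Nat.le_div_iff_mul_le (by have := hp.pos; positivity)]
          exact h5
        exact Nat.lt_succ_of_le h6
      · have e : 1 + k0 * p + (κ m - k0) * p = 1 + κ m * p := by
          obtain ⟨t, ht⟩ := Nat.exists_eq_add_of_le h2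
          rw [ht]
          have : k0 + t - k0 = t := by omega
          rw [this]; ring
        rw [e]
        exact h1.2.1
    · intro m hm m' hm' heq
      simp only at heq
      have h1 := hκ0 m hm
      have h2 := hκ0 m' hm'
      have h3 : κ m = κ m' := by omega
      rw [(hκ m hm).2.2, (hκ m' hm').2.2, h3]
  · have : Tset n r p = ∅ := by
      rw [Finset.eq_empty_iff_forall_notMem]
      intro m hm
      obtain ⟨h1, k, _, _, hk⟩ := mem_Tset.1 hm
      apply hex
      exact ⟨k, by rw [← hk]; exact h1⟩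
    rw [this]
    have h2 : (0 : ℝ) ≤ Real.log (N : ℝ) := Real.log_natCast_nonneg _
    simp only [card_empty, Nat.cast_zero]
    positivity

theorem Ab_bound {C0 : ℝ} (hC0 : 1 ≤ C0) (hBT : ∀ (a q N : ℕ), 2 ≤ N → (q = 1 ∨ q.Prime) →
    (((Finset.range N).filter (fun k => (a + k * q).Prime)).card : ℝ) ≤ C0 * N / Real.log N)
    (n Y Z : ℕ) (hn : 16 ≤ n) (hY : 1 ≤ Y) (hZ1 : 1 ≤ Z) (hZ : Z ^ 8 ≤ n) :
    (#(Ab n Y) : ℝ) ≤ 4 * C0 * HH n * (1 + Real.log n) / (Y * Real.log n) +
      HH n * (1 + Real.log n) / Z + 12 * C0 * (n : ℝ) ^ 2 / Real.log n := by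
  classical
  have hn1 : (16 : ℝ) ≤ n := by exact_mod_cast hn
  have hn0 : (0 : ℝ) < n := by linarith
  have hln : 1 ≤ Real.log n := by
    have h1 : Real.exp 1 ≤ n := by
      have := Real.exp_one_lt_d9
      linarith
    rw [← Real.log_exp 1]
    exact Real.log_le_log (Real.exp_pos _) h1
  have hln0 : 0 < Real.log n := by linarith
  set M := (n + 1) ^ 3 with hM
  set Ps : ℕ → Finset ℕ := fun r => {p ∈ Ioc Y M | p.Prime ∧ r * p ^ 2 < M} with hPs
  have hsub : Ab n Y ⊆ (Icc 1 n).biUnion (fun r => (Ps r).biUnion (fun p => Tset n r p)) := by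
    intro m hm
    unfold Ab at hm
    rw [mem_filter] at hm
    obtain ⟨hmI, r, p, k, hr1, hrn, hp, hYp, hk1, hqp, hme⟩ := hm
    have hmI' := mem_II.1 hmI
    have hp0 := hp.pos
    rw [mem_biUnion]
    refine ⟨r, mem_Icc.2 ⟨hr1, hrn⟩, mem_biUnion.2 ⟨p, ?_, mem_Tset.2 ⟨hmI, k, hk1, hqp, hme⟩⟩⟩
    simp only [hPs, mem_filter, mem_Ioc]
    have h1 : r * p ^ 2 < m := by
      rw [hme]
      have : p < 1 + k * p := by nlinarith
      have h2 : r * p * p < r * p * (1 + k * p) := Nat.mul_lt_mul_of_pos_left this (by positivity)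
      calc r * p ^ 2 = r * p * p := by ring
        _ < _ := h2
    refine ⟨⟨hYp, ?_⟩, hp, by omega⟩
    have h2 : p ≤ r * p ^ 2 := by
      calc p = 1 * p ^ 1 := by ring
        _ ≤ r * p ^ 2 := Nat.mul_le_mul hr1 (Nat.pow_le_pow_right hp0 (by norm_num))
    omega
  -- pointwise bound
  have hH : (HH n : ℝ) = 3 * (n : ℝ) ^ 2 + 3 * n := by unfold HH; push_cast; ring
  have hT : ∀ r ∈ Icc 1 n, ∀ p ∈ Ps r, (#(Tset n r p) : ℝ) ≤
      4 * C0 * HH n / Real.log n * (1 / r) * (1 / (p : ℝ) ^ 2) +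
      (if Z < p then (HH n : ℝ) * (1 / r) * (1 / (p : ℝ) ^ 2) else 0) + 1 * (if Z < p then 1 else 0) := by
    intro r hr p hp
    rw [mem_Icc] at hr
    simp only [hPs, mem_filter, mem_Ioc] at hp
    obtain ⟨⟨hYp, _⟩, hpp, _⟩ := hp
    have hr0 : (0 : ℝ) < r := by exact_mod_cast (by omega : 0 < r)
    have hp0 : (0 : ℝ) < p := by exact_mod_cast hpp.pos
    have hx : (HH n : ℝ) / ((r * p ^ 2 : ℕ) : ℝ) = HH n * (1 / r) * (1 / (p : ℝ) ^ 2) := by
      push_cast; field_simp
    by_cases hZp : Z < p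
    · rw [if_pos hZp, if_pos hZp]
      have h1 : (#(Tset n r p) : ℝ) ≤ ((HH n / (r * p ^ 2) : ℕ) : ℝ) + 1 := by
        exact_mod_cast Tset_le (n := n) (by omega : 0 < r) hpp.pos
      have h2 := @Nat.cast_div_le ℝ _ _ _ (HH n) (r * p ^ 2)
      rw [hx] at h2
      have h3 : 0 ≤ 4 * C0 * HH n / Real.log n * (1 / r) * (1 / (p : ℝ) ^ 2) := by positivity
      linarith
    · rw [if_neg hZp, if_neg hZp]
      set x : ℝ := (HH n : ℝ) / ((r * p ^ 2 : ℕ) : ℝ) with hxdef
      set N := HH n / (r * p ^ 2) + 1 with hN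
      have hden : (0 : ℝ) < ((r * p ^ 2 : ℕ) : ℝ) := by
        have := hpp.pos
        exact_mod_cast (by have : 0 < r := by omega
                           positivity : 0 < r * p ^ 2)
      have hNx : x < N := by
        rw [hxdef, div_lt_iff₀ hden]
        have : HH n < (HH n / (r * p ^ 2) + 1) * (r * p ^ 2) := by
          rw [mul_comm]
          exact Nat.lt_mul_div_succ _ (by exact_mod_cast hden)
        exact_mod_cast this
      have hNx2 : (N : ℝ) ≤ x + 1 := by
        have h2 := @Nat.cast_div_le ℝ _ _ _ (HH n) (r * p ^ 2)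
        rw [hN]; push_cast
        push_cast at h2
        rw [hxdef]; push_cast
        linarith
      -- x ≥ sqrt n
      have hp2 : r * p ^ 2 ≤ n * Z ^ 2 := Nat.mul_le_mul hr.2 (Nat.pow_le_pow_left (by omega) 2)
      have hZs : (Z : ℝ) ^ 2 ≤ Real.sqrt n := by
        apply Real.le_sqrt_of_sq_le
        have h4 : Z ^ 4 ≤ Z ^ 8 := Nat.pow_le_pow_right hZ1 (by norm_num)
        have h5 : ((Z ^ 4 : ℕ) : ℝ) ≤ n := by exact_mod_cast h4.trans hZ
        calc ((Z : ℝ) ^ 2) ^ 2 = ((Z ^ 4 : ℕ) : ℝ) := by push_cast; ring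
          _ ≤ n := h5
      have hss : Real.sqrt n * Real.sqrt n = n := Real.mul_self_sqrt hn0.le
      have hs0 : 0 < Real.sqrt n := Real.sqrt_pos.2 hn0
      have hs4 : 1 ≤ Real.sqrt n := by
        rw [Real.one_le_sqrt]; linarith
      have hxs : Real.sqrt n ≤ x := by
        rw [hxdef, le_div_iff₀ hden]
        have h6 : ((r * p ^ 2 : ℕ) : ℝ) ≤ n * Real.sqrt n := by
          calc ((r * p ^ 2 : ℕ) : ℝ) ≤ ((n * Z ^ 2 : ℕ) : ℝ) := by exact_mod_cast hp2
            _ = n * (Z : ℝ) ^ 2 := by push_cast; ring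
            _ ≤ n * Real.sqrt n := mul_le_mul_of_nonneg_left hZs hn0.le
        calc Real.sqrt n * ((r * p ^ 2 : ℕ) : ℝ) ≤ Real.sqrt n * (n * Real.sqrt n) :=
              mul_le_mul_of_nonneg_left h6 hs0.le
          _ = n * (Real.sqrt n * Real.sqrt n) := by ring
          _ = (n : ℝ) ^ 2 := by rw [hss]; ring
          _ ≤ HH n := by rw [hH]; nlinarith
      have hN2 : 2 ≤ N := by
        have h7 : (1 : ℝ) < N := by linarith
        exact_mod_cast h7
      have h8 := Tset_BT hC0 hBT (n := n) (by omega : 0 < r) hpp hN2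
      have hlogN : Real.log n / 2 ≤ Real.log N := by
        rw [← Real.log_sqrt hn0.le]
        exact Real.log_le_log hs0 (hxs.trans hNx.le)
      have hlogN0 : 0 < Real.log N := by linarith
      have h9 : C0 * (N : ℝ) / Real.log N ≤ C0 * (2 * x) / (Real.log n / 2) := by
        apply div_le_div₀ (by positivity) _ (by positivity) hlogN
        apply mul_le_mul_of_nonneg_left _ (by linarith)
        linarith
      rw [← hN] at h8
      rw [add_zero, mul_zero, add_zero]
      refine h8.trans (h9.trans (le_of_eq ?_))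
      rw [hx]; field_simp; ring
  -- the number of p
  have hPsc : ∀ r ∈ Icc 1 n, (#(Ps r) : ℝ) ≤ 6 * C0 * n * Real.sqrt n / Real.log n * (1 / Real.sqrt r) := by
    intro r hr
    rw [mem_Icc] at hr
    have hr0 : (0 : ℝ) < r := by exact_mod_cast (by omega : 0 < r)
    set Nr := Nat.sqrt (M / r) with hNr
    have hNr1 : n + 1 ≤ Nr := by
      rw [hNr, Nat.le_sqrt', Nat.le_div_iff_mul_le (by omega)]
      calc (n + 1) ^ 2 * r ≤ (n + 1) ^ 2 * (n + 1) := Nat.mul_le_mul_left _ (by omega)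
        _ = M := by rw [hM]; ring
    have hcard : #(Ps r) ≤ #{k ∈ range (Nr + 1) | (0 + k * 1).Prime} := by
      apply card_le_card
      intro p hp
      simp only [hPs, mem_filter, mem_Ioc] at hp
      rw [mem_filter, mem_range]
      refine ⟨?_, by simpa using hp.2.1⟩
      apply Nat.lt_succ_of_le
      rw [hNr, Nat.le_sqrt', Nat.le_div_iff_mul_le (by omega), mul_comm]
      exact hp.2.2.le
    have h1 := hBT 0 1 (Nr + 1) (by omega) (Or.inl rfl)
    have h2 : (#(Ps r) : ℝ) ≤ C0 * ((Nr + 1 : ℕ) : ℝ) / Real.log ((Nr + 1 : ℕ) : ℝ) :=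
      le_trans (by exact_mod_cast hcard) h1
    have h3 : Real.log n ≤ Real.log ((Nr + 1 : ℕ) : ℝ) := by
      apply Real.log_le_log hn0
      exact_mod_cast (by omega : n ≤ Nr + 1)
    have hsr : 0 < Real.sqrt r := Real.sqrt_pos.2 hr0
    have hsn : 0 ≤ Real.sqrt n := Real.sqrt_nonneg _
    have h4 : ((Nr : ℕ) : ℝ) ≤ 3 * n * Real.sqrt n * (1 / Real.sqrt r) := by
      have h5 : (Nr : ℝ) ^ 2 ≤ (M : ℝ) / r := by
        rw [le_div_iff₀ hr0]
        have : Nr ^ 2 * r ≤ M := by
          calc Nr ^ 2 * r ≤ (M / r) * r := Nat.mul_le_mul_right _ (Nat.sqrt_le' _)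
            _ ≤ M := Nat.div_mul_le_self _ _
        exact_mod_cast this
      have h6 : (M : ℝ) ≤ 9 * (n : ℝ) ^ 3 := by
        rw [hM]; push_cast
        nlinarith [mul_pos hn0 hn0, mul_pos (mul_pos hn0 hn0) hn0]
      have h7 : (Nr : ℝ) ^ 2 ≤ (3 * n * Real.sqrt n * (1 / Real.sqrt r)) ^ 2 := by
        refine h5.trans ?_
        have e : (3 * (n : ℝ) * Real.sqrt n * (1 / Real.sqrt r)) ^ 2 = 9 * (n : ℝ) ^ 3 / r := by
          rw [mul_pow, mul_pow, one_div, inv_pow, Real.sq_sqrt hn0.le, Real.sq_sqrt hr0.le]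
          field_simp
          ring
        rw [e]
        exact div_le_div_of_nonneg_right h6 hr0.le
      exact le_of_sq_le_sq h7 (by positivity)
    have hNrR : (1 : ℝ) ≤ Nr := by exact_mod_cast (by omega : 1 ≤ Nr)
    have h8 : ((Nr + 1 : ℕ) : ℝ) ≤ 2 * (3 * n * Real.sqrt n * (1 / Real.sqrt r)) := by
      push_cast; linarith
    calc (#(Ps r) : ℝ) ≤ C0 * ((Nr + 1 : ℕ) : ℝ) / Real.log ((Nr + 1 : ℕ) : ℝ) := h2
      _ ≤ C0 * (2 * (3 * n * Real.sqrt n * (1 / Real.sqrt r))) / Real.log n := by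
          apply div_le_div₀ (by positivity) _ hln0 h3
          exact mul_le_mul_of_nonneg_left h8 (by linarith)
      _ = _ := by ring
  calc (#(Ab n Y) : ℝ) ≤ ((∑ r ∈ Icc 1 n, ∑ p ∈ Ps r, #(Tset n r p) : ℕ) : ℝ) := by
        rw [Nat.cast_le]
        refine (card_le_card hsub).trans (card_biUnion_le.trans ?_)
        apply sum_le_sum
        intro r _
        exact card_biUnion_le
    _ = ∑ r ∈ Icc 1 n, ∑ p ∈ Ps r, (#(Tset n r p) : ℝ) := by push_cast; rfl
    _ ≤ ∑ r ∈ Icc 1 n, ∑ p ∈ Ps r, (4 * C0 * HH n / Real.log n * (1 / r) * (1 / (p : ℝ) ^ 2) +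
      (if Z < p then (HH n : ℝ) * (1 / r) * (1 / (p : ℝ) ^ 2) else 0) + 1 * (if Z < p then 1 else 0)) := by
        apply sum_le_sum
        intro r hr
        exact sum_le_sum (hT r hr)
    _ ≤ ∑ r ∈ Icc 1 n, (4 * C0 * HH n / Real.log n * (1 / Y) * (1 / r) +
        (HH n : ℝ) * (1 / Z) * (1 / r) +
        6 * C0 * n * Real.sqrt n / Real.log n * (1 / Real.sqrt r)) := by
        apply sum_le_sum
        intro r hr
        have hr0 : (0 : ℝ) < r := by
          have := (mem_Icc.1 hr).1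
          exact_mod_cast (by omega : 0 < r)
        rw [sum_add_distrib, sum_add_distrib]
        have t1 : ∑ p ∈ Ps r, 4 * C0 * HH n / Real.log n * (1 / r) * (1 / (p : ℝ) ^ 2) ≤
            4 * C0 * HH n / Real.log n * (1 / Y) * (1 / r) := by
          rw [← mul_sum]
          have h1 : ∑ p ∈ Ps r, (1 : ℝ) / (p : ℝ) ^ 2 ≤ 1 / Y := by
            refine le_trans ?_ (sum_inv_sq Y M hY)
            apply sum_le_sum_of_subset_of_nonneg (filter_subset _ _)
            intro p _ _; positivity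
          calc 4 * C0 * HH n / Real.log n * (1 / r) * ∑ p ∈ Ps r, (1 : ℝ) / (p : ℝ) ^ 2
              ≤ 4 * C0 * HH n / Real.log n * (1 / r) * (1 / Y) :=
                mul_le_mul_of_nonneg_left h1 (by positivity)
            _ = _ := by ring
        have t2 : ∑ p ∈ Ps r, (if Z < p then (HH n : ℝ) * (1 / r) * (1 / (p : ℝ) ^ 2) else 0) ≤
            (HH n : ℝ) * (1 / Z) * (1 / r) := by
          rw [← sum_filter, ← mul_sum]
          have h1 : ∑ p ∈ Ps r with Z < p, (1 : ℝ) / (p : ℝ) ^ 2 ≤ 1 / Z := by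
            refine le_trans ?_ (sum_inv_sq Z M hZ1)
            apply sum_le_sum_of_subset_of_nonneg
            · intro p hp
              simp only [hPs, mem_filter, mem_Ioc] at hp
              exact mem_Ioc.2 ⟨hp.2, hp.1.1.2⟩
            · intro p _ _; positivity
          calc (HH n : ℝ) * (1 / r) * ∑ p ∈ Ps r with Z < p, (1 : ℝ) / (p : ℝ) ^ 2
              ≤ (HH n : ℝ) * (1 / r) * (1 / Z) := mul_le_mul_of_nonneg_left h1 (by positivity)
            _ = _ := by ring
        have t3 : ∑ p ∈ Ps r, (1 : ℝ) * (if Z < p then 1 else 0) ≤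
            6 * C0 * n * Real.sqrt n / Real.log n * (1 / Real.sqrt r) := by
          refine le_trans ?_ (hPsc r hr)
          calc ∑ p ∈ Ps r, (1 : ℝ) * (if Z < p then 1 else 0) ≤ ∑ p ∈ Ps r, (1 : ℝ) := by
                apply sum_le_sum
                intro p _
                split_ifs <;> norm_num
            _ = #(Ps r) := by simp
        linarith
    _ = 4 * C0 * HH n / Real.log n * (1 / Y) * ∑ r ∈ Icc 1 n, (1 : ℝ) / r +
        (HH n : ℝ) * (1 / Z) * ∑ r ∈ Icc 1 n, (1 : ℝ) / r +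
        6 * C0 * n * Real.sqrt n / Real.log n * ∑ r ∈ Icc 1 n, (1 : ℝ) / Real.sqrt r := by
        rw [sum_add_distrib, sum_add_distrib, mul_sum, mul_sum, mul_sum]
    _ ≤ 4 * C0 * HH n / Real.log n * (1 / Y) * (1 + Real.log n) +
        (HH n : ℝ) * (1 / Z) * (1 + Real.log n) +
        6 * C0 * n * Real.sqrt n / Real.log n * (2 * Real.sqrt n) := by
        have h1 := sum_inv n
        have h2 := sum_inv_sqrt n
        have a1 : 4 * C0 * HH n / Real.log n * (1 / Y) * ∑ r ∈ Icc 1 n, (1 : ℝ) / r ≤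
            4 * C0 * HH n / Real.log n * (1 / Y) * (1 + Real.log n) :=
          mul_le_mul_of_nonneg_left h1 (by positivity)
        have a2 : (HH n : ℝ) * (1 / Z) * ∑ r ∈ Icc 1 n, (1 : ℝ) / r ≤
            (HH n : ℝ) * (1 / Z) * (1 + Real.log n) := mul_le_mul_of_nonneg_left h1 (by positivity)
        have a3 : 6 * C0 * n * Real.sqrt n / Real.log n * ∑ r ∈ Icc 1 n, (1 : ℝ) / Real.sqrt r ≤
            6 * C0 * n * Real.sqrt n / Real.log n * (2 * Real.sqrt n) :=
          mul_le_mul_of_nonneg_left h2 (by positivity)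
        linarith
    _ = _ := by
        have hss : Real.sqrt n * Real.sqrt n = n := Real.mul_self_sqrt hn0.le
        have e : 6 * C0 * n * Real.sqrt n / Real.log n * (2 * Real.sqrt n) =
            12 * C0 * n * (Real.sqrt n * Real.sqrt n) / Real.log n := by ring
        rw [e, hss]
        ring

end Pool.Agent.Q43.Cyc
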