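import Pool.Agent.Q43.Cyc.RoughB

set_option autoImplicit false

namespace Pool.Agent.Q43.Cyc

open Finset Filter

theorem ev_log (c : ℝ) : ∀ᶠ n : ℕ in atTop, c ≤ Real.log n :=
  (Real.tendsto_log_atTop.comp tendsto_natCast_atTop_atTop).eventually_ge_atTop c

theorem ev_loglog (c : ℝ) : ∀ᶠ n : ℕ in atTop, c ≤ Real.log (Real.log n) :=
  (Real.tendsto_log_atTop.comp
    (Real.tendsto_log_atTop.comp tendsto_natCast_atTop_atTop)).eventually_ge_atTop c

/-- `C (log n)^k ≤ n^(1/2)` eventually -/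
theorem ev_logpow (k : ℕ) (C : ℝ) (hC : 0 < C) : ∀ᶠ n : ℕ in atTop,
    C * (Real.log n) ^ k ≤ Real.sqrt n := by
  have h1 := isLittleO_log_rpow_rpow_atTop (k : ℝ) (show (0 : ℝ) < 1 / 2 by norm_num)
  have h2 := h1.bound (show (0 : ℝ) < 1 / C by positivity)
  have h3 := tendsto_natCast_atTop_atTop (R := ℝ) |>.eventually h2
  filter_upwards [h3, ev_log 0, eventually_ge_atTop 1] with n hn hl hn1
  have hn0 : (0 : ℝ) < n := by exact_mod_cast (by omega : 0 < n)
  rw [Real.norm_eq_abs, abs_of_nonneg (Real.rpow_nonneg hl _), Real.norm_eq_abs,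
    abs_of_nonneg (Real.rpow_nonneg hn0.le _), Real.rpow_natCast, ← Real.sqrt_eq_rpow] at hn
  have := mul_le_mul_of_nonneg_left hn hC.le
  calc C * (Real.log n) ^ k ≤ C * (1 / C * Real.sqrt n) := this
    _ = Real.sqrt n := by field_simp

theorem rough : ∃ C : ℝ, 0 < C ∧ ∀ᶠ n : ℕ in atTop, ∀ Y : ℕ, 1 ≤ Y →
    (#(RoughSet n Y) : ℝ) ≤ C * (n : ℝ) ^ 2 * (Real.log (Real.log n) / Y + 1 / Real.log n) := by
  classical
  obtain ⟨C0, hC0, hBT⟩ := Pool.Agent.Helper601.brun_titchmarsh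
  have hl2 : 0 < Real.log 2 := Real.log_pos (by norm_num)
  refine ⟨6 + 72 * C0 / Real.log 2 + 48 * C0 + 13 + 12 * C0, by positivity, ?_⟩
  filter_upwards [ev_loglog 2, ev_log 2, ev_logpow 1 3 (by norm_num), ev_logpow 8 (3 ^ 4) (by norm_num),
    eventually_ge_atTop 16] with n hll hl hs1 hs8 hn16 Y hY
  have hn0 : (0 : ℝ) < n := by exact_mod_cast (by omega : 0 < n)
  have hn1 : (16 : ℝ) ≤ n := by exact_mod_cast hn16
  have hl0 : 0 < Real.log n := by linarith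
  have hY0 : (0 : ℝ) < Y := by exact_mod_cast (by omega : 0 < Y)
  have hss : Real.sqrt n * Real.sqrt n = n := Real.mul_self_sqrt hn0.le
  have hs0 : 0 < Real.sqrt n := Real.sqrt_pos.2 hn0
  have hH : (HH n : ℝ) ≤ 6 * (n : ℝ) ^ 2 := by
    unfold HH; push_cast; nlinarith
  have hH0 : (0 : ℝ) ≤ HH n := Nat.cast_nonneg _
  -- the auxiliary Z
  set Z : ℕ := ⌈2 * (Real.log n) ^ 2⌉₊ with hZdef
  have hZge : 2 * (Real.log n) ^ 2 ≤ Z := Nat.le_ceil _
  have hZle : (Z : ℝ) ≤ 3 * (Real.log n) ^ 2 := by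
    have h1 : (Z : ℝ) < 2 * (Real.log n) ^ 2 + 1 := Nat.ceil_lt_add_one (by positivity)
    nlinarith
  have hZ1 : 1 ≤ Z := by
    have : (0 : ℝ) < Z := by nlinarith
    exact_mod_cast this
  have hZ0 : (0 : ℝ) < Z := by exact_mod_cast (by omega : 0 < Z)
  have hZ8 : Z ^ 8 ≤ n := by
    have h1 : (Z : ℝ) ^ 4 ≤ Real.sqrt n := by
      calc (Z : ℝ) ^ 4 ≤ (3 * (Real.log n) ^ 2) ^ 4 := pow_le_pow_left₀ hZ0.le hZle 4
        _ = 3 ^ 4 * (Real.log n) ^ 8 := by ring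
        _ ≤ Real.sqrt n := hs8
    have h2 : (Z : ℝ) ^ 8 ≤ n := by
      calc (Z : ℝ) ^ 8 = ((Z : ℝ) ^ 4) * ((Z : ℝ) ^ 4) := by ring
        _ ≤ Real.sqrt n * Real.sqrt n := mul_le_mul h1 h1 (by positivity) hs0.le
        _ = n := hss
    exact_mod_cast h2
  have b1 := Ai_bound n Y hY
  have b2 := Aa_bound hC0 hBT n Y (by omega) hY
  have b3 := Ab_bound hC0 hBT n Y Z hn16 hY hZ1 hZ8
  have hcov : (#(RoughSet n Y) : ℝ) ≤ #(Ai n Y) + (#(Aa n Y) + #(Ab n Y)) := by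
    have h1 := (card_le_card (rough_cover n Y (by omega))).trans (card_union_le _ _)
    have h2 := card_union_le (Aa n Y) (Ab n Y)
    exact_mod_cast (by omega : #(RoughSet n Y) ≤ #(Ai n Y) + (#(Aa n Y) + #(Ab n Y)))
  -- estimates
  have e1 : (HH n : ℝ) / Y ≤ 6 * (n : ℝ) ^ 2 * (Real.log (Real.log n) / Y) := by
    have h1 : (HH n : ℝ) / Y ≤ 6 * (n : ℝ) ^ 2 / Y := div_le_div_of_nonneg_right hH hY0.le
    have h2 : 6 * (n : ℝ) ^ 2 / Y * 1 ≤ 6 * (n : ℝ) ^ 2 / Y * Real.log (Real.log n) :=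
      mul_le_mul_of_nonneg_left (by linarith) (by positivity)
    calc (HH n : ℝ) / Y ≤ 6 * (n : ℝ) ^ 2 / Y * 1 := by linarith
      _ ≤ 6 * (n : ℝ) ^ 2 / Y * Real.log (Real.log n) := h2
      _ = _ := by ring
  have e2 : (Nat.sqrt ((n + 1) ^ 3) : ℝ) ≤ (n : ℝ) ^ 2 * (1 / Real.log n) := by
    have h1 : (Nat.sqrt ((n + 1) ^ 3) : ℝ) ≤ 3 * n * Real.sqrt n := by
      have h2 : ((Nat.sqrt ((n + 1) ^ 3) : ℕ) : ℝ) ^ 2 ≤ (3 * n * Real.sqrt n) ^ 2 := by
        have h3 : ((Nat.sqrt ((n + 1) ^ 3) : ℕ) : ℝ) ^ 2 ≤ (((n + 1) ^ 3 : ℕ) : ℝ) := by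
          exact_mod_cast Nat.sqrt_le' _
        refine h3.trans ?_
        have h4 : (3 * (n : ℝ) * Real.sqrt n) ^ 2 = 9 * (n : ℝ) ^ 3 := by
          rw [mul_pow, Real.sq_sqrt hn0.le]; ring
        rw [h4]; push_cast
        nlinarith [mul_pos hn0 hn0, mul_pos (mul_pos hn0 hn0) hn0]
      exact le_of_sq_le_sq h2 (by positivity)
    have h5 : (3 * (n : ℝ) * Real.sqrt n) * Real.log n ≤ (n : ℝ) ^ 2 := by
      have h6 : 3 * Real.log n ≤ Real.sqrt n := by simpa using hs1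
      have h7 := mul_le_mul_of_nonneg_left h6 (show 0 ≤ (n : ℝ) * Real.sqrt n by positivity)
      calc (3 * (n : ℝ) * Real.sqrt n) * Real.log n = (n * Real.sqrt n) * (3 * Real.log n) := by ring
        _ ≤ (n * Real.sqrt n) * Real.sqrt n := h7
        _ = n * (Real.sqrt n * Real.sqrt n) := by ring
        _ = (n : ℝ) ^ 2 := by rw [hss]; ring
    rw [mul_one_div, le_div_iff₀ hl0]
    exact (mul_le_mul_of_nonneg_right h1 hl0.le).trans h5
  have e3 : 2 * (HH n : ℝ) * ((2 * C0 / Real.log 2) *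
      (1 + Real.log ((Nat.log 2 (HH n) + 1 : ℕ) : ℝ))) / Y ≤
      72 * C0 / Real.log 2 * (n : ℝ) ^ 2 * (Real.log (Real.log n) / Y) := by
    have h1 : Real.log ((Nat.log 2 (HH n) + 1 : ℕ) : ℝ) ≤ 2 * Real.log (Real.log n) + 1 := by
      have h2 : ((Nat.log 2 (HH n) : ℕ) : ℝ) * Real.log 2 ≤ 3 * Real.log n := by
        have h3 : 2 ^ (Nat.log 2 (HH n)) ≤ HH n := Nat.pow_log_le_self 2 (by unfold HH; positivity)
        have h4 : HH n ≤ n ^ 3 := by
          unfold HH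
          nlinarith [Nat.zero_le n, Nat.mul_le_mul hn16 (le_refl (n ^ 2))]
        have h5 : ((2 ^ (Nat.log 2 (HH n)) : ℕ) : ℝ) ≤ ((n ^ 3 : ℕ) : ℝ) := by
          exact_mod_cast h3.trans h4
        have h6 := Real.log_le_log (by positivity) h5
        push_cast at h6
        rw [Real.log_pow, Real.log_pow] at h6
        exact_mod_cast h6
      have hl2' : (0.69 : ℝ) < Real.log 2 := by have := Real.log_two_gt_d9; linarith
      have h7 : ((Nat.log 2 (HH n) : ℕ) : ℝ) ≤ 5 * Real.log n := by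
        have h8 : (0 : ℝ) ≤ ((Nat.log 2 (HH n) : ℕ) : ℝ) := Nat.cast_nonneg _
        nlinarith
      have h9 : ((Nat.log 2 (HH n) + 1 : ℕ) : ℝ) ≤ 6 * Real.log n := by push_cast; linarith
      have h10 := Real.log_le_log (by positivity) h9
      rw [Real.log_mul (by norm_num) hl0.ne'] at h10
      have h11 : Real.log 6 ≤ 3 := by
        have := Real.log_le_sub_one_of_pos (show (0 : ℝ) < 6 / 3 by norm_num)
        rw [Real.log_div (by norm_num) (by norm_num)] at this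
        have h12 := Real.log_le_sub_one_of_pos (show (0 : ℝ) < 3 by norm_num)
        linarith
      linarith
    have h2 : 1 + Real.log ((Nat.log 2 (HH n) + 1 : ℕ) : ℝ) ≤ 3 * Real.log (Real.log n) := by linarith
    have h3 : 0 ≤ 1 + Real.log ((Nat.log 2 (HH n) + 1 : ℕ) : ℝ) := by
      have := Real.log_natCast_nonneg (Nat.log 2 (HH n) + 1)
      linarith
    calc 2 * (HH n : ℝ) * ((2 * C0 / Real.log 2) *
      (1 + Real.log ((Nat.log 2 (HH n) + 1 : ℕ) : ℝ))) / Y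
        ≤ 2 * (6 * (n : ℝ) ^ 2) * ((2 * C0 / Real.log 2) * (3 * Real.log (Real.log n))) / Y := by
          apply div_le_div_of_nonneg_right _ hY0.le
          apply mul_le_mul
          · linarith
          · exact mul_le_mul_of_nonneg_left h2 (by positivity)
          · positivity
          · positivity
      _ = _ := by ring
  have e4 : 4 * C0 * HH n * (1 + Real.log n) / (Y * Real.log n) ≤
      48 * C0 * (n : ℝ) ^ 2 * (Real.log (Real.log n) / Y) := by
    have h1 : 4 * C0 * HH n * (1 + Real.log n) / (Y * Real.log n) ≤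
        4 * C0 * (6 * (n : ℝ) ^ 2) * (2 * Real.log n) / (Y * Real.log n) := by
      apply div_le_div_of_nonneg_right _ (by positivity)
      apply mul_le_mul
      · exact mul_le_mul_of_nonneg_left hH (by positivity)
      · linarith
      · positivity
      · positivity
    have h2 : 4 * C0 * (6 * (n : ℝ) ^ 2) * (2 * Real.log n) / (Y * Real.log n) =
        48 * C0 * (n : ℝ) ^ 2 * (1 / Y) := by field_simp; ring
    rw [h2] at h1
    refine h1.trans ?_
    apply mul_le_mul_of_nonneg_left _ (by positivity)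
    exact div_le_div_of_nonneg_right (by linarith) hY0.le
  have e5 : (HH n : ℝ) * (1 + Real.log n) / Z ≤ 12 * (n : ℝ) ^ 2 * (1 / Real.log n) := by
    rw [mul_one_div, div_le_div_iff₀ hZ0 hl0]
    have h1 : (HH n : ℝ) * (1 + Real.log n) ≤ 6 * (n : ℝ) ^ 2 * (2 * Real.log n) :=
      mul_le_mul hH (by linarith) (by linarith) (by positivity)
    calc (HH n : ℝ) * (1 + Real.log n) * Real.log n ≤ (6 * (n : ℝ) ^ 2 * (2 * Real.log n)) * Real.log n :=
          mul_le_mul_of_nonneg_right h1 hl0.le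
      _ = 6 * (n : ℝ) ^ 2 * (2 * (Real.log n) ^ 2) := by ring
      _ ≤ 6 * (n : ℝ) ^ 2 * Z := mul_le_mul_of_nonneg_left hZge (by positivity)
      _ ≤ 12 * (n : ℝ) ^ 2 * Z := by
          apply mul_le_mul_of_nonneg_right _ hZ0.le
          nlinarith [sq_nonneg (n : ℝ)]
  have e6 : 12 * C0 * (n : ℝ) ^ 2 / Real.log n = 12 * C0 * (n : ℝ) ^ 2 * (1 / Real.log n) := by ring
  rw [e6] at b3
  have hA : 0 ≤ (n : ℝ) ^ 2 * (Real.log (Real.log n) / Y) := by
    have : 0 ≤ Real.log (Real.log n) := by linarith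
    positivity
  have hB : 0 ≤ (n : ℝ) ^ 2 * (1 / Real.log n) := by positivity
  set A1 := (n : ℝ) ^ 2 * (Real.log (Real.log n) / Y) with hA1
  set B1 := (n : ℝ) ^ 2 * (1 / Real.log n) with hB1
  have g1 : (6 + 72 * C0 / Real.log 2 + 48 * C0 + 13 + 12 * C0) * (n : ℝ) ^ 2 *
      (Real.log (Real.log n) / Y + 1 / Real.log n) =
      (6 + 72 * C0 / Real.log 2 + 48 * C0 + 13 + 12 * C0) * A1 +
      (6 + 72 * C0 / Real.log 2 + 48 * C0 + 13 + 12 * C0) * B1 := by
    rw [hA1, hB1]; ring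
  have g2 : (#(RoughSet n Y) : ℝ) ≤ (6 + 72 * C0 / Real.log 2 + 48 * C0) * A1 +
      (13 + 12 * C0) * B1 := by
    rw [hA1, hB1]
    linarith
  rw [g1]
  have g3 : 0 ≤ (13 + 12 * C0) * A1 := by positivity
  have g4 : 0 ≤ (6 + 72 * C0 / Real.log 2 + 48 * C0) * B1 := by positivity
  linarith

end Pool.Agent.Q43.Cyc
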